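import Pool.Agent.H78.Rk.Rec

set_option autoImplicit false

open Polynomial Pool.Agent.H78.Tri

namespace Pool.Agent.H78.Rk

section
variable {R : Type*} [CommRing R]

theorem D_sub2' (D : Derivation R R[X][X] R[X][X]) (P w : R[X][X]) (hP : D P = 0) (F : R[X][X]) :
    D (sub2 P w F) = sub2 P w (derivative F) * D w := by
  induction F using Polynomial.induction_on' with
  | add p q hp hq => rw [map_add, map_add, hp, hq, derivative_add, map_add]; ring
  | monomial n f =>
    rw [sub2_monomial, D.leibniz, D_aeval D P hP, Derivation.leibniz_pow, derivative_monomial,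
      sub2_monomial]
    simp only [smul_eq_mul, nsmul_eq_mul, mul_zero, add_zero, map_mul, map_natCast]
    ring

/-- Everything is rationally generated by `P, w`. -/
def Gen (P w : R[X][X]) : Prop :=
  ∀ b : R[X][X], ∃ (r : R) (F : R[X][X]), r ≠ 0 ∧ r • b = sub2 P w F

variable {κ : Type*} [Field κ]

theorem red_sub2 (π : R →+* κ) (P w F : R[X][X]) :
    red π (sub2 P w F) = sub2 (red π P) (red π w) (red π F) := by
  have : (red π).comp (sub2 (R := R) P w) = (sub2 (R := κ) (red π P) (red π w)).comp (red π) := by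
    apply Polynomial.ringHom_ext
    · intro q
      simp only [RingHom.comp_apply, sub2_C]
      have e : red π (C q) = C (q.map π) := by simp [red]
      rw [e, sub2_C]
      induction q using Polynomial.induction_on' with
      | add p q hp hq =>
        rw [map_add, map_add, Polynomial.map_add, map_add, hp, hq]
        · simp [red]
        · simp [red]
      | monomial n r =>
        rw [aeval_monomial, map_mul, map_pow, Polynomial.map_monomial, aeval_monomial]
        congr 1
        have h1 : algebraMap R R[X][X] r = C (C r) := rfl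
        have h2 : algebraMap κ κ[X][X] (π r) = C (C (π r)) := rfl
        rw [h1, h2]; simp [red]
    · have e : red π X = X := by simp [red]
      simp only [RingHom.comp_apply, sub2_X, e]
  exact congrArg (fun φ => φ F) this

theorem red_aeval (π : R →+* κ) (P : R[X][X]) (f : R[X]) :
    red π (aeval P f) = aeval (red π P) (f.map π) := by
  have h := red_sub2 π P 0 (C f)
  have e : red π (C f) = C (f.map π) := by simp [red]
  rwa [sub2_C, e, sub2_C] at h

theorem red_surj (π : R →+* κ) (hπ : Function.Surjective π) : Function.Surjective (red π) := by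
  intro F
  obtain ⟨G, hG⟩ := map_surjective (mapRingHom π) (by
    intro f; obtain ⟨g, hg⟩ := map_surjective π hπ f; exact ⟨g, hg⟩) F
  exact ⟨G, hG⟩

end

section
variable {R κ : Type*} [CommRing R] [IsDomain R] [WfDvdMonoid R] [Field κ]

theorem transc {π : R →+* κ} {p : R} (hpp : Prime p) (hp : ∀ r, π r = 0 ↔ p ∣ r)
    {P : R[X][X]} (hP : ∀ g : κ[X], aeval (red π P) g = 0 → g = 0) (f : R[X])
    (hf : aeval P f = 0) : f = 0 := by
  have key : ∀ N : ℕ, ∀ f : R[X], aeval P f = 0 → C (p ^ N) ∣ f := by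
    intro N
    induction N with
    | zero => intro f _; rw [pow_zero, C_1]; exact one_dvd _
    | succ N ih =>
      intro f hf
      have h1 : f.map π = 0 := by
        apply hP
        rw [← red_aeval, hf, map_zero]
      obtain ⟨f1, rfl⟩ := dvd_of_map_zero π p hp f h1
      have h2 : aeval P f1 = 0 := by
        rw [map_mul, aeval_C] at hf
        refine (mul_eq_zero.1 hf).resolve_left ?_
        have h1 : algebraMap R R[X][X] p = C (C p) := rfl
        rw [h1]; simpa using hpp.ne_zero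
      rw [pow_succ', C_mul]
      exact mul_dvd_mul_left _ (ih f1 h2)
  ext i
  rw [coeff_zero]
  by_contra hne
  obtain ⟨N, hN⟩ := FiniteMultiplicity.of_prime_left hpp hne
  exact hN ((C_dvd_iff_dvd_coeff _ _).1 (key (N + 1) f hf) i)

variable [CharZero R]

theorem sub2_inj {π : R →+* κ} {p : R} (hpp : Prime p) (hp : ∀ r, π r = 0 ↔ p ∣ r)
    {D : Derivation R R[X][X] R[X][X]} {P w : R[X][X]} (hDP : D P = 0)
    (hDw : DegC D 1 w) (hP : ∀ g : κ[X], aeval (red π P) g = 0 → g = 0) (F : R[X][X])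
    (hF : sub2 P w F = 0) : F = 0 := by
  obtain ⟨r, hr, hr'⟩ := hDw
  have hr'' : D w = r • (1 : R[X][X]) := hr'
  induction hn : F.natDegree using Nat.strong_induction_on generalizing F with
  | _ n ih =>
    have h1 : sub2 P w (derivative F) = 0 := by
      have := D_sub2' D P w hDP F
      rw [hF, map_zero, hr''] at this
      apply smul_eq_zero_B hr
      rw [this, smul_eq_CC, smul_eq_CC]; ring
    have h2 : derivative F = 0 := by
      by_contra hne
      have hn0 : F.natDegree ≠ 0 := by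
        intro h0
        rw [natDegree_eq_zero] at h0
        obtain ⟨q, rfl⟩ := h0
        simp at hne
      have hlt : (derivative F).natDegree < F.natDegree := natDegree_derivative_lt hn0
      exact hne (ih _ (hn ▸ hlt) _ h1 rfl)
    obtain ⟨q, rfl⟩ := natDegree_eq_zero.1 (derivative_eq_zero.1 h2)
    rw [sub2_C] at hF
    rw [transc hpp hp hP q hF, C_0]

theorem ker_P {π : R →+* κ} {p : R} (hpp : Prime p) (hp : ∀ r, π r = 0 ↔ p ∣ r)
    {D : Derivation R R[X][X] R[X][X]} {P w : R[X][X]} (hDP : D P = 0)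
    (hDw : DegC D 1 w) (hP : ∀ g : κ[X], aeval (red π P) g = 0 → g = 0) (hgen : Gen P w)
    (a : R[X][X]) (ha : D a = 0) : ∃ (r : R) (f : R[X]), r ≠ 0 ∧ r • a = aeval P f := by
  obtain ⟨r, F, hr, hF⟩ := hgen a
  have h1 : sub2 P w (derivative F) = 0 := by
    have := D_sub2' D P w hDP F
    rw [← hF, D.map_smul, ha, smul_zero] at this
    obtain ⟨s, hs, hs'⟩ := hDw
    have hs'' : D w = s • (1 : R[X][X]) := hs'
    rw [hs''] at this
    apply smul_eq_zero_B hs
    rw [this, smul_eq_CC, smul_eq_CC]; ring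
  have h2 := sub2_inj hpp hp hDP hDw hP _ h1
  obtain ⟨q, rfl⟩ := natDegree_eq_zero.1 (derivative_eq_zero.1 h2)
  exact ⟨r, q, hr, by rw [hF, sub2_C]⟩

end

section abs
variable {R κ A B H : Type*} [CommRing R] [Field κ] [CommRing A] [Algebra R A] [CommRing B]
  [Algebra R B] [CommRing H] [Algebra κ H]

theorem base_ring {π : R →+* κ} {p : R} (ev : A →ₐ[R] B) (hev : Function.Injective ev)
    (Θ : A →+* κ[X][X]) (hs : Function.Surjective Θ)
    (hk : ∀ F, Θ F = 0 → ∃ G, F = algebraMap R A p * G)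
    (hsc : ∀ r, Θ (algebraMap R A r) = C (C (π r))) (X0 : A) (hX0 : Θ X0 = X) (τ : H)
    (red : B →+* H) (hred : ∀ F, red (ev F) = sub2 τ (red (ev X0)) (Θ F)) :
    ∃ (S : Subalgebra R B) (θ : S →+* κ[X][X]) (w : S), (w : B) = ev X0 ∧
      Stage π p red S θ w τ ∧ (∀ F, ∃ h : ev F ∈ S, θ ⟨ev F, h⟩ = Θ F) ∧
      ∀ s ∈ S, ∃ F, s = ev F := by
  let evr : A →+* ev.range := (ev.rangeRestrict : A →ₐ[R] ev.range)
  have hevr : ∀ F, ((evr F : ev.range) : B) = ev F := fun F => rfl
  have hevs : Function.Surjective evr := AlgHom.rangeRestrict_surjective ev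
  have hle : RingHom.ker evr ≤ RingHom.ker Θ := by
    intro F hF
    rw [RingHom.mem_ker] at hF ⊢
    have h1 : ev F = ev 0 := by rw [← hevr, hF, map_zero]; rfl
    rw [hev h1, map_zero]
  let θ : ev.range →+* κ[X][X] := RingHom.liftOfSurjective evr hevs ⟨Θ, hle⟩
  have hθ : ∀ F, θ (evr F) = Θ F := by
    intro F
    exact RingHom.liftOfRightInverse_comp_apply _ _ _ ⟨Θ, hle⟩ F
  refine ⟨ev.range, θ, evr X0, hevr X0, ⟨?_, ?_, ?_, ?_, ?_⟩, ?_, ?_⟩
  · rw [hθ, hX0]
  · intro F
    obtain ⟨G, hG⟩ := hs F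
    exact ⟨evr G, by rw [hθ, hG]⟩
  · intro s hs
    obtain ⟨F, rfl⟩ := hevs s
    rw [hθ] at hs
    obtain ⟨G, hG⟩ := hk F hs
    refine ⟨evr G, Subtype.ext ?_⟩
    rw [hevr, hG, map_mul, AlgHom.commutes]
    rfl
  · intro s
    obtain ⟨F, rfl⟩ := hevs s
    rw [hθ, hevr, hevr, hred]
  · intro r
    have : algebraMap R ev.range r = evr (algebraMap R A r) := by
      apply Subtype.ext
      rw [hevr, AlgHom.commutes]
      rfl
    rw [this, hθ, hsc]
  · intro F
    exact ⟨⟨F, rfl⟩, hθ F⟩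
  · rintro s ⟨F, rfl⟩
    exact ⟨F, rfl⟩

end abs

section
variable {R κ : Type*} [CommRing R] [IsDomain R] [WfDvdMonoid R] [Field κ] [CharZero R]
  [CharZero κ]

/-- `sub2` as an algebra map -/
noncomputable def ev2 (P w : R[X][X]) : R[X][X] →ₐ[R] R[X][X] :=
  { sub2 (R := R) P w with commutes' := fun r => sub2_CC P w r }

theorem ev2_apply (P w F : R[X][X]) : ev2 P w F = sub2 P w F := rfl

theorem red_C (π : R →+* κ) (f : R[X]) : red π (C f) = C (f.map π) := by simp [red]
theorem red_X (π : R →+* κ) : red π X = X := by simp [red]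

theorem base_int (P w : R[X][X]) (hgen : Gen P w) (S : Subalgebra R R[X][X])
    (hS1 : ∀ F, ev2 P w F ∈ S) (hS2 : ∀ s ∈ S, ∃ F, s = ev2 P w F)
    (E : Derivation R R[X][X] R[X][X]) : ∃ r : R, r ≠ 0 ∧ ∀ s ∈ S, r • E s ∈ S := by
  obtain ⟨r1, F1, hr1, hF1⟩ := hgen (E P)
  obtain ⟨r2, F2, hr2, hF2⟩ := hgen (E w)
  refine ⟨r1 * r2, mul_ne_zero hr1 hr2, ?_⟩
  have hP1 : r1 • E P ∈ S := by rw [hF1, ← ev2_apply]; exact hS1 _
  have hw1 : r2 • E w ∈ S := by rw [hF2, ← ev2_apply]; exact hS1 _
  have hwm : w ∈ S := by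
    have := hS1 X
    rwa [ev2_apply, sub2_X] at this
  have hqm : ∀ q : R[X], aeval P q ∈ S := by
    intro q
    have := hS1 (C q)
    rwa [ev2_apply, sub2_C] at this
  intro s hs
  obtain ⟨F, rfl⟩ := hS2 s hs
  rw [ev2_apply]
  clear hs
  induction F using Polynomial.induction_on' with
  | add p q hp hq => rw [map_add, map_add, smul_add]; exact S.add_mem hp hq
  | monomial n q =>
    rw [sub2_monomial, E.leibniz, Derivation.map_aeval, Derivation.leibniz_pow]
    have e1 : (r1 * r2) • (aeval P q • n • w ^ (n - 1) • E w + w ^ n • (aeval P) (derivative q) • E P)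
        = (n : R[X][X]) * (algebraMap R R[X][X] r1 * (aeval P q * (w ^ (n - 1) * (r2 • E w)))) +
        algebraMap R R[X][X] r2 * (w ^ n * (aeval P (derivative q) * (r1 • E P))) := by
      simp only [smul_eq_mul, nsmul_eq_mul]
      simp only [Algebra.smul_def, map_mul]
      ring
    rw [e1]
    exact S.add_mem (S.mul_mem (natCast_mem _ _) (S.mul_mem
      (S.algebraMap_mem _) (S.mul_mem (hqm q) (S.mul_mem
      (S.pow_mem hwm _) hw1)))) (S.mul_mem (S.algebraMap_mem _)
      (S.mul_mem (S.pow_mem hwm _) (S.mul_mem (hqm _) hP1)))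

theorem base_stage {π : R →+* κ} (hπ : Function.Surjective π) {p : R} (hpp : Prime p)
    (hp : ∀ r, π r = 0 ↔ p ∣ r) {D : Derivation R R[X][X] R[X][X]} {P w : R[X][X]}
    (hDP : D P = 0) (hDw : DegC D 1 w) (hP : ∀ g : κ[X], aeval (red π P) g = 0 → g = 0)
    (hwn : ∀ g : κ[X], red π w ≠ aeval (red π P) g) (hgen : Gen P w) :
    HasStage π p D P 1 := by
  have hπp : π p = 0 := (hp p).2 dvd_rfl
  have hinj : Function.Injective (ev2 P w) := by
    rw [injective_iff_map_eq_zero]
    exact fun F hF => sub2_inj hpp hp hDP hDw hP F hF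
  obtain ⟨S, θ, w', hw', hst, h1, h2⟩ := base_ring (π := π) (p := p) (ev2 P w) hinj (red π)
    (red_surj π hπ) (fun F hF => red_zero hp F hF) (fun r => red_alg π r) X (red_X π) (red π P)
    (red π) (fun F => by rw [ev2_apply, ev2_apply, sub2_X, red_sub2])
  have hS1 : ∀ F, ev2 P w F ∈ S := fun F => (h1 F).1
  have hXw : ev2 P w X = w := by rw [ev2_apply, sub2_X]
  have hXP : ev2 P w (C X) = P := by rw [ev2_apply, sub2_C, aeval_X]
  let P' : S := ⟨ev2 P w (C X), hS1 _⟩
  have haeval : ∀ f : R[X], aeval P' f = ⟨ev2 P w (C f), hS1 _⟩ := by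
    intro f
    apply Subtype.ext
    rw [coe_aeval_S]
    show aeval (ev2 P w (C X)) f = ev2 P w (C f)
    rw [hXP, ev2_apply, sub2_C]
  have hθP : ∀ f : R[X], θ (aeval P' f) = C (f.map π) := by
    intro f
    rw [haeval]
    obtain ⟨h3, h4⟩ := h1 (C f)
    rw [h4, red_C]
  have hθP' : θ P' = C X := by
    obtain ⟨h3, h4⟩ := h1 (C X)
    rw [← map_X π, ← red_C]
    exact h4
  have hFam : Fam π θ P' (fun _ => 1) 1 := by
    refine ⟨?_, ⟨X, hθP'⟩, hst.scal, ?_, ?_⟩
    · intro j _
      exact ⟨1, by rw [map_one, C_1]⟩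
    · intro f
      obtain ⟨g, hg⟩ := map_surjective π hπ f
      refine ⟨fun _ => g, ?_⟩
      rw [Finset.sum_range_one, mul_one, hθP, hg]
    · intro a ha j hj
      obtain rfl : j = 0 := by omega
      rw [Finset.sum_range_one, mul_one, hθP] at ha
      exact C_eq_zero.1 ha
  have hdeg1 : ∀ j < 1, DegC D j (((1 : S) : S) : R[X][X]) := by
    intro j hj
    obtain rfl : j = 0 := by omega
    exact DegC.one D
  have hg' : ∀ b : R[X][X], ∃ r : R, r ≠ 0 ∧ r • b ∈ S := by
    intro b
    obtain ⟨r, F, hr, hF⟩ := hgen b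
    exact ⟨r, hr, by rw [hF, ← ev2_apply]; exact hS1 F⟩
  have hw2 : DegC D 1 (w' : R[X][X]) := by rw [hw', hXw]; exact hDw
  have hwn' : ∀ g : κ[X], red π (w' : R[X][X]) ≠ aeval (red π P) g := by
    intro g; rw [hw', hXw]; exact hwn g
  exact ⟨S, θ, w', P', red π P, fun _ => 1, 1, X, hst, hFam, one_pos, hXP, hθP', hw2, hdeg1, hg',
    base_int P w hgen S hS1 h2, hwn', natDegree_X⟩

end

end Pool.Agent.H78.Rk
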