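import Pool.Agent.H78.Rk.G

set_option autoImplicit false

open Polynomial Pool.Agent.H78.Tri

namespace Pool.Agent.H78.Rk

section degc
variable {R B : Type*} [CommRing R] [IsDomain R] [CharZero R] [CommRing B] [Algebra R B]

/-- `D^n x` is a nonzero constant. -/
def DegC (D : Derivation R B B) (n : ℕ) (x : B) : Prop := ∃ r : R, r ≠ 0 ∧ (⇑D)^[n] x = r • (1 : B)

omit [IsDomain R] [CharZero R] in
theorem iter_zero_of_le (D : Derivation R B B) {m n : ℕ} (h : m ≤ n) {x : B}
    (hx : (⇑D)^[m] x = 0) : (⇑D)^[n] x = 0 := by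
  obtain ⟨k, rfl⟩ := Nat.exists_eq_add_of_le h
  rw [add_comm, Function.iterate_add_apply, hx, iterate_map_zero]

omit [IsDomain R] [CharZero R] in
theorem DegC.succ {D : Derivation R B B} {n : ℕ} {x : B} (h : DegC D n x) :
    (⇑D)^[n + 1] x = 0 := by
  obtain ⟨r, -, hr⟩ := h
  rw [Function.iterate_succ_apply', hr, D.map_smul, D.map_one_eq_zero, smul_zero]

omit [IsDomain R] [CharZero R] in
theorem DegC.one [Nontrivial R] (D : Derivation R B B) : DegC D 0 (1 : B) :=
  ⟨1, one_ne_zero, by simp⟩

theorem DegC.mul {D : Derivation R B B} {m n : ℕ} {a b : B} (ha : DegC D m a)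
    (hb : DegC D n b) : DegC D (m + n) (a * b) := by
  have h1 := iter_mul D (m + n) m n a b rfl ha.succ hb.succ
  obtain ⟨r, hr, hr'⟩ := ha
  obtain ⟨s, hs, hs'⟩ := hb
  refine ⟨(m + n).choose m * (r * s), ?_, ?_⟩
  · apply mul_ne_zero _ (mul_ne_zero hr hs)
    exact_mod_cast (Nat.choose_pos (by omega)).ne'
  · rw [h1, hr', hs', Algebra.smul_def, Algebra.smul_def, Algebra.smul_def]
    simp

theorem DegC.pow {D : Derivation R B B} {m : ℕ} {a : B} (ha : DegC D m a) (k : ℕ) :
    DegC D (m * k) (a ^ k) := by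
  induction k with
  | zero => rw [mul_zero, pow_zero]; exact DegC.one D
  | succ k ih => rw [pow_succ, mul_add, mul_one]; exact ih.mul ha

omit [IsDomain R] [CharZero R] in
theorem iter_ker_mul (D : Derivation R B B) (j : ℕ) (c b : B) (hc : D c = 0) :
    (⇑D)^[j] (c * b) = c * (⇑D)^[j] b := by
  induction j generalizing b with
  | zero => rfl
  | succ j ih =>
    rw [Function.iterate_succ_apply, Function.iterate_succ_apply, D.leibniz, hc, smul_zero,
      add_zero, smul_eq_mul, ih]

omit [IsDomain R] [CharZero R] in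
theorem D_aeval (D : Derivation R B B) (P : B) (hP : D P = 0) (f : R[X]) : D (aeval P f) = 0 := by
  rw [Derivation.map_aeval, hP, smul_zero]

end degc

section comb
variable {R κ B H : Type*} [CommRing R] [Field κ] [CommRing B] [Algebra R B]

/-- combinations -/
noncomputable def comb {S : Type*} [CommRing S] [Algebra R S] (P w : S) (e : ℕ → S) (M : ℕ)
    (a : ℕ → R[X]) (d : ℕ) : S :=
  ∑ i ∈ Finset.range (M * d), aeval P (a i) * (e (i % M) * w ^ (i / M))

theorem comb_succ {S : Type*} [CommRing S] [Algebra R S] (P w : S) (e : ℕ → S) (M : ℕ)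
    (a : ℕ → R[X]) (d : ℕ) : comb P w e M a (d + 1) = comb P w e M a d +
      (∑ j ∈ Finset.range M, aeval P (a (M * d + j)) * e j) * w ^ d := by
  rw [comb, comb, mul_add, mul_one, Finset.sum_range_add, Finset.sum_mul]
  congr 1
  apply Finset.sum_congr rfl
  intro j hj
  have hj' := Finset.mem_range.1 hj
  have h1 : (M * d + j) % M = j := by rw [Nat.mul_add_mod]; exact Nat.mod_eq_of_lt hj'
  have h2 : (M * d + j) / M = d := by
    rw [Nat.mul_add_div (by omega), Nat.div_eq_of_lt hj', add_zero]
  rw [h1, h2]; ring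

theorem comb_congr {S : Type*} [CommRing S] [Algebra R S] (P w : S) (e : ℕ → S) (M : ℕ)
    (a b : ℕ → R[X]) (d : ℕ) (h : ∀ i < M * d, a i = b i) :
    comb P w e M a d = comb P w e M b d := by
  apply Finset.sum_congr rfl
  intro i hi
  rw [h i (Finset.mem_range.1 hi)]

/-- The family part of a stage. -/
structure Fam {S : Type*} [CommRing S] [Algebra R S] (π : R →+* κ) (θ : S →+* κ[X][X]) (P : S)
    (e : ℕ → S) (M : ℕ) : Prop where
  const : ∀ j < M, ∃ c : κ[X], θ (e j) = C c
  constP : ∃ c : κ[X], θ P = C c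
  scal : ∀ r : R, θ (algebraMap R S r) = C (C (π r))
  span : ∀ f : κ[X], ∃ a : ℕ → R[X], θ (∑ j ∈ Finset.range M, aeval P (a j) * e j) = C f
  indep : ∀ a : ℕ → R[X], θ (∑ j ∈ Finset.range M, aeval P (a j) * e j) = 0 →
    ∀ j < M, (a j).map π = 0

variable {S : Type*} [CommRing S] [Algebra R S] {π : R →+* κ} {θ : S →+* κ[X][X]} {P w : S}
    {e : ℕ → S} {M : ℕ}

theorem Fam.const' (hF : Fam π θ P e M) (a : ℕ → R[X]) :
    ∃ c : κ[X], θ (∑ j ∈ Finset.range M, aeval P (a j) * e j) = C c := by
  have hP : ∀ f : R[X], ∃ c : κ[X], θ (aeval P f) = C c := by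
    intro f
    obtain ⟨c, hc⟩ := hF.constP
    induction f using Polynomial.induction_on' with
    | add p q hp hq =>
      obtain ⟨x, hx⟩ := hp
      obtain ⟨y, hy⟩ := hq
      exact ⟨x + y, by rw [map_add, map_add, hx, hy, C_add]⟩
    | monomial n r =>
      exact ⟨C (π r) * c ^ n, by
        rw [aeval_monomial, map_mul, map_pow, hc, hF.scal, C_mul, C_pow]⟩
  choose c hc using hP
  choose! c' hc' using hF.const
  refine ⟨∑ j ∈ Finset.range M, c (a j) * c' j, ?_⟩
  rw [map_sum, map_sum]
  apply Finset.sum_congr rfl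
  intro j hj
  rw [map_mul, hc, hc' j (Finset.mem_range.1 hj), C_mul]

theorem Fam.deg_comb (hF : Fam π θ P e M) (hw : θ w = X) (a : ℕ → R[X]) (d : ℕ) :
    (θ (comb P w e M a d)).degree < d := by
  induction d with
  | zero => simp [comb]
  | succ d ih =>
    obtain ⟨c, hc⟩ := hF.const' (fun j => a (M * d + j))
    rw [comb_succ, map_add, map_mul, map_pow, hw, hc]
    apply lt_of_le_of_lt (degree_add_le _ _)
    rw [max_lt_iff]
    refine ⟨lt_trans ih (by exact_mod_cast Nat.lt_succ_self d), ?_⟩
    apply lt_of_le_of_lt (degree_C_mul_X_pow_le _ _)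
    exact_mod_cast Nat.lt_succ_self d

theorem Fam.indep_comb (hF : Fam π θ P e M) (hw : θ w = X) (a : ℕ → R[X]) (d : ℕ)
    (h : θ (comb P w e M a d) = 0) : ∀ i < M * d, (a i).map π = 0 := by
  induction d with
  | zero => intro i hi; omega
  | succ d ih =>
    obtain ⟨c, hc⟩ := hF.const' (fun j => a (M * d + j))
    have h0 := hF.deg_comb hw a d
    rw [comb_succ, map_add, map_mul, map_pow, hw, hc] at h
    have h1 := congrArg (fun t => t.coeff d) h
    simp only [coeff_add, coeff_zero] at h1
    rw [coeff_eq_zero_of_degree_lt h0, zero_add, coeff_C_mul_X_pow, if_pos rfl] at h1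
    rw [h1, C_0, zero_mul, add_zero] at h
    intro i hi
    rcases lt_or_ge i (M * d) with h2 | h2
    · exact ih h i h2
    · obtain ⟨j, rfl⟩ := Nat.exists_eq_add_of_le h2
      have h3 := hF.indep (fun j => a (M * d + j)) (by rw [hc, h1, C_0]) j (by
        rw [mul_add, mul_one] at hi; omega)
      exact h3

theorem Fam.span_comb (hF : Fam π θ P e M) (hw : θ w = X) (d : ℕ) :
    ∀ F : κ[X][X], F.degree < d → ∃ a : ℕ → R[X], θ (comb P w e M a d) = F := by
  induction d with
  | zero =>
    intro F hF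
    have : F = 0 := by
      rw [← degree_eq_bot]
      exact Nat.WithBot.lt_zero_iff.1 (by simpa using hF)
    exact ⟨fun _ => 0, by simp [comb, this]⟩
  | succ d ih =>
    intro F hFd
    obtain ⟨a, ha⟩ := ih (F - C (F.coeff d) * X ^ d) (by
      rw [degree_lt_iff_coeff_zero]
      intro m hm
      rw [coeff_sub, coeff_C_mul_X_pow]
      split_ifs with h
      · rw [h, sub_self]
      · rw [coeff_eq_zero_of_degree_lt (lt_of_lt_of_le hFd (by
          have : d + 1 ≤ m := by omega
          exact_mod_cast this)), sub_zero])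
    obtain ⟨b, hb⟩ := hF.span (F.coeff d)
    refine ⟨fun i => if i < M * d then a i else b (i - M * d), ?_⟩
    rw [comb_succ]
    have e1 : comb P w e M (fun i => if i < M * d then a i else b (i - M * d)) d =
        comb P w e M a d := comb_congr _ _ _ _ _ _ _ (by intro i hi; simp [hi])
    have e2 : (∑ j ∈ Finset.range M, aeval P ((fun i => if i < M * d then a i else
        b (i - M * d)) (M * d + j)) * e j) = ∑ j ∈ Finset.range M, aeval P (b j) * e j := by
      apply Finset.sum_congr rfl
      intro j _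
      simp
    rw [e1, e2, map_add, map_mul, map_pow, hw, ha, hb]
    ring

end comb

end Pool.Agent.H78.Rk
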