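import Pool.Agent.H78.Rk.O
import Pool.Agent.H78.Tri.T

set_option autoImplicit false

open Polynomial Pool.Agent.H78.Tri

namespace Pool.Agent.H78.Rk

section partials
variable (R : Type*) [CommRing R]

/-- `∂/∂Z` on `R[Y][Z]` -/
noncomputable def E1 : Derivation R R[X][X] R[X][X] :=
  Derivation.restrictScalars R (derivative' : Derivation R[X] R[X][X] R[X][X])

theorem E1_apply (b : R[X][X]) : E1 R b = derivative b := rfl

/-- `∂/∂Y` on `R[Y][Z]` -/
noncomputable def E2 : Derivation R R[X][X] R[X][X] :=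
  Derivation.mk'
    { toFun := fun b => Bivariate.swap (derivative (Bivariate.swap b))
      map_add' := by intro a b; simp only [map_add]
      map_smul' := by
        intro r b
        simp only [map_smul, RingHom.id_apply, smul_eq_CC, map_mul, Bivariate.swap_C_C]
        rw [derivative_C_mul, map_mul, Bivariate.swap_C_C] }
    (by
      intro a b
      show Bivariate.swap (derivative (Bivariate.swap (a * b))) = _
      rw [map_mul, derivative_mul, map_add, map_mul, map_mul, Bivariate.swap_swap_apply,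
        Bivariate.swap_swap_apply]
      show _ = a * Bivariate.swap (derivative (Bivariate.swap b)) +
        b * Bivariate.swap (derivative (Bivariate.swap a))
      ring)

theorem E2_apply (b : R[X][X]) :
    E2 R b = Bivariate.swap (derivative (Bivariate.swap b)) := rfl

theorem LN_E1 : LN ⇑(E1 R) := by
  intro s
  refine ⟨s.natDegree + 1, ?_⟩
  exact iterate_derivative_eq_zero (Nat.lt_succ_self _)

theorem LN_E2 : LN ⇑(E2 R) := by
  intro s
  refine ⟨(Bivariate.swap s).natDegree + 1, ?_⟩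
  have : ∀ n, (⇑(E2 R))^[n] s = Bivariate.swap (derivative^[n] (Bivariate.swap s)) := by
    intro n
    induction n with
    | zero => simp only [Function.iterate_zero_apply, Bivariate.swap_swap_apply]
    | succ n ih =>
      rw [Function.iterate_succ_apply', ih, E2_apply, Bivariate.swap_swap_apply,
        Function.iterate_succ_apply' derivative]
  rw [this, iterate_derivative_eq_zero (Nat.lt_succ_self _), map_zero]

theorem E1_V1 : E1 R (C X) = 0 := by rw [E1_apply, derivative_C]
theorem E1_V2 : E1 R X = 1 := by rw [E1_apply, derivative_X]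
theorem E2_V2 : E2 R X = 0 := by
  rw [E2_apply, Bivariate.swap_Y, derivative_C, map_zero]
theorem E2_V1 : E2 R (C X) = 1 := by
  rw [E2_apply, Bivariate.swap_X, derivative_X, map_one]

end partials

section line
variable {R κ : Type*} [CommRing R] [IsDomain R] [WfDvdMonoid R] [Field κ] [CharZero κ]

/-- reduction modulo `p` -/
noncomputable def red (π : R →+* κ) : R[X][X] →+* κ[X][X] := mapRingHom (mapRingHom π)

omit [IsDomain R] [WfDvdMonoid R] [CharZero κ] in
theorem red_alg (π : R →+* κ) (r : R) :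
    red π (algebraMap R R[X][X] r) = algebraMap κ κ[X][X] (π r) := by
  have h1 : algebraMap R R[X][X] r = C (C r) := rfl
  have h2 : algebraMap κ κ[X][X] (π r) = C (C (π r)) := rfl
  rw [h1, h2]
  simp [red]

omit [IsDomain R] [WfDvdMonoid R] in
theorem pow_dvd_smul_one (p x : R) (N : ℕ) (h : (algebraMap R R[X][X] p) ^ N ∣ x • (1 : R[X][X])) :
    p ^ N ∣ x := by
  have h1 : algebraMap R R[X][X] p = C (C p) := rfl
  rw [h1, ← C_pow, ← C_pow, smul_eq_CC, mul_one, C_dvd_iff_dvd_coeff] at h
  have h2 := h 0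
  rw [coeff_C_zero, C_dvd_iff_dvd_coeff] at h2
  have h3 := h2 0
  rwa [coeff_C_zero] at h3

theorem exists_line {π : R →+* κ} {p : R} (hpp : Prime p) (hp : ∀ r, π r = 0 ↔ p ∣ r)
    {S : Subalgebra R R[X][X]} {θ : S →+* κ[X][X]} {w : S} {τ : κ[X][X]}
    (h : Stage π p (red π) S θ w τ)
    (hgen : ∀ b : R[X][X], ∃ r : R, r ≠ 0 ∧ r • b ∈ S)
    (hint : ∀ E : Derivation R R[X][X] R[X][X], ∃ r : R, r ≠ 0 ∧ ∀ s ∈ S, r • E s ∈ S)
    (ψ : κ[X][X]) (hψ : Prime ψ) (hker : ∀ F : κ[X][X], sub2 τ (red π w) F = 0 ↔ ψ ∣ F)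
    (ρ : κ[X][X] →ₐ[κ] κ[X])
    (hρ : ∀ F : κ[X][X], ρ (sub2 τ (red π w) F) = 0 → sub2 τ (red π w) F = 0) :
    ∃ τ' : κ[X][X], (∃ F : κ[X][X], sub2 τ (red π w) F = τ') ∧
      ∀ F : κ[X][X], ∃ g : κ[X], sub2 τ (red π w) F = aeval τ' g := by
  have hp0 : algebraMap R R[X][X] p ≠ 0 := by
    have h1 : algebraMap R R[X][X] p = C (C p) := rfl
    rw [h1]; simpa using hpp.ne_zero
  have hπp : π p = 0 := (hp p).2 dvd_rfl
  have key : ∀ (E : Derivation R R[X][X] R[X][X]) (V V' : R[X][X]), LN ⇑E → E V = 0 → E V' = 1 →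
      (∃ (u : S) (r : R), (u : R[X][X]) = r • V ∧ θ u ≠ 0 ∧ red π u = 0) →
      ∃ τ' : κ[X][X], (∃ F : κ[X][X], sub2 τ (red π w) F = τ') ∧
      ∀ F : κ[X][X], ∃ g : κ[X], sub2 τ (red π w) F = aeval τ' g := by
    intro E V V' hE hV hV' ⟨u, r1, hu, hu1, hu2⟩
    obtain ⟨r, hr0, hr⟩ := hint E
    obtain ⟨r0, hr00, hr0'⟩ := hgen V'
    obtain ⟨N, hN⟩ := FiniteMultiplicity.of_prime_left hpp (mul_ne_zero hr0 hr00)
    obtain ⟨δ, hδ, hne, hδu⟩ := stage_lnd h hπp hp0 E hE r hr u
      (by rw [hu, E.map_smul, hV, smul_zero]) ⟨_, hr0'⟩ (N + 1) (by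
        intro hdvd
        apply hN
        apply pow_dvd_smul_one
        have : r • E (r0 • V') = (r * r0) • (1 : R[X][X]) := by
          rw [E.map_smul, hV', smul_smul]
        rw [← this]; exact hdvd)
    have h3 : sub2 τ (red π w) (θ u) = 0 := by rw [← h.red_eq, hu2]
    exact curve_line τ (red π w) ψ hψ hker δ hδ hne (θ u) hu1 hδu ((hker _).1 h3) ρ hρ
  obtain ⟨ra, hra, hra'⟩ := hgen X
  obtain ⟨rb, hrb, hrb'⟩ := hgen (C X)
  obtain ⟨Na, hNa⟩ := FiniteMultiplicity.of_prime_left hpp hra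
  obtain ⟨Nb, hNb⟩ := FiniteMultiplicity.of_prime_left hpp hrb
  rcases dichotomy h hp hp0 (red_alg π) X (Na + 1) ra hNa hra' with h1 | h1
  · rcases dichotomy h hp hp0 (red_alg π) (C X) (Nb + 1) rb hNb hrb' with h2 | h2
    · exfalso
      obtain ⟨Fa, hFa⟩ := h1
      obtain ⟨Fb, hFb⟩ := h2
      have e1 : red π X = X := by simp [red]
      have e2 : red π (C X) = C X := by simp [red]
      rw [e1] at hFa
      rw [e2] at hFb
      have hsurj : Function.Surjective (sub2 (R := κ) τ (red π w)) := by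
        intro G
        induction G using Polynomial.induction_on' with
        | add p q hp hq =>
          obtain ⟨a, rfl⟩ := hp
          obtain ⟨b, rfl⟩ := hq
          exact ⟨a + b, map_add _ _ _⟩
        | monomial n f =>
          have hC : ∃ a : κ[X][X], sub2 τ (red π w) a = C f := by
            induction f using Polynomial.induction_on' with
            | add p q hp hq =>
              obtain ⟨a, ha⟩ := hp
              obtain ⟨b, hb⟩ := hq
              exact ⟨a + b, by rw [map_add, ha, hb, C_add]⟩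
            | monomial m r =>
              refine ⟨C (C r) * Fb ^ m, ?_⟩
              rw [map_mul, map_pow, hFb, sub2_CC, ← C_mul_X_pow_eq_monomial, C_mul, C_pow]
              rfl
          obtain ⟨a, ha⟩ := hC
          exact ⟨a * Fa ^ n, by rw [map_mul, map_pow, ha, hFa, C_mul_X_pow_eq_monomial]⟩
      have hinj := hopf (sub2 (R := κ) τ (red π w)) hsurj
      have h3 : sub2 τ (red π w) ψ = 0 := (hker ψ).2 dvd_rfl
      exact hψ.ne_zero (hinj (by rw [h3, map_zero]))
    · exact key (E1 R) (C X) X (LN_E1 R) (E1_V1 R) (E1_V2 R) h2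
  · exact key (E2 R) X (C X) (LN_E2 R) (E2_V2 R) (E2_V1 R) h1

end line

end Pool.Agent.H78.Rk
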