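import Pool.Agent.H78.Rk.Loc

set_option autoImplicit false

open Polynomial Pool.Agent.H78.Tri

namespace Pool.Agent.H78.Rk

universe u

section
variable {R : Type u} [CommRing R] [IsDomain R] [IsPrincipalIdealRing R] [Algebra ℚ R]

theorem at_prime (p : R) (hp : Prime p) : ∃ (κ : Type u) (_ : Field κ) (_ : CharZero κ)
    (π : R →+* κ), Function.Surjective π ∧ ∀ r, π r = 0 ↔ p ∣ r := by
  have hmax : (Ideal.span {p}).IsMaximal :=
    PrincipalIdealRing.isMaximal_of_irreducible hp.irreducible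
  let _ : Field (R ⧸ Ideal.span {p}) := Ideal.Quotient.field _
  have : CharZero (R ⧸ Ideal.span {p}) := algebraRat.charZero _
  refine ⟨R ⧸ Ideal.span {p}, inferInstance, this, Ideal.Quotient.mk _,
    Ideal.Quotient.mk_surjective, ?_⟩
  intro r
  rw [Ideal.Quotient.eq_zero_iff_mem, Ideal.mem_span_singleton]

theorem principal_glob {D : Derivation R R[X][X] R[X][X]} {P Q : R[X][X]} (hDP : D P = 0)
    (hNC : ∀ p : R, Prime p → NC p P) (hQ : DegC D 1 Q) (hgen : Gen P Q) (n : ℕ) :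
    Principal (⇑D) n := by
  have hchar : CharZero R := algebraRat.charZero R
  obtain ⟨ρ, hρ⟩ := (IsPrincipalIdealRing.principal (constIdeal D n)).principal
  have hmem : ∀ r, r ∈ constIdeal D n ↔ ρ ∣ r := by
    intro r; rw [hρ]; exact Ideal.mem_span_singleton
  have hρ0 : ρ ≠ 0 := by
    rintro rfl
    have h1 := hQ.pow n
    rw [one_mul] at h1
    obtain ⟨r, hr, hr'⟩ := h1
    have h2 : r ∈ constIdeal D n := ⟨Q ^ n, by
      rw [Function.iterate_succ_apply', hr', D.map_smul, D.map_one_eq_zero, smul_zero], hr'⟩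
    rw [hmem, zero_dvd_iff] at h2
    exact hr h2
  have key : ∀ b : R[X][X], (⇑D)^[n + 1] b = 0 → ∃ c : R[X][X], (⇑D)^[n] b = ρ • c := by
    intro b hb
    apply B_dvd_of_pp ρ _ hρ0
    intro p e hp hpe
    obtain ⟨κ, hκ, hκ0, π, hπ, hπp⟩ := at_prime p hp
    obtain ⟨r, hr, hr1, hr2⟩ := local_thm hπ hp hπp hDP (hNC p hp) hQ hgen n
    exact hr2 b hb e (hpe.trans ((hmem r).1 hr1))
  obtain ⟨b0, hb0, hb0'⟩ := (hmem ρ).2 dvd_rfl
  refine ⟨ρ • 1, by rw [D.map_smul, D.map_one_eq_zero, smul_zero], ?_⟩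
  intro g
  constructor
  · rintro ⟨b, hb, rfl⟩
    obtain ⟨c, hc⟩ := key b hb
    refine ⟨c, ?_, by rw [hc, smul_mul_assoc, one_mul]⟩
    apply smul_eq_zero_B hρ0
    rw [← D.map_smul, ← hc, ← Function.iterate_succ_apply' (⇑D), hb]
  · rintro ⟨c, hc, rfl⟩
    refine ⟨c * b0, ?_, ?_⟩
    · rw [D_iter_mul D _ c b0 hc, hb0, mul_zero]
    · rw [D_iter_mul D _ c b0 hc, hb0', mul_comm]

omit [Algebra ℚ R] in
theorem exists_NC (P : R[X][X]) (hP : ∀ c, P ≠ C (C c)) :
    ∃ (c δ : R) (P1 : R[X][X]), δ ≠ 0 ∧ P = C (C c) + C (C δ) * P1 ∧ ∀ p : R, Prime p → NC p P1 := by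
  obtain ⟨i, j, hij, hx⟩ : ∃ i j, (i ≠ 0 ∨ j ≠ 0) ∧ (P.coeff i).coeff j ≠ 0 := by
    by_contra hcon
    push Not at hcon
    apply hP ((P.coeff 0).coeff 0)
    ext i j
    rcases eq_or_ne i 0 with rfl | hi
    · rw [coeff_C_zero]
      rcases eq_or_ne j 0 with rfl | hj
      · rw [coeff_C_zero]
      · rw [hcon 0 j (Or.inr hj), coeff_C_of_ne_zero hj]
    · rw [hcon i j (Or.inl hi), coeff_C_of_ne_zero hi, coeff_zero]
  have hwf : WellFounded (DvdNotUnit (α := R)) := wellFounded_dvdNotUnit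
  have key : ∀ x : R, x ≠ 0 → ∀ P : R[X][X], (P.coeff i).coeff j = x →
      ∃ (c δ : R) (P1 : R[X][X]), δ ≠ 0 ∧ P = C (C c) + C (C δ) * P1 ∧
        ∀ p : R, Prime p → NC p P1 := by
    intro x
    refine hwf.induction (C := fun x => x ≠ 0 → ∀ P : R[X][X], (P.coeff i).coeff j = x →
      ∃ (c δ : R) (P1 : R[X][X]), δ ≠ 0 ∧ P = C (C c) + C (C δ) * P1 ∧
        ∀ p : R, Prime p → NC p P1) x ?_
    intro x ih hx P hPx
    by_cases hgood : ∀ p : R, Prime p → NC p P
    · exact ⟨0, 1, P, one_ne_zero, by simp, hgood⟩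
    · simp only [NC] at hgood
      push Not at hgood
      obtain ⟨p, hp, c, b, hb⟩ := hgood
      have h1 : x = p * (b.coeff i).coeff j := by
        rw [← hPx, hb, coeff_add, coeff_add, coeff_C_mul, coeff_C_mul]
        rcases hij with hi | hj
        · rw [coeff_C_of_ne_zero hi, coeff_zero, zero_add]
        · rcases eq_or_ne i 0 with rfl | hi
          · rw [coeff_C_zero, coeff_C_of_ne_zero hj, zero_add]
          · rw [coeff_C_of_ne_zero hi, coeff_zero, zero_add]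
      have hx0 : (b.coeff i).coeff j ≠ 0 := fun h0 => hx (by rw [h1, h0, mul_zero])
      obtain ⟨c', δ, P1, hδ, hP1, hP2⟩ := ih _ ⟨hx0, p, hp.not_isUnit, by rw [h1, mul_comm]⟩ hx0 b rfl
      refine ⟨c + p * c', p * δ, P1, mul_ne_zero hp.ne_zero hδ, ?_, hP2⟩
      rw [hb, hP1]
      simp only [C_add, C_mul]
      ring
  exact key _ hx P rfl

omit [Algebra ℚ R] in
theorem exists_prim (φ : R[X]) (hφ : φ ≠ 0) :
    ∃ (s : R) (φ2 : R[X]), s ≠ 0 ∧ φ = C s * φ2 ∧ ∀ p : R, Prime p → ¬ C p ∣ φ2 := by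
  obtain ⟨i, hx⟩ : ∃ i, φ.coeff i ≠ 0 := by
    by_contra hcon
    push Not at hcon
    exact hφ (by ext i; rw [hcon i, coeff_zero])
  have hwf : WellFounded (DvdNotUnit (α := R)) := wellFounded_dvdNotUnit
  have key : ∀ x : R, x ≠ 0 → ∀ φ : R[X], φ.coeff i = x →
      ∃ (s : R) (φ2 : R[X]), s ≠ 0 ∧ φ = C s * φ2 ∧ ∀ p : R, Prime p → ¬ C p ∣ φ2 := by
    intro x
    refine hwf.induction (C := fun x => x ≠ 0 → ∀ φ : R[X], φ.coeff i = x →
      ∃ (s : R) (φ2 : R[X]), s ≠ 0 ∧ φ = C s * φ2 ∧ ∀ p : R, Prime p → ¬ C p ∣ φ2) x ?_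
    intro x ih hx φ hφx
    by_cases hgood : ∀ p : R, Prime p → ¬ C p ∣ φ
    · exact ⟨1, φ, one_ne_zero, by simp, hgood⟩
    · push Not at hgood
      obtain ⟨p, hp, b, hb⟩ := hgood
      have h1 : x = p * b.coeff i := by rw [← hφx, hb, coeff_C_mul]
      have hx0 : b.coeff i ≠ 0 := fun h0 => hx (by rw [h1, h0, mul_zero])
      obtain ⟨s, φ2, hs, hφ1, hφ2⟩ := ih _ ⟨hx0, p, hp.not_isUnit, by rw [h1, mul_comm]⟩ hx0 b rfl
      exact ⟨p * s, φ2, mul_ne_zero hp.ne_zero hs, by rw [hb, hφ1, C_mul, mul_assoc], hφ2⟩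
  exact key _ hx φ rfl

omit [IsPrincipalIdealRing R] [Algebra ℚ R] in
theorem Gen.nonconst {P Q : R[X][X]} (h : Gen P Q) (c : R) : P ≠ C (C c) := by
  intro hc
  have hE : ∀ E : Derivation R R[X][X] R[X][X], E P = 0 := by
    intro E; rw [hc]; exact D_CC E c
  obtain ⟨r1, F1, hr1, hF1⟩ := h (C X)
  obtain ⟨r2, F2, hr2, hF2⟩ := h X
  have h1 : r1 • E2 R (C X) = sub2 P Q (derivative F1) * E2 R Q := by
    rw [← (E2 R).map_smul, hF1, D_sub2' _ _ _ (hE _)]
  have h2 : r1 • E1 R (C X) = sub2 P Q (derivative F1) * E1 R Q := by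
    rw [← (E1 R).map_smul, hF1, D_sub2' _ _ _ (hE _)]
  have h3 : r2 • E1 R X = sub2 P Q (derivative F2) * E1 R Q := by
    rw [← (E1 R).map_smul, hF2, D_sub2' _ _ _ (hE _)]
  rw [E2_V1] at h1
  rw [E1_V1, smul_zero] at h2
  rw [E1_V2] at h3
  have h4 : sub2 P Q (derivative F1) ≠ 0 := by
    intro h0
    rw [h0, zero_mul] at h1
    exact one_ne_zero (smul_eq_zero_B hr1 h1)
  have h5 : E1 R Q = 0 := (mul_eq_zero.1 h2.symm).resolve_left h4
  rw [h5, mul_zero] at h3
  exact one_ne_zero (smul_eq_zero_B hr2 h3)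

omit [IsPrincipalIdealRing R] [Algebra ℚ R] in
theorem exists_div_der' (D : Derivation R R[X][X] R[X][X]) (a : R[X][X]) (ha : a ≠ 0)
    (h : ∀ b, a ∣ D b) : ∃ D' : Derivation R R[X][X] R[X][X], ∀ b, D b = a * D' b := by
  choose F hF using h
  refine ⟨Derivation.mk' { toFun := F, map_add' := ?_, map_smul' := ?_ } ?_, hF⟩
  · intro x y
    apply mul_left_cancel₀ ha
    rw [mul_add, ← hF, ← hF, ← hF, map_add]
  · intro r b
    apply mul_left_cancel₀ ha
    rw [← hF, D.map_smul, hF b, RingHom.id_apply, mul_smul_comm]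
  · intro x y
    apply mul_left_cancel₀ ha
    show a * F (x * y) = a * (x • F y + y • F x)
    rw [← hF, D.leibniz, hF x, hF y]
    simp only [smul_eq_mul]; ring

omit [IsPrincipalIdealRing R] [Algebra ℚ R] in
theorem principal_scale' (D D' : Derivation R R[X][X] R[X][X]) (a : R[X][X]) (ha : a ≠ 0)
    (h : ∀ b, D b = a * D' b) (hDa : D' a = 0) (n : ℕ) (hD' : Principal (⇑D') n) :
    Principal (⇑D) n := by
  have hit : ∀ m b, (⇑D)^[m] b = a ^ m * (⇑D')^[m] b := by
    intro m b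
    induction m generalizing b with
    | zero => simp
    | succ m ih =>
      rw [Function.iterate_succ_apply', ih, h, D'.leibniz, Derivation.leibniz_pow, hDa,
        ← Function.iterate_succ_apply' (⇑D')]
      simp only [smul_eq_mul, smul_zero, mul_zero, add_zero, pow_succ]
      ring
  obtain ⟨c0, hc0, hg⟩ := hD'
  have hk : ∀ b, D b = 0 ↔ D' b = 0 := by
    intro b
    rw [h, mul_eq_zero]
    exact ⟨fun h => h.resolve_left ha, Or.inr⟩
  have hk' : ∀ m b, (⇑D)^[m] b = 0 ↔ (⇑D')^[m] b = 0 := by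
    intro m b
    rw [hit, mul_eq_zero]
    exact ⟨fun h => h.resolve_left (pow_ne_zero _ ha), Or.inr⟩
  refine ⟨a ^ n * c0, ?_, ?_⟩
  · rw [hk, D'.leibniz, hc0, Derivation.leibniz_pow, hDa]; simp
  intro g
  constructor
  · rintro ⟨b, hb, rfl⟩
    obtain ⟨c, hc, hc'⟩ := (hg _).1 ⟨b, (hk' _ b).1 hb, rfl⟩
    exact ⟨c, (hk c).2 hc, by rw [hit, hc', mul_assoc]⟩
  · rintro ⟨c, hc, rfl⟩
    obtain ⟨b, hb, hb'⟩ := (hg _).2 ⟨c, (hk c).1 hc, rfl⟩
    exact ⟨b, (hk' _ b).2 hb, by rw [hit, hb', mul_assoc]⟩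

/-- The general case over a PID containing the rationals. -/
theorem principal_gen (D : Derivation R R[X][X] R[X][X]) (P Q : R[X][X]) (φ : R[X])
    (hDP : D P = 0) (hφ : φ ≠ 0) (hDQ : D Q = aeval P φ) (hgen : Gen P Q) (n : ℕ) :
    Principal (⇑D) n := by
  have hchar : CharZero R := algebraRat.charZero R
  obtain ⟨c, δ, P1, hδ, hP1, hNC⟩ := exists_NC P hgen.nonconst
  have hDP1 : D P1 = 0 := by
    have := hDP
    rw [hP1, map_add, D_CC, zero_add, ← smul_eq_CC, D.map_smul] at this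
    exact smul_eq_zero_B hδ this
  have hPe : P = aeval P1 (C c + C δ * X) := by
    rw [map_add, map_mul, aeval_C, aeval_C, aeval_X, hP1]; rfl
  have hgen1 : Gen P1 Q := hgen.mono ⟨C (C c + C δ * X), by rw [sub2_C, ← hPe]⟩
    ⟨X, by rw [sub2_X]⟩
  set φ1 := φ.comp (C c + C δ * X) with hφ1
  have hφ10 : φ1 ≠ 0 := by
    intro h0
    rcases comp_eq_zero_iff.1 h0 with h1 | ⟨-, h1⟩
    · exact hφ h1
    · have h2 := congrArg (fun t => t.coeff 1) h1
      simp only [coeff_add, coeff_C_succ, coeff_C_mul, coeff_X_one, mul_one, zero_add, coeff_C_zero] at h2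
      exact hδ h2
  have hDQ1 : D Q = aeval P1 φ1 := by
    rw [hDQ, hφ1, Polynomial.aeval_comp, ← hPe]
  obtain ⟨s, φ2, hs, hφ2, hφ2'⟩ := exists_prim φ1 hφ10
  set a := aeval P1 φ2 with ha
  have hap : ∀ p : R, Prime p → ¬ C (C p) ∣ a := by
    intro p hp ⟨y, hy⟩
    obtain ⟨κ, hκ, hκ0, π, hπ, hπp⟩ := at_prime p hp
    have hnc : ∀ c : κ, red π P1 ≠ C (C c) := by
      intro c hc
      obtain ⟨c1, rfl⟩ := hπ c
      have h1 : red π (P1 - C (C c1)) = 0 := by rw [map_sub, hc, red_C, map_C, sub_self]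
      obtain ⟨b, hb⟩ := red_zero hπp _ h1
      apply hNC p hp c1 b
      rw [sub_eq_iff_eq_add] at hb
      rw [hb, add_comm]; rfl
    obtain ⟨ρ, hρ⟩ := exists_rho (red π P1) hnc
    have h1 : aeval (red π P1) (φ2.map π) = 0 := by
      rw [← red_aeval, ← ha, hy, map_mul, red_C, map_C, (hπp p).2 dvd_rfl, C_0, C_0, zero_mul]
    have h2 := transc_of_rho ρ _ hρ _ h1
    obtain ⟨t, ht⟩ := dvd_of_map_zero π p hπp _ h2
    exact hφ2' p hp ⟨t, ht⟩
  have ha0 : a ≠ 0 := by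
    intro h0
    have h1 : D Q = 0 := by rw [hDQ1, hφ2, map_mul, ← ha, h0, mul_zero]
    -- then everything is killed
    have h2 : ∀ b, D b = 0 := by
      intro b
      obtain ⟨r, F, hr, hF⟩ := hgen1 b
      apply smul_eq_zero_B hr
      rw [← D.map_smul, hF, D_sub2' D P1 Q hDP1, h1, mul_zero]
    -- use transcendence of P1
    by_cases hfield : ∃ p : R, Prime p
    · obtain ⟨p, hp⟩ := hfield
      exact hap p hp (by rw [h0]; exact dvd_zero _)
    · -- `R` is a field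
      push Not at hfield
      have hnc : ∀ c : R, P1 ≠ C (C c) := hgen1.nonconst
      have hR : IsField R := by
        by_contra hnf
        obtain ⟨M, hM⟩ := Ideal.exists_maximal R
        have hMb : M ≠ ⊥ := Ring.ne_bot_of_isMaximal_of_not_isField hM hnf
        obtain ⟨p, hp⟩ := (IsPrincipalIdealRing.principal M).principal
        have hp' : Prime p := by
          have hprime := hM.isPrime
          have hp0 : p ≠ 0 := by
            rintro rfl
            apply hMb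
            rw [hp]
            exact Ideal.span_singleton_eq_bot.2 rfl
          have hp2 : M = Ideal.span {p} := hp
          rw [hp2] at hprime
          exact (Ideal.span_singleton_prime hp0).1 hprime
        exact hfield p hp'
      let _ : Field R := hR.toField
      obtain ⟨ρ, hρ⟩ := exists_rho P1 hnc
      have h3 := transc_of_rho ρ _ hρ φ2 (by rw [← h0])
      rw [hφ2, h3, mul_zero] at hφ10
      exact hφ10 rfl
  have hdiv : ∀ r : R, r ≠ 0 → ∀ z : R[X][X], a ∣ C (C r) * z → a ∣ z := by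
    intro r
    induction r using UniqueFactorizationMonoid.induction_on_prime with
    | h₁ => intro h; exact absurd rfl h
    | h₂ x hx =>
      intro _ z hz
      have : IsUnit (C (C x) : R[X][X]) := (hx.map C).map C
      exact (this.dvd_mul_left).1 hz
    | h₃ x p hx hp ih =>
      intro _ z hz
      apply ih hx
      obtain ⟨y, hy⟩ := hz
      have hpB : Prime (C (C p) : R[X][X]) := prime_C_iff.2 (prime_C_iff.2 hp)
      have h1 : C (C p) ∣ a * y := ⟨C (C x) * z, by rw [← hy, C_mul, C_mul]; ring⟩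
      obtain ⟨y', rfl⟩ := (hpB.dvd_or_dvd h1).resolve_left (hap p hp)
      refine ⟨y', ?_⟩
      apply mul_left_cancel₀ hpB.ne_zero
      rw [C_mul, C_mul] at hy
      linear_combination hy
  have hall : ∀ b, a ∣ D b := by
    intro b
    obtain ⟨r, F, hr, hF⟩ := hgen1 b
    apply hdiv r hr
    rw [← smul_eq_CC, ← D.map_smul, hF, D_sub2' D P1 Q hDP1, hDQ1, hφ2, map_mul, ← ha]
    exact ⟨sub2 P1 Q (derivative F) * aeval P1 (C s), by ring⟩
  obtain ⟨D', hD'⟩ := exists_div_der' D a ha0 hall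
  have hD'P1 : D' P1 = 0 := by
    have := hD' P1
    rw [hDP1] at this
    exact (mul_eq_zero.1 this.symm).resolve_left ha0
  have hD'a : D' a = 0 := by rw [ha]; exact D_aeval D' P1 hD'P1 _
  have hD'Q : DegC D' 1 Q := by
    refine ⟨s, hs, ?_⟩
    apply mul_left_cancel₀ ha0
    show a * D' Q = _
    rw [← hD', hDQ1, hφ2, map_mul, aeval_C, ← ha, Algebra.smul_def]
    ring
  exact principal_scale' D D' a ha0 hD' hD'a n (principal_glob hD'P1 hNC hD'Q hgen1 n)

end

end Pool.Agent.H78.Rk
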