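import Mathlib

set_option autoImplicit false

open Polynomial

namespace Pool.Agent.H78.Rk

section leib
variable {k S : Type*} [CommRing k] [CommRing S] [Algebra k S]

/-- Top-degree Leibniz rule for iterates. -/
theorem iter_mul (D : Derivation k S S) (N : ℕ) : ∀ (m n : ℕ) (a b : S), m + n = N →
    (⇑D)^[m + 1] a = 0 → (⇑D)^[n + 1] b = 0 →
    (⇑D)^[N] (a * b) = ((N.choose m : ℕ) : S) * ((⇑D)^[m] a * (⇑D)^[n] b) := by
  induction N with
  | zero =>
    intro m n a b h ha hb
    obtain ⟨rfl, rfl⟩ : m = 0 ∧ n = 0 := by omega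
    simp
  | succ N ih =>
    intro m n a b h ha hb
    rw [Function.iterate_succ_apply, D.leibniz, iterate_map_add, smul_eq_mul, smul_eq_mul]
    have hz : ∀ j, (⇑D)^[j] (0 : S) = 0 := fun j => iterate_map_zero D j
    rcases m with _ | m
    · have h0 : D a = 0 := by simpa using ha
      obtain ⟨n', rfl⟩ : ∃ n', n = n' + 1 := ⟨n - 1, by omega⟩
      rw [h0, mul_zero, hz, add_zero]
      rw [ih 0 n' a (D b) (by omega) ha (by rw [← Function.iterate_succ_apply]; exact hb)]
      simp [Function.iterate_succ_apply]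
    · rcases n with _ | n
      · have h0 : D b = 0 := by simpa using hb
        rw [h0, mul_zero, hz, zero_add, mul_comm b]
        rw [ih m 0 (D a) b (by omega) (by rw [← Function.iterate_succ_apply]; exact ha) hb]
        have e1 : N.choose m = 1 := by
          have : m = N := by omega
          subst this; exact Nat.choose_self _
        have e2 : (N + 1).choose (m + 1) = 1 := by
          have : m = N := by omega
          subst this; exact Nat.choose_self _
        rw [e1, e2]
        simp [Function.iterate_succ_apply]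
      · rw [ih (m + 1) n a (D b) (by omega) ha (by rw [← Function.iterate_succ_apply]; exact hb),
          mul_comm b, ih m (n + 1) (D a) b (by omega)
          (by rw [← Function.iterate_succ_apply]; exact ha) hb]
        rw [← Function.iterate_succ_apply, ← Function.iterate_succ_apply, Nat.choose_succ_succ]
        push_cast
        ring

end leib

section lnd
variable {k S : Type*} [CommRing k] [CommRing S] [Algebra k S] [IsDomain S] [CharZero S]

/-- local nilpotence -/
def LN {S : Type*} [Zero S] (D : S → S) : Prop := ∀ s, ∃ n, D^[n] s = 0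

omit [IsDomain S] [CharZero S] in
theorem exists_top (D : Derivation k S S) (hD : LN ⇑D) (a : S) (ha : a ≠ 0) :
    ∃ m, (⇑D)^[m] a ≠ 0 ∧ (⇑D)^[m + 1] a = 0 := by
  classical
  have h := hD a
  have h1 := Nat.find_spec h
  rcases hm : Nat.find h with _ | m
  · rw [hm] at h1; exact absurd h1 ha
  · exact ⟨m, Nat.find_min h (by omega), by rw [hm] at h1; exact h1⟩

/-- The kernel of a locally nilpotent derivation is factorially closed. -/
theorem fact_closed (D : Derivation k S S) (hD : LN ⇑D) (a b : S) (hab : a * b ≠ 0)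
    (h : D (a * b) = 0) : D a = 0 := by
  have ha : a ≠ 0 := left_ne_zero_of_mul hab
  have hb : b ≠ 0 := right_ne_zero_of_mul hab
  obtain ⟨m, hm, hm'⟩ := exists_top D hD a ha
  obtain ⟨n, hn, hn'⟩ := exists_top D hD b hb
  have h1 := iter_mul D (m + n) m n a b rfl hm' hn'
  rcases m with _ | m
  · simpa using hm'
  · exfalso
    have h2 : (⇑D)^[m + 1 + n] (a * b) = 0 := by
      have : m + 1 + n = (m + n) + 1 := by ring
      rw [this, Function.iterate_succ_apply, h, iterate_map_zero]
    rw [h2] at h1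
    have h3 : (((m + 1 + n).choose (m + 1) : ℕ) : S) ≠ 0 := by
      exact_mod_cast (Nat.choose_pos (by omega)).ne'
    exact (mul_ne_zero h3 (mul_ne_zero hm hn)) h1.symm

theorem dvd_closed (D : Derivation k S S) (hD : LN ⇑D) (a f : S) (hf : f ≠ 0) (haf : a ∣ f)
    (h : D f = 0) : D a = 0 := by
  obtain ⟨b, rfl⟩ := haf
  exact fact_closed D hD a b hf h

theorem exists_slice (D : Derivation k S S) (hD : LN ⇑D) (hne : ∃ s, D s ≠ 0) :
    ∃ s, D s ≠ 0 ∧ D (D s) = 0 := by
  obtain ⟨s, hs⟩ := hne
  obtain ⟨m, hm, hm'⟩ := exists_top D hD (D s) hs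
  refine ⟨(⇑D)^[m] s, ?_, ?_⟩
  · rw [← Function.iterate_succ_apply' (⇑D), Function.iterate_succ_apply]; exact hm
  · rw [← Function.iterate_succ_apply' (⇑D), ← Function.iterate_succ_apply' (⇑D),
      Function.iterate_succ_apply]
    exact hm'

end lnd

section induced

theorem exists_induced {S G : Type*} [CommRing S] [CommRing G] (θ : S →+* G)
    (hθ : Function.Surjective θ) (δ : Derivation ℤ S S) (h : ∀ s, θ s = 0 → θ (δ s) = 0) :
    ∃ δ' : Derivation ℤ G G, ∀ s, δ' (θ s) = θ (δ s) := by
  classical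
  have hwd : ∀ s t, θ s = θ t → θ (δ s) = θ (δ t) := by
    intro s t hst
    have : θ (s - t) = 0 := by rw [map_sub, hst, sub_self]
    have := h _ this
    rwa [map_sub, map_sub, sub_eq_zero] at this
  choose g hg using hθ
  refine ⟨Derivation.mk' (AddMonoidHom.toIntLinearMap
    { toFun := fun x => θ (δ (g x)), map_zero' := ?_, map_add' := ?_ }) ?_, ?_⟩
  · rw [hwd _ 0 (by rw [hg, map_zero]), map_zero, map_zero]
  · intro x y
    rw [hwd _ (g x + g y) (by rw [hg, map_add, hg, hg]), map_add, map_add]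
  · intro x y
    show θ (δ (g (x * y))) = x • θ (δ (g y)) + y • θ (δ (g x))
    rw [hwd _ (g x * g y) (by rw [hg, map_mul, hg, hg]), δ.leibniz, map_add, smul_eq_mul,
      smul_eq_mul, map_mul, map_mul, hg, hg, smul_eq_mul, smul_eq_mul]
  · intro s
    exact hwd _ _ (hg _)

theorem exists_div {S : Type*} [CommRing S] [IsDomain S] (δ : Derivation ℤ S S) (a : S)
    (ha : a ≠ 0) (h : ∀ s, a ∣ δ s) : ∃ δ' : Derivation ℤ S S, ∀ s, δ s = a * δ' s := by
  choose F hF using h
  refine ⟨Derivation.mk' (AddMonoidHom.toIntLinearMap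
    { toFun := F, map_zero' := ?_, map_add' := ?_ }) ?_, ?_⟩
  · apply mul_left_cancel₀ ha
    rw [← hF, map_zero, mul_zero]
  · intro x y
    apply mul_left_cancel₀ ha
    rw [mul_add, ← hF, ← hF, ← hF, map_add]
  · intro x y
    show F (x * y) = x • F y + y • F x
    apply mul_left_cancel₀ ha
    rw [← hF, δ.leibniz, smul_eq_mul, smul_eq_mul, smul_eq_mul, smul_eq_mul, hF x, hF y]
    ring
  · exact hF

theorem exists_div_max {S : Type*} [CommRing S] [IsDomain S] (a : S) (ha : a ≠ 0) (s0 : S)
    (N : ℕ) : ∀ δ : Derivation ℤ S S, ¬ a ^ N ∣ δ s0 →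
    ∃ (δ' : Derivation ℤ S S) (j : ℕ), (∀ s, δ s = a ^ j * δ' s) ∧ ∃ s, ¬ a ∣ δ' s := by
  induction N with
  | zero => intro δ h; exact absurd (by rw [pow_zero]; exact one_dvd _) h
  | succ N ih =>
    intro δ h
    by_cases h1 : ∃ s, ¬ a ∣ δ s
    · exact ⟨δ, 0, fun s => by rw [pow_zero, one_mul], h1⟩
    · push Not at h1
      obtain ⟨δ1, hδ1⟩ := exists_div δ a ha h1
      obtain ⟨δ', j, h2, h3⟩ := ih δ1 (by
        intro h2
        apply h
        rw [hδ1, pow_succ']
        exact mul_dvd_mul_left a h2)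
      exact ⟨δ', j + 1, fun s => by rw [hδ1, h2, pow_succ']; ring, h3⟩

theorem LN_div {S : Type*} [CommRing S] [IsDomain S] (δ δ' : Derivation ℤ S S) (a : S)
    (ha : a ≠ 0) (haD : δ' a = 0) (h : ∀ s, δ s = a * δ' s) (hδ : LN ⇑δ) : LN ⇑δ' := by
  have hit : ∀ n s, (⇑δ)^[n] s = a ^ n * (⇑δ')^[n] s := by
    intro n s
    induction n generalizing s with
    | zero => simp
    | succ n ih =>
      rw [Function.iterate_succ_apply', ih, h, δ'.leibniz, Derivation.leibniz_pow, haD,
        ← Function.iterate_succ_apply' (⇑δ')]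
      simp only [smul_eq_mul, smul_zero, mul_zero, add_zero, pow_succ]
      ring
  intro s
  obtain ⟨n, hn⟩ := hδ s
  refine ⟨n, ?_⟩
  rw [hit] at hn
  exact (mul_eq_zero.1 hn).resolve_left (pow_ne_zero _ ha)

theorem LN_induced {S G : Type*} [CommRing S] [CommRing G] (θ : S →+* G)
    (hθ : Function.Surjective θ) (δ : Derivation ℤ S S) (δ' : Derivation ℤ G G)
    (h : ∀ s, δ' (θ s) = θ (δ s)) (hδ : LN ⇑δ) : LN ⇑δ' := by
  have hit : ∀ n s, (⇑δ')^[n] (θ s) = θ ((⇑δ)^[n] s) := by
    intro n s
    induction n generalizing s with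
    | zero => rfl
    | succ n ih => rw [Function.iterate_succ_apply, h, ih, Function.iterate_succ_apply]
  intro x
  obtain ⟨s, rfl⟩ := hθ x
  obtain ⟨n, hn⟩ := hδ s
  exact ⟨n, by rw [hit, hn, map_zero]⟩

end induced

end Pool.Agent.H78.Rk
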