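import Pool.Agent.H78.Rk.Base

set_option autoImplicit false

open Polynomial Pool.Agent.H78.Tri

namespace Pool.Agent.H78.Rk

section
variable {κ : Type*} [Field κ] [CharZero κ]

theorem exists_rho (h : κ[X][X]) (hh : ∀ c : κ, h ≠ C (C c)) :
    ∃ ρ : κ[X][X] →ₐ[κ] κ[X], 0 < (ρ h).natDegree := by
  rcases Nat.eq_zero_or_pos h.natDegree with h0 | h0
  · obtain ⟨f, rfl⟩ := natDegree_eq_zero.1 h0
    refine ⟨(aeval (0 : κ[X]) : κ[X][X] →ₐ[κ[X]] κ[X]).restrictScalars κ, ?_⟩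
    have : ((aeval (0 : κ[X]) : κ[X][X] →ₐ[κ[X]] κ[X]).restrictScalars κ) (C f) = f := by
      show aeval (0 : κ[X]) (C f) = f
      rw [aeval_C]; rfl
    rw [this]
    rcases Nat.eq_zero_or_pos f.natDegree with h1 | h1
    · obtain ⟨c, rfl⟩ := natDegree_eq_zero.1 h1
      exact absurd rfl (hh c)
    · exact h1
  · have hl : h.leadingCoeff ≠ 0 := leadingCoeff_ne_zero.2 (by rintro rfl; simp at h0)
    obtain ⟨c, hc⟩ : ∃ c : κ, h.leadingCoeff.eval c ≠ 0 := by
      by_contra hcon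
      push Not at hcon
      exact hl (Polynomial.funext (fun c => by rw [hcon c, eval_zero]))
    refine ⟨mapAlgHom (aeval c), ?_⟩
    apply lt_of_lt_of_le h0
    apply le_natDegree_of_ne_zero
    show (h.map _).coeff _ ≠ 0
    rw [coeff_map]
    show aeval c h.leadingCoeff ≠ 0
    rw [coe_aeval_eq_eval]
    exact hc

theorem transc_of_rho (ρ : κ[X][X] →ₐ[κ] κ[X]) (h : κ[X][X]) (hρ : 0 < (ρ h).natDegree)
    (g : κ[X]) (hg : aeval h g = 0) : g = 0 := by
  apply nonconst_inj (ρ h) hρ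
  rw [aeval_algHom_apply, hg, map_zero]

end

section
variable {R κ : Type*} [CommRing R] [IsDomain R] [WfDvdMonoid R] [Field κ] [CharZero R]
  [CharZero κ]

omit [WfDvdMonoid R] [CharZero κ] [CharZero R] in
theorem iter_sum (D : Derivation R R[X][X] R[X][X]) (n : ℕ) (s : Finset ℕ) (g : ℕ → R[X][X]) :
    (⇑D)^[n] (∑ i ∈ s, g i) = ∑ i ∈ s, (⇑D)^[n] (g i) := by
  induction n generalizing g with
  | zero => rfl
  | succ n ih =>
    rw [Function.iterate_succ_apply, map_sum, ih]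
    rfl

/-- expansions in the family -/
theorem expand_fam {D : Derivation R R[X][X] R[X][X]} {P : R[X][X]}
    (hDP : D P = 0) (hker : ∀ a, D a = 0 → ∃ (r : R) (f : R[X]), r ≠ 0 ∧ r • a = aeval P f)
    (E : ℕ → R[X][X]) (hE : ∀ n, DegC D n (E n)) (n : ℕ) :
    ∀ b, (⇑D)^[n] b = 0 → ∃ (s : R) (a : ℕ → R[X]), s ≠ 0 ∧
      s • b = ∑ i ∈ Finset.range n, aeval P (a i) * E i := by
  induction n with
  | zero =>
    intro b hb
    exact ⟨1, fun _ => 0, one_ne_zero, by simpa using hb⟩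
  | succ n ih =>
    intro b hb
    have hb' : D ((⇑D)^[n] b) = 0 := by rw [← Function.iterate_succ_apply' (⇑D)]; exact hb
    obtain ⟨r, f, hr, hf⟩ := hker _ hb'
    obtain ⟨r', hr', hr''⟩ := hE n
    obtain ⟨s, a, hs, hsa⟩ := ih ((r' * r) • b - aeval P f * E n) (by
      rw [iterate_map_sub, iter_ker_mul D _ _ _ (D_aeval D P hDP f), hr'', D_iter_smul, ← hf,
        mul_smul, sub_eq_zero, smul_eq_CC, smul_eq_CC, smul_eq_CC]
      ring)
    refine ⟨s * (r' * r), fun i => if i < n then a i else C s * f, mul_ne_zero hs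
      (mul_ne_zero hr' hr), ?_⟩
    rw [Finset.sum_range_succ]
    have e1 : ∑ i ∈ Finset.range n, aeval P ((fun i => if i < n then a i else C s * f) i) * E i =
        ∑ i ∈ Finset.range n, aeval P (a i) * E i := by
      apply Finset.sum_congr rfl
      intro i hi
      simp only [Finset.mem_range.1 hi, if_true]
    rw [e1, ← hsa]
    simp only [lt_irrefl, if_false]
    rw [map_mul, aeval_C, smul_sub, smul_smul, Algebra.smul_def, Algebra.smul_def]
    ring

theorem local_of_goal {π : R →+* κ} {p : R} (hpp : Prime p) (hp : ∀ r, π r = 0 ↔ p ∣ r)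
    {D : Derivation R R[X][X] R[X][X]} {P : R[X][X]}
    (hDP : D P = 0) (hker : ∀ a, D a = 0 → ∃ (r : R) (f : R[X]), r ≠ 0 ∧ r • a = aeval P f)
    (hG : Goal π D P) (n : ℕ) :
    ∃ r : R, r ≠ 0 ∧ (∃ b, (⇑D)^[n + 1] b = 0 ∧ (⇑D)^[n] b = r • (1 : R[X][X])) ∧
      ∀ b, (⇑D)^[n + 1] b = 0 → ∀ e, p ^ e ∣ r → ∃ c, (⇑D)^[n] b = p ^ e • c := by
  obtain ⟨E, hE, hind⟩ := hG
  obtain ⟨r, hr, hr'⟩ := hE n
  refine ⟨r, hr, ⟨E n, (hE n).succ, hr'⟩, ?_⟩
  intro b hb e he
  obtain ⟨s, a, hs, hsa⟩ := expand_fam hDP hker E hE (n + 1) b hb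
  have hp0 : p ≠ 0 := hpp.ne_zero
  -- remove p from s
  have key : ∀ N : ℕ, ∀ (s : R) (a : ℕ → R[X]), ¬ p ^ N ∣ s →
      s • b = ∑ i ∈ Finset.range (n + 1), aeval P (a i) * E i →
      ∃ (s : R) (a : ℕ → R[X]), ¬ p ∣ s ∧
        s • b = ∑ i ∈ Finset.range (n + 1), aeval P (a i) * E i := by
    intro N
    induction N with
    | zero => intro s a h _; exact absurd (by rw [pow_zero]; exact one_dvd _) h
    | succ N ih =>
      intro s a h h1
      by_cases hps : p ∣ s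
      · obtain ⟨s1, rfl⟩ := hps
        have h2 := hind (n + 1) a (by
          rw [← h1, mul_smul, Algebra.smul_def, map_mul, red_alg, (hp p).2 dvd_rfl, map_zero,
            zero_mul])
        choose! a' ha' using fun i hi => dvd_of_map_zero π p hp (a i) (h2 i hi)
        refine ih s1 a' (fun h3 => h (by rw [pow_succ']; exact mul_dvd_mul_left p h3)) ?_
        apply smul_cancel_B hp0
        rw [smul_smul, h1, Finset.smul_sum]
        apply Finset.sum_congr rfl
        intro i hi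
        rw [ha' i (Finset.mem_range.1 hi), map_mul, aeval_C, Algebra.smul_def]
        ring
      · exact ⟨s, a, hps, h1⟩
  obtain ⟨N, hN⟩ := FiniteMultiplicity.of_prime_left hpp hs
  obtain ⟨s', a', hs', hsa'⟩ := key (N + 1) s a hN hsa
  have h1 : s' • (⇑D)^[n] b = aeval P (a' n) * (r • (1 : R[X][X])) := by
    rw [← D_iter_smul, hsa', iter_sum, Finset.sum_range_succ]
    have : ∀ i ∈ Finset.range n, (⇑D)^[n] (aeval P (a' i) * E i) = 0 := by
      intro i hi
      rw [iter_ker_mul D _ _ _ (D_aeval D P hDP _),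
        iter_zero_of_le D (by have := Finset.mem_range.1 hi; omega) (hE i).succ, mul_zero]
    rw [Finset.sum_eq_zero this, zero_add, iter_ker_mul D _ _ _ (D_aeval D P hDP _), hr']
  obtain ⟨t, rfl⟩ := he
  have h2 : (C (C p) : R[X][X]) ^ e ∣ C (C s') * (⇑D)^[n] b := by
    rw [← smul_eq_CC, h1]
    refine ⟨aeval P (a' n) * C (C t), ?_⟩
    rw [smul_eq_CC, C_mul, C_mul, C_pow, C_pow]
    ring
  have hpB : Prime (C (C p) : R[X][X]) := prime_C_iff.2 (prime_C_iff.2 hpp)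
  have h9 : ¬ (C (C p) : R[X][X]) ∣ C (C s') := by
    intro h
    rw [C_dvd_iff_dvd_coeff] at h
    have h' := h 0
    rw [coeff_C_zero, C_dvd_iff_dvd_coeff] at h'
    have h'' := h' 0
    rw [coeff_C_zero] at h''
    exact hs' h''
  obtain ⟨b', hb'⟩ := hpB.pow_dvd_of_dvd_mul_left _ h9 h2
  exact ⟨b', by rw [hb', smul_eq_CC, C_pow, C_pow]⟩

/-- change of generators -/
theorem Gen.mono {P w P1 w1 : R[X][X]} (h : Gen P w) (hP : ∃ F : R[X][X], sub2 P1 w1 F = P)
    (hw : ∃ F : R[X][X], sub2 P1 w1 F = w) : Gen P1 w1 := by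
  intro b
  obtain ⟨r, F, hr, hF⟩ := h b
  obtain ⟨FP, hFP⟩ := hP
  obtain ⟨Fw, hFw⟩ := hw
  refine ⟨r, sub2 FP Fw F, hr, ?_⟩
  rw [hF]
  have : (sub2 (R := R) P w) = (sub2 (R := R) P1 w1).comp (sub2 (R := R) FP Fw) := by
    apply Polynomial.ringHom_ext
    · intro q
      simp only [RingHom.comp_apply, sub2_C]
      induction q using Polynomial.induction_on' with
      | add p q hp hq => rw [map_add, map_add, map_add, hp, hq]
      | monomial n r =>
        rw [aeval_monomial, aeval_monomial, map_mul, map_pow, hFP]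
        congr 1
        have : (algebraMap R R[X][X] r) = C (C r) := rfl
        rw [this, sub2_CC]; rfl
    · simp only [RingHom.comp_apply, sub2_X, hFw]
  exact congrArg (fun φ => φ F) this

theorem norm_w {π : R →+* κ} (hπ : Function.Surjective π) {p : R} (hpp : Prime p)
    (hp : ∀ r, π r = 0 ↔ p ∣ r)
    {D : Derivation R R[X][X] R[X][X]} {P : R[X][X]} (hDP : D P = 0) (N : ℕ) :
    ∀ (r : R) (Q : R[X][X]), ¬ p ^ N ∣ r → D Q = r • (1 : R[X][X]) →
    ∃ w, DegC D 1 w ∧ (∀ g : κ[X], red π w ≠ aeval (red π P) g) ∧ ∃ F : R[X][X], sub2 P w F = Q := by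
  induction N with
  | zero => intro r Q h _; exact absurd (by rw [pow_zero]; exact one_dvd _) h
  | succ N ih =>
    intro r Q h hQ
    by_cases hex : ∃ g : κ[X], red π Q = aeval (red π P) g
    · obtain ⟨g, hg⟩ := hex
      obtain ⟨g1, rfl⟩ := map_surjective π hπ g
      have h1 : red π (Q - aeval P g1) = 0 := by rw [map_sub, hg, red_aeval, sub_self]
      obtain ⟨Q1, hQ1⟩ := red_zero hp _ h1
      have h2 : algebraMap R R[X][X] p * D Q1 = r • (1 : R[X][X]) := by
        have := congrArg D hQ1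
        rw [map_sub, D_aeval D P hDP, sub_zero, hQ, D.leibniz, D.map_algebraMap, smul_zero,
          add_zero, smul_eq_mul] at this
        exact this.symm
      obtain ⟨r1, rfl⟩ : p ∣ r := by
        have := pow_dvd_smul_one p r 1 ⟨D Q1, by rw [pow_one, h2]⟩
        rwa [pow_one] at this
      have h3 : D Q1 = r1 • (1 : R[X][X]) := by
        apply smul_cancel_B hpp.ne_zero
        rw [smul_smul, ← h2, Algebra.smul_def]
      obtain ⟨w, hw1, hw2, F, hF⟩ := ih r1 Q1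
        (fun h4 => h (by rw [pow_succ']; exact mul_dvd_mul_left p h4)) h3
      refine ⟨w, hw1, hw2, C g1 + C (C p) * F, ?_⟩
      rw [map_add, sub2_C, map_mul, sub2_CC, hF, ← hQ1]
      ring
    · push Not at hex
      refine ⟨Q, ⟨r, ?_, hQ⟩, hex, X, by rw [sub2_X]⟩
      rintro rfl
      exact h (dvd_zero _)

/-- `P` is not constant modulo `p`. -/
def NC (p : R) (P : R[X][X]) : Prop := ∀ (c : R) (b : R[X][X]), P ≠ C (C c) + C (C p) * b

theorem local_thm {π : R →+* κ} (hπ : Function.Surjective π) {p : R} (hpp : Prime p)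
    (hp : ∀ r, π r = 0 ↔ p ∣ r) {D : Derivation R R[X][X] R[X][X]} {P Q : R[X][X]} (hDP : D P = 0)
    (hNC : NC p P) (hQ : DegC D 1 Q) (hgen : Gen P Q) (n : ℕ) :
    ∃ r : R, r ≠ 0 ∧ (∃ b, (⇑D)^[n + 1] b = 0 ∧ (⇑D)^[n] b = r • (1 : R[X][X])) ∧
      ∀ b, (⇑D)^[n + 1] b = 0 → ∀ e, p ^ e ∣ r → ∃ c, (⇑D)^[n] b = p ^ e • c := by
  have hnc : ∀ c : κ, red π P ≠ C (C c) := by
    intro c hc
    obtain ⟨c1, rfl⟩ := hπ c
    have h1 : red π (P - C (C c1)) = 0 := by rw [map_sub, hc, red_C, map_C, sub_self]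
    obtain ⟨b, hb⟩ := red_zero hp _ h1
    apply hNC c1 b
    rw [sub_eq_iff_eq_add] at hb
    rw [hb, add_comm]; rfl
  obtain ⟨ρ, hρ⟩ := exists_rho (red π P) hnc
  have htr : ∀ g : κ[X], aeval (red π P) g = 0 → g = 0 := transc_of_rho ρ _ hρ
  obtain ⟨r0, hr0, hr0'⟩ := hQ
  obtain ⟨N, hN⟩ := FiniteMultiplicity.of_prime_left hpp hr0
  obtain ⟨w, hw1, hw2, F, hF⟩ := norm_w hπ hpp hp hDP (N + 1) r0 Q hN hr0'
  have hgen' : Gen P w := hgen.mono ⟨C X, by rw [sub2_C, aeval_X]⟩ ⟨F, hF⟩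
  have hst := base_stage hπ hpp hp hDP hw1 htr hw2 hgen'
  have hG : Goal π D P := main_rec hpp hp hDP ρ hρ _ 1 le_rfl hst
  exact local_of_goal hpp hp hDP (ker_P hpp hp hDP hw1 htr hgen') hG n

end

end Pool.Agent.H78.Rk
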