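import Pool.Agent.H78.Rk.N

set_option autoImplicit false

open Polynomial Pool.Agent.H78.Tri

namespace Pool.Agent.H78.Rk

section modif
variable {R B H : Type*} [CommRing R] [CommRing B] [IsDomain B] [Algebra R B]
  [CommRing H]

theorem mod_clear (S : Subalgebra R B) (p ψ : S) (j : ℕ) (w' : B)
    (hw' : (ψ : B) = (p : B) ^ j * w') (L : ℕ) (Q : S[X]) (hQ : Q.natDegree ≤ L) :
    ∃ y : S, (p : B) ^ (j * L) * aeval w' Q = y := by
  have hmem : (p : B) ^ (j * L) * aeval w' Q ∈ S := by
    rw [aeval_eq_sum_range' (Nat.lt_succ_of_le hQ), Finset.mul_sum]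
    apply S.sum_mem
    intro l hl
    have hl' : l ≤ L := by have := Finset.mem_range.1 hl; omega
    have : (p : B) ^ (j * L) * (Q.coeff l • w' ^ l) =
        ((Q.coeff l : S) : B) * ((p : B) ^ (j * (L - l)) * (ψ : B) ^ l) := by
      have e : j * L = j * (L - l) + j * l := by rw [← mul_add]; congr 1; omega
      rw [hw', mul_pow, ← pow_mul, e, pow_add, Algebra.smul_def]
      have : (algebraMap S B) (Q.coeff l) = ((Q.coeff l : S) : B) := rfl
      rw [this]; ring
    rw [this]
    exact S.mul_mem (Subtype.property _) (S.mul_mem (S.pow_mem (Subtype.property _) _)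
      (S.pow_mem (Subtype.property _) _))
  exact ⟨⟨_, hmem⟩, rfl⟩

theorem mod_key (S : Subalgebra R B) (p ψ : S) (hp : Prime p) (hψ : ¬ p ∣ ψ) (j : ℕ)
    (hj : 0 < j) (w' : B) (hw' : (ψ : B) = (p : B) ^ j * w') (red : B →+* H)
    (hredp : red p = 0) (hredψ : red ψ = 0) (L : ℕ) :
    ∀ Q : S[X], Q.natDegree ≤ L → aeval w' Q = 0 → ∀ l, red (Q.coeff l) = 0 := by
  induction L with
  | zero =>
    intro Q hQ hz l
    obtain ⟨q, rfl⟩ := natDegree_eq_zero.1 (Nat.le_zero.1 hQ)
    rw [aeval_C] at hz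
    have hq : q = 0 := Subtype.ext hz
    rw [hq, C_0, coeff_zero]
    exact map_zero red
  | succ L ih =>
    intro Q hQ hz l
    set s := Q.coeff (L + 1) with hs
    set Q0 := Q.erase (L + 1) with hQ0
    have hQQ : Q = Q0 + monomial (L + 1) s := by
      rw [hQ0, hs, add_comm]; exact (monomial_add_erase Q (L + 1)).symm
    have hQ0d : Q0.natDegree ≤ L := by
      rw [natDegree_le_iff_coeff_eq_zero]
      intro N hN
      rw [hQ0, coeff_erase]
      split_ifs with h
      · rfl
      · exact coeff_eq_zero_of_natDegree_lt (by omega)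
    obtain ⟨y, hy⟩ := mod_clear S p ψ j w' hw' L Q0 hQ0d
    have hz' : aeval w' Q0 + (s : B) * w' ^ (L + 1) = 0 := by
      rw [hQQ, map_add, aeval_monomial] at hz
      exact hz
    have h1 : p ^ j * y + s * ψ ^ (L + 1) = 0 := by
      apply Subtype.ext
      push_cast
      rw [← hy, hw']
      have e : j * (L + 1) = j + j * L := by ring
      calc (p : B) ^ j * ((p : B) ^ (j * L) * aeval w' Q0) + (s : B) * ((p : B) ^ j * w') ^ (L + 1)
          = (p : B) ^ (j * (L + 1)) * (aeval w' Q0 + (s : B) * w' ^ (L + 1)) := by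
            rw [mul_pow, ← pow_mul, e, pow_add]; ring
        _ = 0 := by rw [hz', mul_zero]
    have h2 : p ^ j ∣ s * ψ ^ (L + 1) := ⟨-y, by rw [mul_neg]; exact eq_neg_of_add_eq_zero_right h1⟩
    have h3 : p ^ j ∣ s := hp.pow_dvd_of_dvd_mul_right _ (fun h => hψ (hp.dvd_of_dvd_pow h)) h2
    obtain ⟨y', hy'⟩ := h3
    have h4 := ih (Q0 + monomial L (y' * ψ)) (by
      apply (natDegree_add_le _ _).trans
      exact max_le hQ0d (natDegree_monomial_le _)) (by
      rw [map_add, aeval_monomial, ← hz']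
      congr 1
      have : (algebraMap S B) (y' * ψ) = (y' : B) * (ψ : B) := rfl
      rw [this, hy', hw']
      push_cast
      ring)
    have h5 : red s = 0 := by
      rw [hy']; push_cast
      rw [map_mul, map_pow, hredp, zero_pow hj.ne', zero_mul]
    rcases lt_trichotomy l (L + 1) with h | h | h
    · have h6 := h4 l
      rw [coeff_add, coeff_monomial, hQ0, coeff_erase, if_neg (by omega)] at h6
      push_cast at h6
      rw [map_add] at h6
      split_ifs at h6 with h7
      · push_cast at h6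
        rw [map_mul, hredψ, mul_zero, add_zero] at h6
        exact h6
      · push_cast at h6
        rw [map_zero, add_zero] at h6
        exact h6
    · rw [h]; exact h5
    · rw [coeff_eq_zero_of_natDegree_lt (by omega)]; exact map_zero red

end modif

section stage
variable {R κ B H : Type*} [CommRing R] [Field κ] [CommRing B] [IsDomain B] [Algebra R B]
  [CommRing H] [IsDomain H] [Algebra κ H]

/-- The ring part of a stage. -/
structure Stage (π : R →+* κ) (p : R) (red : B →+* H) (S : Subalgebra R B)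
    (θ : S →+* κ[X][X]) (w : S) (τ : H) : Prop where
  hw : θ w = X
  surj : Function.Surjective θ
  ker : ∀ s : S, θ s = 0 → ∃ s' : S, s = algebraMap R S p * s'
  red_eq : ∀ s : S, red s = sub2 τ (red w) (θ s)
  scal : ∀ r : R, θ (algebraMap R S r) = C (C (π r))

theorem Stage.prime {π : R →+* κ} {p : R} {red : B →+* H} {S : Subalgebra R B}
    {θ : S →+* κ[X][X]} {w : S} {τ : H} (h : Stage π p red S θ w τ) (hπp : π p = 0)
    (hp0 : algebraMap R S p ≠ 0) : Prime (algebraMap R S p) := by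
  have hθp : θ (algebraMap R S p) = 0 := by rw [h.scal, hπp, C_0, C_0]
  refine ⟨hp0, ?_, ?_⟩
  · intro hu
    have := hu.map θ
    rw [hθp] at this
    exact not_isUnit_zero this
  · intro a b hab
    obtain ⟨c, hc⟩ := hab
    have h1 : θ a * θ b = 0 := by rw [← map_mul, hc, map_mul, hθp, zero_mul]
    rcases mul_eq_zero.1 h1 with h2 | h2
    · exact Or.inl (h.ker a h2)
    · exact Or.inr (h.ker b h2)

/-- The modification step. -/
theorem Stage.step {π : R →+* κ} {p : R} {red : B →+* H} {S : Subalgebra R B}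
    {θ : S →+* κ[X][X]} {w : S} {τ : H} (h : Stage π p red S θ w τ) (hπp : π p = 0)
    (hp0 : algebraMap R B p ≠ 0) (hredR : ∀ r : R, red (algebraMap R B r) = algebraMap κ H (π r))
    (ψ' : κ[X][X]) (hψ' : ψ' ≠ 0) (hker : ∀ F : κ[X][X], sub2 τ (red w) F = 0 ↔ ψ' ∣ F)
    (ψ : S) (hψ : θ ψ = ψ') (j : ℕ) (hj : 0 < j) (w' : B)
    (hw' : (ψ : B) = (algebraMap R B p) ^ j * w') (τ' : H)
    (hτ' : ∀ g : κ[X], aeval τ' g = 0 → g = 0) (hτ'1 : ∃ F : κ[X][X], sub2 τ (red w) F = τ')
    (hτ'2 : ∀ F : κ[X][X], ∃ g : κ[X], sub2 τ (red w) F = aeval τ' g) :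
    ∃ (S' : Subalgebra R B) (θ' : S' →+* κ[X][X]) (w'' : S'), (w'' : B) = w' ∧
      Stage π p red S' θ' w'' τ' ∧ S ≤ S' ∧
      (∀ s : S', (s : B) ∈ S → ∃ g : κ[X], θ' s = C g) ∧
      ∀ s : S', ∃ G : S[X], (s : B) = aeval w' G := by
  classical
  have hpS : algebraMap R S p ≠ 0 := by
    intro h0
    apply hp0
    have := congrArg (Subtype.val) h0
    exact this
  have hprime := h.prime hπp hpS
  have hθp : θ (algebraMap R S p) = 0 := by rw [h.scal, hπp, C_0, C_0]
  have hredp : red (algebraMap R S p : S) = 0 := by rw [h.red_eq, hθp, map_zero]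
  have hredψ : red ψ = 0 := by rw [h.red_eq, hψ, hker]
  have hψp : ¬ algebraMap R S p ∣ ψ := by
    rintro ⟨c, hc⟩
    apply hψ'
    rw [← hψ, hc, map_mul, hθp, zero_mul]
  have hinj : ∀ f g : κ[X], aeval τ' f = aeval τ' g → f = g := by
    intro f g hfg
    rw [← sub_eq_zero]
    apply hτ'
    rw [map_sub, hfg, sub_self]
  -- the map γ
  have hex : ∀ s : S, ∃ g : κ[X], aeval τ' g = red s := by
    intro s
    obtain ⟨g, hg⟩ := hτ'2 (θ s)
    exact ⟨g, hg.symm.trans (h.red_eq s).symm⟩
  choose γ0 hγ0 using hex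
  let γ : S →+* κ[X] :=
    { toFun := γ0
      map_one' := hinj _ _ (by rw [hγ0, map_one]; exact map_one red)
      map_mul' := fun a b => hinj _ _ (by rw [hγ0, map_mul, hγ0, hγ0]; exact map_mul red _ _)
      map_zero' := hinj _ _ (by rw [hγ0, map_zero]; exact map_zero red)
      map_add' := fun a b => hinj _ _ (by rw [hγ0, map_add, hγ0, hγ0]; exact map_add red _ _) }
  have hγ : ∀ s : S, aeval τ' (γ s) = red s := hγ0
  have hγsurj : Function.Surjective γ := by
    have hmem : ∀ g : κ[X], ∃ F : κ[X][X], sub2 τ (red w) F = aeval τ' g := by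
      intro g
      obtain ⟨F, hF⟩ := hτ'1
      refine ⟨aeval F g, ?_⟩
      induction g using Polynomial.induction_on' with
      | add p q hp hq => rw [map_add, map_add, map_add, hp, hq]
      | monomial n r =>
        rw [aeval_monomial, aeval_monomial, map_mul, map_pow, hF]
        congr 1
        have : (algebraMap κ κ[X][X] r) = C (C r) := rfl
        rw [this, sub2_CC]
    intro g
    obtain ⟨F, hF⟩ := hmem g
    obtain ⟨s, hs⟩ := h.surj F
    refine ⟨s, hinj _ _ ?_⟩
    rw [hγ, h.red_eq, hs, hF]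
  have hγ0' : ∀ s : S, red s = 0 → γ s = 0 := by
    intro s hs
    apply hτ'
    rw [hγ, hs]
  let ev : S[X] →ₐ[R] B := (aeval w' : S[X] →ₐ[S] B).restrictScalars R
  have hev : ∀ F, ev F = aeval w' F := fun F => rfl
  let Θ : S[X] →+* κ[X][X] := mapRingHom γ
  -- M1
  have M1 : ∀ F, ev F = 0 → Θ F = 0 := by
    intro F hF
    have := mod_key S (algebraMap R S p) ψ hprime hψp j hj w' hw' red hredp hredψ F.natDegree F
      le_rfl hF
    ext l : 1
    show (F.map γ).coeff l = _
    rw [coeff_map, coeff_zero]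
    exact hγ0' _ (this l)
  have hq : ∀ s : S, red s = 0 → ∃ s1 s2 : S, s = ψ * s1 + algebraMap R S p * s2 := by
    intro s hs
    rw [h.red_eq, hker] at hs
    obtain ⟨F, hF⟩ := hs
    obtain ⟨s1, hs1⟩ := h.surj F
    obtain ⟨s2, hs2⟩ := h.ker (s - ψ * s1) (by rw [map_sub, map_mul, hF, hψ, hs1, sub_self])
    exact ⟨s1, s2, by rw [← hs2]; ring⟩
  -- M2
  have M2 : ∀ F, Θ F = 0 → ∃ G : S[X], ev F = algebraMap R B p * ev G := by
    intro F hF
    have hc : ∀ l, ∃ G : S[X], ((F.coeff l : S) : B) * w' ^ l = algebraMap R B p * ev G := by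
      intro l
      have h1 : γ (F.coeff l) = 0 := by
        have := congrArg (fun t => t.coeff l) hF
        simpa [Θ] using this
      have h2 : red (F.coeff l) = 0 := by rw [← hγ, h1, map_zero]
      obtain ⟨s1, s2, hs⟩ := hq _ h2
      obtain ⟨j', rfl⟩ : ∃ j', j = j' + 1 := ⟨j - 1, by omega⟩
      refine ⟨monomial (l + 1) (algebraMap R S p ^ j' * s1) + monomial l s2, ?_⟩
      rw [hev, map_add, aeval_monomial, aeval_monomial, hs]
      have e1 : ∀ s : S, (algebraMap S B) s = (s : B) := fun s => rfl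
      have e2 : ((algebraMap R S p : S) : B) = algebraMap R B p := rfl
      rw [e1, e1]
      push_cast
      rw [hw']
      ring
    choose G hG using hc
    refine ⟨∑ l ∈ Finset.range (F.natDegree + 1), G l, ?_⟩
    rw [map_sum, Finset.mul_sum, hev, aeval_eq_sum_range]
    apply Finset.sum_congr rfl
    intro l _
    rw [← hG]
    rw [Algebra.smul_def]; rfl
  let evr : S[X] →+* ev.range := (ev.rangeRestrict : S[X] →ₐ[R] ev.range)
  have hevr : ∀ F, ((evr F : ev.range) : B) = ev F := fun F => rfl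
  have hevs : Function.Surjective evr := AlgHom.rangeRestrict_surjective ev
  have hle : RingHom.ker evr ≤ RingHom.ker Θ := by
    intro F hF
    rw [RingHom.mem_ker] at hF ⊢
    apply M1
    rw [← hevr, hF]; rfl
  let θ' : ev.range →+* κ[X][X] := RingHom.liftOfSurjective evr hevs ⟨Θ, hle⟩
  have hθ' : ∀ F, θ' (evr F) = Θ F := by
    intro F
    exact RingHom.liftOfRightInverse_comp_apply _ _ _ ⟨Θ, hle⟩ F
  have hSe : ∀ s : S, (evr (C s) : B) = s := by
    intro s
    rw [hevr, hev, aeval_C]; rfl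
  have hXe : (evr X : B) = w' := by rw [hevr, hev, aeval_X]
  refine ⟨ev.range, θ', evr X, hXe, ⟨?_, ?_, ?_, ?_, ?_⟩, ?_, ?_, ?_⟩
  · rw [hθ']; simp [Θ]
  · intro F
    obtain ⟨G, hG⟩ := map_surjective γ hγsurj F
    exact ⟨evr G, by rw [hθ']; exact hG⟩
  · intro s hs
    obtain ⟨F, rfl⟩ := hevs s
    rw [hθ'] at hs
    obtain ⟨G, hG⟩ := M2 F hs
    exact ⟨evr G, Subtype.ext hG⟩
  · intro s
    obtain ⟨F, rfl⟩ := hevs s
    rw [hθ', hXe, hevr, hev]
    induction F using Polynomial.induction_on' with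
    | add p q hp hq => rw [map_add, map_add, map_add, map_add, hp, hq]
    | monomial n s =>
      rw [aeval_monomial, map_mul, map_pow]
      have : Θ (monomial n s) = monomial n (γ s) := by simp [Θ]
      rw [this, sub2_monomial, hγ]; rfl
  · intro r
    have : algebraMap R ev.range r = evr (C (algebraMap R S r)) := by
      apply Subtype.ext
      rw [hSe]; rfl
    rw [this, hθ']
    have : Θ (C (algebraMap R S r)) = C (γ (algebraMap R S r)) := by simp [Θ]
    rw [this]
    congr 1
    apply hinj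
    rw [hγ, aeval_C]
    exact hredR r
  · intro s hs
    exact ⟨C ⟨s, hs⟩, hSe ⟨s, hs⟩⟩
  · intro s hs
    have : s = evr (C ⟨s, hs⟩) := Subtype.ext (hSe ⟨s, hs⟩).symm
    refine ⟨γ ⟨s, hs⟩, ?_⟩
    have h1 : θ' s = θ' (evr (C ⟨s, hs⟩)) := congrArg θ' this
    rw [h1, hθ']
    simp [Θ]
  · intro s
    obtain ⟨F, rfl⟩ := hevs s
    exact ⟨F, rfl⟩

end stage

end Pool.Agent.H78.Rk
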