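import Pool.Agent.H78.Rk.L
import Pool.Agent.H78.Tri.A

set_option autoImplicit false

open Polynomial Pool.Agent.H78.Tri

namespace Pool.Agent.H78.Rk

section rel
variable {κ : Type*} [Field κ]

theorem int_X (a : κ[X]) (ha : 0 < a.natDegree) :
    (aeval a : κ[X] →ₐ[κ] κ[X]).toRingHom.IsIntegralElem X := by
  have ha0 : a.leadingCoeff ≠ 0 := leadingCoeff_ne_zero.2 (by rintro rfl; simp at ha)
  have h1 : (a.map (C : κ →+* κ[X]) - C X).natDegree = a.natDegree := by
    rw [natDegree_sub_C, natDegree_map_eq_of_injective C_injective]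
  have h2 : (a.map (C : κ →+* κ[X]) - C X).leadingCoeff = C a.leadingCoeff := by
    rw [leadingCoeff, h1, coeff_sub, coeff_C_of_ne_zero (by omega), sub_zero, coeff_map]
    rfl
  refine ⟨C (C a.leadingCoeff⁻¹) * (a.map C - C X), ?_, ?_⟩
  · rw [Monic, leadingCoeff_mul, h2, leadingCoeff_C, ← C_mul, inv_mul_cancel₀ ha0, C_1]
  · rw [eval₂_mul, eval₂_sub, eval₂_C, eval₂_C, eval₂_map]
    have : ((aeval a : κ[X] →ₐ[κ] κ[X]).toRingHom.comp C) = C := by
      ext r; simp
    rw [this]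
    have h3 : (aeval a : κ[X] →ₐ[κ] κ[X]).toRingHom X = a := by simp
    have h4 : eval₂ C X a = a := by
      have := aeval_X_left_apply (R := κ) a
      rwa [aeval_def] at this
    rw [h3, h4, sub_self, mul_zero]

theorem int_rel (a b : κ[X]) (ha : 0 < a.natDegree) :
    ∃ F : κ[X][X], F.Monic ∧ sub2 a b F = 0 := by
  have h : (aeval a : κ[X] →ₐ[κ] κ[X]).toRingHom.IsIntegralElem b := by
    have hC : ∀ r : κ, (aeval a : κ[X] →ₐ[κ] κ[X]).toRingHom.IsIntegralElem (C r) := by
      intro r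
      have : C r = (aeval a : κ[X] →ₐ[κ] κ[X]).toRingHom (C r) := by simp
      rw [this]
      exact RingHom.isIntegralElem_map _
    induction b using Polynomial.induction_on with
    | C r => exact hC r
    | add p q hp hq => exact hp.add _ hq
    | monomial n r h =>
      rw [pow_succ, ← mul_assoc]
      exact h.mul _ (int_X a ha)
  obtain ⟨F, hF, hF'⟩ := h
  exact ⟨F, hF, hF'⟩

end rel

section n4
variable {κ : Type*} [Field κ] [CharZero κ] {Q : Type*} [CommRing Q] [IsDomain Q] [Algebra κ Q]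

/-- derivation of a substitution -/
theorem der_sub2 (δ : Derivation ℤ Q Q) (hκ : ∀ r : κ, δ (algebraMap κ Q r) = 0) (c b : Q)
    (hc : δ c = 0) (F : κ[X][X]) : δ (sub2 c b F) = sub2 c b (derivative F) * δ b := by
  have h0 : ∀ f : κ[X], δ (aeval c f) = 0 := by
    intro f
    induction f using Polynomial.induction_on' with
    | add p q hp hq => rw [map_add, map_add, hp, hq, add_zero]
    | monomial n r =>
      rw [aeval_monomial, δ.leibniz, hκ, Derivation.leibniz_pow, hc]
      simp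
  induction F using Polynomial.induction_on' with
  | add p q hp hq => rw [map_add, map_add, hp, hq, derivative_add, map_add]; ring
  | monomial n f =>
    rw [sub2_monomial, δ.leibniz, h0, Derivation.leibniz_pow, derivative_monomial, sub2_monomial]
    simp only [smul_eq_mul, nsmul_eq_mul, mul_zero, add_zero, map_mul, map_natCast]
    ring

theorem ker_const (ρ : Q →ₐ[κ] κ[X]) (hρ : Function.Injective ρ) (δ : Derivation ℤ Q Q)
    (hκ : ∀ r : κ, δ (algebraMap κ Q r) = 0) (hne : ∃ s, δ s ≠ 0) (c : Q) (hc : δ c = 0) :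
    ∃ r : κ, c = algebraMap κ Q r := by
  rcases Nat.eq_zero_or_pos (ρ c).natDegree with h | h
  · obtain ⟨r, hr⟩ := natDegree_eq_zero.1 h
    refine ⟨r, hρ ?_⟩
    rw [← hr, AlgHom.commutes]; rfl
  · exfalso
    obtain ⟨b, hb⟩ := hne
    have hex : ∃ n, ∃ F : κ[X][X], F ≠ 0 ∧ sub2 c b F = 0 ∧ F.natDegree = n := by
      obtain ⟨F, hF, hF'⟩ := int_rel (ρ c) (ρ b) h
      refine ⟨F.natDegree, F, hF.ne_zero, ?_, rfl⟩
      apply hρ
      rw [map_zero, ← hF']
      have : (ρ : Q →+* κ[X]).comp (sub2 (R := κ) c b) = sub2 (R := κ) (ρ c) (ρ b) := by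
        apply Polynomial.ringHom_ext
        · intro q
          simp only [RingHom.comp_apply, sub2_C, RingHom.coe_coe]
          rw [← aeval_algHom_apply]
        · simp
      exact congrArg (fun φ => φ F) this
    classical
    obtain ⟨F, hF0, hF, hFn⟩ := Nat.find_spec hex
    have hmin := fun m (hm : m < Nat.find hex) => Nat.find_min hex hm
    have h1 := der_sub2 δ hκ c b hc F
    rw [hF, map_zero] at h1
    have h2 : sub2 c b (derivative F) = 0 := (mul_eq_zero.1 h1.symm).resolve_right hb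
    rcases Nat.eq_zero_or_pos F.natDegree with h0 | h0
    · obtain ⟨f, rfl⟩ := natDegree_eq_zero.1 h0
      rw [sub2_C] at hF
      have h3 := congrArg ρ hF
      rw [map_zero, ← aeval_algHom_apply] at h3
      have h4 : f.comp (ρ c) = 0 := by rw [comp, ← h3, aeval_def]; rfl
      rcases comp_eq_zero_iff.1 h4 with h5 | ⟨-, h5⟩
      · exact hF0 (by rw [h5, C_0])
      · rw [h5, natDegree_C] at h; omega
    · have hd : derivative F ≠ 0 := by
        intro h3
        have := derivative_eq_zero.1 h3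
        omega
      exact hmin _ (by rw [← hFn]; exact natDegree_derivative_lt h0.ne') ⟨_, hd, h2, rfl⟩

theorem gen_slice (ρ : Q →ₐ[κ] κ[X]) (hρ : Function.Injective ρ) (δ : Derivation ℤ Q Q)
    (hδ : LN ⇑δ) (hκ : ∀ r : κ, δ (algebraMap κ Q r) = 0) (hne : ∃ s, δ s ≠ 0) :
    ∃ t : Q, ∀ c : Q, ∃ f : κ[X], c = aeval t f := by
  have hchar : CharZero Q := by
    refine ⟨fun a b h => ?_⟩
    have := congrArg ρ h
    rw [map_natCast, map_natCast] at this
    exact_mod_cast this
  obtain ⟨s, hs, hs'⟩ := exists_slice δ hδ hne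
  obtain ⟨r, hr⟩ := ker_const ρ hρ δ hκ hne _ hs'
  have hr0 : r ≠ 0 := by rintro rfl; rw [map_zero] at hr; exact hs hr
  set t : Q := algebraMap κ Q r⁻¹ * s with ht
  have hDt : δ t = 1 := by
    rw [ht, δ.leibniz, hκ, hr, smul_zero, add_zero, smul_eq_mul, ← map_mul,
      inv_mul_cancel₀ hr0, map_one]
  have hpow : ∀ n (a : κ), (⇑δ)^[n] (algebraMap κ Q a * t ^ n) =
      algebraMap κ Q (a * n.factorial) := by
    intro n
    have hgen : ∀ j m (a : κ), (⇑δ)^[j] (algebraMap κ Q a * t ^ (m + j)) =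
        algebraMap κ Q (a * ((m + j).descFactorial j)) * t ^ m := by
      intro j
      induction j with
      | zero => intro m a; simp
      | succ j ih =>
        intro m a
        rw [Function.iterate_succ_apply']
        have : m + (j + 1) = (m + 1) + j := by ring
        rw [this, ih (m + 1) a, δ.leibniz, hκ, Derivation.leibniz_pow, hDt,
          Nat.descFactorial_succ, Nat.add_sub_cancel]
        simp only [smul_eq_mul, nsmul_eq_mul, mul_one, smul_zero, mul_zero, add_zero, map_mul,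
          Nat.cast_mul, map_natCast, Nat.add_sub_cancel]
        ring
    intro a
    have := hgen n 0 a
    rw [zero_add, pow_zero, mul_one, Nat.descFactorial_self] at this
    exact this
  refine ⟨t, ?_⟩
  have key : ∀ n, ∀ c : Q, (⇑δ)^[n] c = 0 → ∃ f : κ[X], c = aeval t f := by
    intro n
    induction n with
    | zero => intro c hc; exact ⟨0, by simpa using hc⟩
    | succ n ih =>
      intro c hc
      rw [Function.iterate_succ_apply'] at hc
      obtain ⟨a, ha⟩ := ker_const ρ hρ δ hκ hne _ hc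
      have hn : (n.factorial : κ) ≠ 0 := by exact_mod_cast n.factorial_ne_zero
      obtain ⟨f, hf⟩ := ih (c - algebraMap κ Q (a / n.factorial) * t ^ n) (by
        rw [iterate_map_sub, hpow, ha, div_mul_cancel₀ _ hn, sub_self])
      refine ⟨f + C (a / n.factorial) * X ^ n, ?_⟩
      rw [map_add, ← hf, map_mul, map_pow, aeval_X, aeval_C]
      ring
  intro c
  obtain ⟨n, hn⟩ := hδ c
  exact key n c hn

end n4

section n3
variable {κ : Type*} [Field κ] [CharZero κ]

/-- If a nonzero LND of the plane kills an element of a prime curve, the curve is a line. -/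
theorem curve_line {H : Type*} [CommRing H] [IsDomain H] [Algebra κ H] (τ q : H)
    (ψ : κ[X][X]) (hψ : Prime ψ) (hker : ∀ F : κ[X][X], sub2 τ q F = 0 ↔ ψ ∣ F)
    (δ : Derivation ℤ κ[X][X] κ[X][X]) (hδ : LN ⇑δ) (hne : ∃ s, δ s ≠ 0)
    (f : κ[X][X]) (hf : f ≠ 0) (hδf : δ f = 0) (hψf : ψ ∣ f)
    (ρ : H →ₐ[κ] κ[X]) (hρ : ∀ F : κ[X][X], ρ (sub2 τ q F) = 0 → sub2 τ q F = 0) :
    ∃ τ' : H, (∃ F : κ[X][X], sub2 τ q F = τ') ∧
      ∀ F : κ[X][X], ∃ g : κ[X], sub2 τ q F = aeval τ' g := by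
  have hchar : CharZero κ[X][X] := inferInstance
  have hδψ : δ ψ = 0 := dvd_closed δ hδ ψ f hf hψf hδf
  obtain ⟨s0, hs0⟩ := hne
  obtain ⟨N, hN⟩ := FiniteMultiplicity.of_prime_left hψ hs0
  obtain ⟨δ1, j, h1, s1, hs1⟩ := exists_div_max ψ hψ.ne_zero s0 (N + 1) δ hN
  have hδ1ψ : δ1 ψ = 0 := by
    have : ψ ^ j * δ1 ψ = 0 := (h1 ψ).symm.trans hδψ
    exact (mul_eq_zero.1 this).resolve_left (pow_ne_zero _ hψ.ne_zero)
  have hLN1 : LN ⇑δ1 := by
    apply LN_div δ δ1 (ψ ^ j) (pow_ne_zero _ hψ.ne_zero) ?_ h1 hδ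
    rw [Derivation.leibniz_pow, hδ1ψ, smul_zero, smul_zero]
  -- pass to the quotient
  let σ : κ[X][X] →ₐ[κ] H :=
    { sub2 (R := κ) τ q with
      commutes' := by
        intro r
        show sub2 (R := κ) τ q (C (C r)) = _
        rw [sub2_CC] }
  have hσ : ∀ F, σ F = sub2 τ q F := fun F => rfl
  let Q := σ.range
  let σr : κ[X][X] →+* Q := (σ.rangeRestrict : κ[X][X] →ₐ[κ] Q)
  have hσr : ∀ F, ((σr F : Q) : H) = sub2 τ q F := fun F => rfl
  have hsurj : Function.Surjective σr := AlgHom.rangeRestrict_surjective σ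
  have hz : ∀ F, σr F = 0 ↔ ψ ∣ F := by
    intro F
    rw [← hker, ← hσr]
    exact ⟨fun h => by rw [h]; rfl, fun h => Subtype.ext h⟩
  obtain ⟨δ2, hδ2⟩ := exists_induced σr hsurj δ1 (by
    intro s hs
    rw [hz] at hs ⊢
    obtain ⟨t, rfl⟩ := hs
    rw [δ1.leibniz, hδ1ψ, smul_zero, add_zero, smul_eq_mul]
    exact dvd_mul_right _ _)
  have hLN2 : LN ⇑δ2 := LN_induced σr hsurj δ1 δ2 hδ2 hLN1
  have hne2 : ∃ s, δ2 s ≠ 0 := ⟨σr s1, by rw [hδ2, Ne, hz]; exact hs1⟩
  have hκ2 : ∀ r : κ, δ2 (algebraMap κ Q r) = 0 := by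
    intro r
    rcases eq_or_ne r 0 with rfl | hr
    · rw [map_zero, map_zero]
    · have hcharQ : CharZero Q := charZero_of_injective_algebraMap (algebraMap κ Q).injective
      have h3 : algebraMap κ Q r * algebraMap κ Q r⁻¹ = 1 := by
        rw [← map_mul, mul_inv_cancel₀ hr, map_one]
      apply fact_closed δ2 hLN2 _ (algebraMap κ Q r⁻¹)
      · rw [h3]; exact one_ne_zero
      · rw [h3]; exact δ2.map_one_eq_zero
  let ρQ : Q →ₐ[κ] κ[X] := ρ.comp Q.val
  have hρQ : Function.Injective ρQ := by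
    rw [injective_iff_map_eq_zero]
    intro x hx
    obtain ⟨F, rfl⟩ := hsurj x
    have : sub2 τ q F = 0 := hρ F hx
    exact Subtype.ext this
  obtain ⟨t, ht⟩ := gen_slice ρQ hρQ δ2 hLN2 hκ2 hne2
  refine ⟨t, ?_, ?_⟩
  · obtain ⟨F, hF⟩ := hsurj t
    exact ⟨F, by rw [← hF, hσr]⟩
  · intro F
    obtain ⟨g, hg⟩ := ht (σr F)
    refine ⟨g, ?_⟩
    rw [← hσr, hg]
    have := aeval_algHom_apply Q.val t g
    exact this.symm

end n3

end Pool.Agent.H78.Rk
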