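import Pool.Agent.H78.Rk.M

set_option autoImplicit false

open Polynomial Pool.Agent.H78.Tri

namespace Pool.Agent.H78.Rk

theorem hopf {A : Type*} [CommRing A] [IsNoetherianRing A] (σ : A →+* A)
    (hσ : Function.Surjective σ) : Function.Injective σ := by
  let I : ℕ →o Ideal A :=
    { toFun := fun n => RingHom.ker (σ ^ n : A →+* A)
      monotone' := by
        intro m n hmn x hx
        obtain ⟨k, rfl⟩ := Nat.exists_eq_add_of_le hmn
        rw [RingHom.mem_ker] at hx ⊢
        rw [add_comm, pow_add, RingHom.mul_def, RingHom.comp_apply, hx, map_zero] }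
  obtain ⟨n, hn⟩ := monotone_stabilizes_iff_noetherian.2 (inferInstance : IsNoetherian A A) I
  rw [injective_iff_map_eq_zero]
  intro x hx
  have hs : Function.Surjective (σ ^ n : A →+* A) := by
    have : ∀ m, Function.Surjective (σ ^ m : A →+* A) := by
      intro m
      induction m with
      | zero => rw [pow_zero]; exact Function.surjective_id
      | succ m ih => rw [pow_succ]; exact ih.comp hσ
    exact this n
  obtain ⟨y, rfl⟩ := hs x
  have h1 : y ∈ I (n + 1) := by
    show y ∈ RingHom.ker (σ ^ (n + 1) : A →+* A)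
    rw [RingHom.mem_ker, add_comm, pow_add, RingHom.mul_def, RingHom.comp_apply, pow_one]
    exact hx
  rw [← hn (n + 1) (by omega)] at h1
  exact h1

section alg
variable {κ H : Type*} [Field κ] [CommRing H] [IsDomain H] [Algebra κ H]

theorem map_sub2' {H' : Type*} [CommRing H'] [Algebra κ H'] (ρ : H →ₐ[κ] H') (τ q : H)
    (F : κ[X][X]) : ρ (sub2 τ q F) = sub2 (ρ τ) (ρ q) F := by
  have : (ρ : H →+* H').comp (sub2 (R := κ) τ q) = sub2 (R := κ) (ρ τ) (ρ q) := by
    apply Polynomial.ringHom_ext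
    · intro q
      simp only [RingHom.comp_apply, sub2_C, RingHom.coe_coe]
      rw [← aeval_algHom_apply]
    · simp
  exact congrArg (fun φ => φ F) this

theorem nonconst_inj (a : κ[X]) (ha : 0 < a.natDegree) (f : κ[X]) (h : aeval a f = 0) : f = 0 := by
  have h4 : f.comp a = 0 := by rw [comp, ← h, aeval_def]; rfl
  rcases comp_eq_zero_iff.1 h4 with h5 | ⟨-, h5⟩
  · exact h5
  · rw [h5, natDegree_C] at ha; omega

theorem alg_case (τ q : H) (ρ : H →ₐ[κ] κ[X]) (hρτ : 0 < (ρ τ).natDegree) (F0 : κ[X][X])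
    (hF0 : F0 ≠ 0) (hF0' : sub2 τ q F0 = 0) :
    (∀ F : κ[X][X], ρ (sub2 τ q F) = 0 → sub2 τ q F = 0) ∧
    ∃ ψ : κ[X][X], ψ.Monic ∧ Prime ψ ∧ ∀ F : κ[X][X], sub2 τ q F = 0 ↔ ψ ∣ F := by
  let _ : Algebra κ[X] H := (aeval τ : κ[X] →ₐ[κ] H).toRingHom.toAlgebra
  have hae : ∀ (x : H) (F : κ[X][X]), aeval x F = sub2 τ x F := fun x F => rfl
  have hinj : ∀ f : κ[X], aeval τ f = 0 → f = 0 := by
    intro f hf
    apply nonconst_inj (ρ τ) hρτ
    rw [aeval_algHom_apply, hf, map_zero]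
  have hinj' : Function.Injective (algebraMap κ[X] H) := by
    rw [injective_iff_map_eq_zero]
    exact hinj
  have : FaithfulSMul κ[X] H := (faithfulSMul_iff_algebraMap_injective _ _).2 hinj'
  have hq : IsAlgebraic κ[X] q := ⟨F0, hF0, hF0'⟩
  have hall : ∀ F : κ[X][X], IsAlgebraic κ[X] (sub2 τ q F) := by
    intro F
    rw [← hae]
    induction F using Polynomial.induction_on' with
    | add p q hp hq => rw [map_add]; exact hp.add hq
    | monomial n f => rw [aeval_monomial]; exact (isAlgebraic_algebraMap f).mul (hq.pow n)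
  have h1 : ∀ F : κ[X][X], ρ (sub2 τ q F) = 0 → sub2 τ q F = 0 := by
    intro F hF
    by_contra hne
    obtain ⟨g, hg0, hg⟩ := (hall F).exists_nonzero_coeff_and_aeval_eq_zero
      (mem_nonZeroDivisors_of_ne_zero hne)
    rw [hae] at hg
    have h2 := congrArg ρ hg
    rw [map_sub2', hF, map_zero] at h2
    apply hg0
    apply nonconst_inj (ρ τ) hρτ
    rw [← h2]
    simp only [sub2, coe_eval₂RingHom, eval₂_at_zero]
    rfl
  refine ⟨h1, ?_⟩
  have hint : IsIntegral κ[X] q := by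
    obtain ⟨F, hF, hF'⟩ := int_rel (ρ τ) (ρ q) hρτ
    refine ⟨F, hF, ?_⟩
    have : sub2 τ q F = 0 := h1 F (by rw [map_sub2', hF'])
    exact this
  have hdvd : ∀ F : κ[X][X], sub2 τ q F = 0 ↔ minpoly κ[X] q ∣ F := by
    intro F
    rw [← minpoly.isIntegrallyClosed_dvd_iff hint, hae]
  refine ⟨minpoly κ[X] q, minpoly.monic hint, ⟨(minpoly.monic hint).ne_zero, ?_, ?_⟩, hdvd⟩
  · exact minpoly.not_isUnit κ[X] q
  · intro a b hab
    rw [← hdvd, map_mul, mul_eq_zero] at hab
    rcases hab with h | h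
    · exact Or.inl ((hdvd a).1 h)
    · exact Or.inr ((hdvd b).1 h)

end alg

section stage
variable {R κ B H : Type*} [CommRing R] [Field κ] [CommRing B] [IsDomain B] [Algebra R B]
  [CommRing H] [IsDomain H] [Algebra κ H]

theorem stage_lnd {π : R →+* κ} {p : R} {red : B →+* H} {S : Subalgebra R B}
    {θ : S →+* κ[X][X]} {w : S} {τ : H} (h : Stage π p red S θ w τ) (hπp : π p = 0)
    (hp0 : algebraMap R B p ≠ 0) (E : Derivation R B B) (hE : LN ⇑E) (r : R)
    (hr : ∀ s ∈ S, r • E s ∈ S) (u : S) (hu : E u = 0) (s0 : S) (N : ℕ)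
    (hs0 : ¬ (algebraMap R B p) ^ N ∣ r • E s0) :
    ∃ δ : Derivation ℤ κ[X][X] κ[X][X], LN ⇑δ ∧ (∃ F, δ F ≠ 0) ∧ δ (θ u) = 0 := by
  have hpS : algebraMap R S p ≠ 0 := fun h0 => hp0 (congrArg Subtype.val h0)
  have hθp : θ (algebraMap R S p) = 0 := by rw [h.scal, hπp, C_0, C_0]
  let δ0 : Derivation ℤ S S := Derivation.mk' (AddMonoidHom.toIntLinearMap
    { toFun := fun s => ⟨r • E s, hr s s.2⟩
      map_zero' := Subtype.ext (by simp)
      map_add' := fun a b => Subtype.ext (by simp) }) (by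
      intro a b
      apply Subtype.ext
      show r • E ((a : B) * (b : B)) = (a : B) * (r • E b) + (b : B) * (r • E a)
      rw [E.leibniz, smul_add, mul_smul_comm, mul_smul_comm]; rfl)
  have hδ0 : ∀ s : S, ((δ0 s : S) : B) = r • E s := fun s => rfl
  have hit : ∀ n (s : S), (((⇑δ0)^[n] s : S) : B) = r ^ n • (⇑E)^[n] s := by
    intro n
    induction n with
    | zero => intro s; simp
    | succ n ih =>
      intro s
      rw [Function.iterate_succ_apply', hδ0, ih, E.map_smul, smul_smul, ← pow_succ',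
        ← Function.iterate_succ_apply' (⇑E)]
  have hLN0 : LN ⇑δ0 := by
    intro s
    obtain ⟨n, hn⟩ := hE s
    exact ⟨n, Subtype.ext (by rw [hit, hn, smul_zero]; rfl)⟩
  obtain ⟨δ1, j, h1, s1, hs1⟩ := exists_div_max (algebraMap R S p) hpS s0 N δ0 (by
    rintro ⟨c, hc⟩
    apply hs0
    refine ⟨(c : B), ?_⟩
    rw [← hδ0, hc]; rfl)
  have hpj : (algebraMap R S p) ^ j ≠ 0 := pow_ne_zero _ hpS
  have hδ1p : δ1 (algebraMap R S p) = 0 := by
    have h2 : δ0 (algebraMap R S p) = 0 := by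
      apply Subtype.ext
      rw [hδ0]
      have : ((algebraMap R S p : S) : B) = algebraMap R B p := rfl
      rw [this, E.map_algebraMap, smul_zero]; rfl
    have h3 : (algebraMap R S p) ^ j * δ1 (algebraMap R S p) = 0 := (h1 _).symm.trans h2
    exact (mul_eq_zero.1 h3).resolve_left hpj
  have hLN1 : LN ⇑δ1 := by
    apply LN_div δ0 δ1 _ hpj ?_ h1 hLN0
    rw [Derivation.leibniz_pow, hδ1p, smul_zero, smul_zero]
  obtain ⟨δ2, hδ2⟩ := exists_induced θ h.surj δ1 (by
    intro s hs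
    obtain ⟨s', rfl⟩ := h.ker s hs
    rw [δ1.leibniz, hδ1p, smul_zero, add_zero, smul_eq_mul, map_mul, hθp, zero_mul])
  refine ⟨δ2, LN_induced θ h.surj δ1 δ2 hδ2 hLN1, ⟨θ s1, ?_⟩, ?_⟩
  · exact fun h0 => hs1 (h.ker _ ((hδ2 s1).symm.trans h0))
  · refine (hδ2 u).trans ?_
    have h2 : δ0 u = 0 := Subtype.ext (by rw [hδ0, hu, smul_zero]; rfl)
    have h3 : (algebraMap R S p) ^ j * δ1 u = 0 := (h1 _).symm.trans h2
    rw [(mul_eq_zero.1 h3).resolve_left hpj, map_zero]

/-- Elements of `B` either reduce into the image or give an element of the kernel. -/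
theorem dichotomy {π : R →+* κ} {p : R} {red : B →+* H} {S : Subalgebra R B}
    {θ : S →+* κ[X][X]} {w : S} {τ : H} (h : Stage π p red S θ w τ)
    (hp : ∀ r, π r = 0 ↔ p ∣ r) (hp0 : algebraMap R B p ≠ 0)
    (hredR : ∀ r : R, red (algebraMap R B r) = algebraMap κ H (π r)) (V : B) (n : ℕ) :
    ∀ r : R, ¬ p ^ n ∣ r → r • V ∈ S →
    (∃ F : κ[X][X], sub2 τ (red w) F = red V) ∨
    ∃ (u : S) (r : R), (u : B) = r • V ∧ θ u ≠ 0 ∧ red u = 0 := by
  induction n with
  | zero => intro r hr; exact absurd (by rw [pow_zero]; exact one_dvd _) hr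
  | succ n ih =>
    intro r hr hV
    by_cases hpr : p ∣ r
    · obtain ⟨r1, rfl⟩ := hpr
      by_cases hθ : θ ⟨_, hV⟩ = 0
      · obtain ⟨s', hs'⟩ := h.ker _ hθ
        have h1 : r1 • V = (s' : B) := by
          have := congrArg Subtype.val hs'
          have h2 : (p * r1) • V = algebraMap R B p * (s' : B) := this
          rw [mul_smul, Algebra.smul_def] at h2
          exact mul_left_cancel₀ hp0 h2
        exact ih r1 (fun h2 => hr (by rw [pow_succ']; exact mul_dvd_mul_left p h2))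
          (by rw [h1]; exact s'.2)
      · right
        refine ⟨⟨_, hV⟩, p * r1, rfl, hθ, ?_⟩
        show red ((p * r1) • V) = 0
        rw [Algebra.smul_def, map_mul, hredR, (hp _).2 (dvd_mul_right _ _), map_zero, zero_mul]
    · left
      have hπr : π r ≠ 0 := fun h0 => hpr ((hp r).1 h0)
      refine ⟨C (C (π r)⁻¹) * θ ⟨_, hV⟩, ?_⟩
      rw [map_mul, sub2_CC, ← h.red_eq]
      show _ * red (r • V) = _
      rw [Algebra.smul_def, map_mul, hredR, ← mul_assoc, ← map_mul, inv_mul_cancel₀ hπr, map_one,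
        one_mul]

end stage

end Pool.Agent.H78.Rk
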