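import Pool.Agent.H78.Rk.Glob

set_option autoImplicit false

open Polynomial Pool.Agent.H78.Tri

namespace Pool.Agent.H78.Rk

section kder
variable {k S G : Type*} [Field k] [CommRing S] [Algebra k S] [CommRing G] [Algebra k G]

theorem k_induced (θ : S →ₐ[k] G) (hθ : Function.Surjective θ) (δ : Derivation k S S)
    (h : ∀ s, θ s = 0 → θ (δ s) = 0) : ∃ δ' : Derivation k G G, ∀ s, δ' (θ s) = θ (δ s) := by
  classical
  have hwd : ∀ s t, θ s = θ t → θ (δ s) = θ (δ t) := by
    intro s t hst
    have : θ (s - t) = 0 := by rw [map_sub, hst, sub_self]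
    have := h _ this
    rwa [map_sub, map_sub, sub_eq_zero] at this
  choose g hg using hθ
  refine ⟨Derivation.mk' { toFun := fun x => θ (δ (g x)), map_add' := ?_, map_smul' := ?_ } ?_, ?_⟩
  · intro x y
    rw [hwd _ (g x + g y) (by rw [hg, map_add, hg, hg]), map_add, map_add]
  · intro r x
    rw [hwd _ (r • g x) (by rw [hg, map_smul, hg]), δ.map_smul, map_smul, RingHom.id_apply]
  · intro x y
    show θ (δ (g (x * y))) = x • θ (δ (g y)) + y • θ (δ (g x))
    rw [hwd _ (g x * g y) (by rw [hg, map_mul, hg, hg]), δ.leibniz, map_add, smul_eq_mul,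
      smul_eq_mul, map_mul, map_mul, hg, hg, smul_eq_mul, smul_eq_mul]
  · intro s
    exact hwd _ _ (hg _)

theorem k_LN_induced (θ : S →ₐ[k] G) (hθ : Function.Surjective θ) (δ : Derivation k S S)
    (δ' : Derivation k G G) (h : ∀ s, δ' (θ s) = θ (δ s)) (hδ : LN ⇑δ) : LN ⇑δ' := by
  have hit : ∀ n s, (⇑δ')^[n] (θ s) = θ ((⇑δ)^[n] s) := by
    intro n s
    induction n generalizing s with
    | zero => rfl
    | succ n ih => rw [Function.iterate_succ_apply, h, ih, Function.iterate_succ_apply]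
  intro x
  obtain ⟨s, rfl⟩ := hθ x
  obtain ⟨n, hn⟩ := hδ s
  exact ⟨n, by rw [hit, hn, map_zero]⟩

variable [IsDomain S]

theorem k_div (δ : Derivation k S S) (a : S) (ha : a ≠ 0) (h : ∀ s, a ∣ δ s) :
    ∃ δ' : Derivation k S S, ∀ s, δ s = a * δ' s := by
  choose F hF using h
  refine ⟨Derivation.mk' { toFun := F, map_add' := ?_, map_smul' := ?_ } ?_, hF⟩
  · intro x y
    apply mul_left_cancel₀ ha
    rw [mul_add, ← hF, ← hF, ← hF, map_add]
  · intro r b
    apply mul_left_cancel₀ ha
    rw [← hF, δ.map_smul, hF b, RingHom.id_apply, mul_smul_comm]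
  · intro x y
    apply mul_left_cancel₀ ha
    show a * F (x * y) = a * (x • F y + y • F x)
    rw [← hF, δ.leibniz, hF x, hF y]
    simp only [smul_eq_mul]; ring

theorem k_div_max (a : S) (ha : a ≠ 0) (s0 : S) (N : ℕ) : ∀ δ : Derivation k S S,
    ¬ a ^ N ∣ δ s0 →
    ∃ (δ' : Derivation k S S) (j : ℕ), (∀ s, δ s = a ^ j * δ' s) ∧ ∃ s, ¬ a ∣ δ' s := by
  induction N with
  | zero => intro δ h; exact absurd (by rw [pow_zero]; exact one_dvd _) h
  | succ N ih =>
    intro δ h
    by_cases h1 : ∃ s, ¬ a ∣ δ s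
    · exact ⟨δ, 0, fun s => by rw [pow_zero, one_mul], h1⟩
    · push Not at h1
      obtain ⟨δ1, hδ1⟩ := k_div δ a ha h1
      obtain ⟨δ', j, h2, h3⟩ := ih δ1 (by
        intro h2
        apply h
        rw [hδ1, pow_succ']
        exact mul_dvd_mul_left a h2)
      exact ⟨δ', j + 1, fun s => by rw [hδ1, h2, pow_succ']; ring, h3⟩

theorem k_LN_div (δ δ' : Derivation k S S) (a : S) (ha : a ≠ 0) (haD : δ' a = 0)
    (h : ∀ s, δ s = a * δ' s) (hδ : LN ⇑δ) : LN ⇑δ' := by
  have hit : ∀ n s, (⇑δ)^[n] s = a ^ n * (⇑δ')^[n] s := by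
    intro n s
    induction n generalizing s with
    | zero => simp
    | succ n ih =>
      rw [Function.iterate_succ_apply', ih, h, δ'.leibniz, Derivation.leibniz_pow, haD,
        ← Function.iterate_succ_apply' (⇑δ')]
      simp only [smul_eq_mul, smul_zero, mul_zero, add_zero, pow_succ]
      ring
  intro s
  obtain ⟨n, hn⟩ := hδ s
  refine ⟨n, ?_⟩
  rw [hit] at hn
  exact (mul_eq_zero.1 hn).resolve_left (pow_ne_zero _ ha)

end kder

section algker
variable {κ Q : Type*} [Field κ] [CharZero κ] [CommRing Q] [IsDomain Q] [Algebra κ Q]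

theorem k_der_sub2 (δ : Derivation κ Q Q) (c b : Q) (hc : δ c = 0) (F : κ[X][X]) :
    δ (sub2 c b F) = sub2 c b (derivative F) * δ b := by
  have h0 : ∀ f : κ[X], δ (aeval c f) = 0 := by
    intro f
    rw [Derivation.map_aeval, hc, smul_zero]
  induction F using Polynomial.induction_on' with
  | add p q hp hq => rw [map_add, map_add, hp, hq, derivative_add, map_add]; ring
  | monomial n f =>
    rw [sub2_monomial, δ.leibniz, h0, Derivation.leibniz_pow, derivative_monomial, sub2_monomial]
    simp only [smul_eq_mul, nsmul_eq_mul, mul_zero, add_zero, map_mul, map_natCast]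
    ring

theorem alg_ker (δ : Derivation κ Q Q) (c b : Q) (hc : δ c = 0) (n : ℕ) :
    ∀ F : κ[X][X], F.natDegree ≤ n → sub2 c b F = 0 → (∃ i, aeval c (F.coeff i) ≠ 0) →
      δ b = 0 := by
  have hchar : CharZero Q := charZero_of_injective_algebraMap (algebraMap κ Q).injective
  induction n with
  | zero =>
    intro F hF h0 ⟨i, hi⟩
    exfalso
    obtain ⟨q, rfl⟩ := natDegree_eq_zero.1 (Nat.le_zero.1 hF)
    rw [sub2_C] at h0
    rcases eq_or_ne i 0 with rfl | h
    · rw [coeff_C_zero] at hi; exact hi h0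
    · rw [coeff_C_of_ne_zero h, map_zero] at hi; exact hi rfl
  | succ n ih =>
    intro F hF h0 hi
    by_contra hb
    have h1 := k_der_sub2 δ c b hc F
    rw [h0, map_zero] at h1
    have h2 : sub2 c b (derivative F) = 0 := (mul_eq_zero.1 h1.symm).resolve_right hb
    by_cases hj : ∃ j, aeval c (F.coeff (j + 1)) ≠ 0
    · obtain ⟨j, hj⟩ := hj
      apply hb
      refine ih (derivative F) ?_ h2 ⟨j, ?_⟩
      · exact (natDegree_derivative_le F).trans (by omega)
      · rw [coeff_derivative, map_mul]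
        refine mul_ne_zero hj ?_
        have : (aeval c : κ[X] →ₐ[κ] Q) ((j : κ[X]) + 1) = ((j + 1 : ℕ) : Q) := by
          push_cast; simp
        rw [this]
        exact_mod_cast (Nat.succ_ne_zero j)
    · push Not at hj
      obtain ⟨i, hi⟩ := hi
      rcases i with _ | i
      · apply hi
        rw [sub2_eq_sum c b F (F.natDegree + 1) (degree_lt_iff_coeff_zero _ _ |>.2 (by
          intro m hm; exact coeff_eq_zero_of_natDegree_lt (by omega))), Finset.sum_range_succ'] at h0
        rw [Finset.sum_eq_zero (fun i _ => by rw [hj i, zero_mul]), zero_add, pow_zero, mul_one] at h0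
        exact h0
      · exact hi (hj i)

end algker

section all
variable {κ H : Type*} [Field κ] [CommRing H] [IsDomain H] [Algebra κ H]

theorem alg_all (τ q : H) (hinj : ∀ f : κ[X], aeval τ f = 0 → f = 0) (F0 : κ[X][X])
    (hF0 : F0 ≠ 0) (hF0' : sub2 τ q F0 = 0) (F : κ[X][X]) :
    ∃ G : κ[X][X], G ≠ 0 ∧ sub2 τ (sub2 τ q F) G = 0 := by
  let _ : Algebra κ[X] H := (aeval τ : κ[X] →ₐ[κ] H).toRingHom.toAlgebra
  have hae : ∀ (x : H) (F : κ[X][X]), aeval x F = sub2 τ x F := fun x F => rfl
  have hinj' : Function.Injective (algebraMap κ[X] H) := by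
    rw [injective_iff_map_eq_zero]
    exact hinj
  have : FaithfulSMul κ[X] H := (faithfulSMul_iff_algebraMap_injective _ _).2 hinj'
  have hq : IsAlgebraic κ[X] q := ⟨F0, hF0, hF0'⟩
  have hall : ∀ F : κ[X][X], IsAlgebraic κ[X] (sub2 τ q F) := by
    intro F
    rw [← hae]
    induction F using Polynomial.induction_on' with
    | add p q hp hq => rw [map_add]; exact hp.add hq
    | monomial n f => rw [aeval_monomial]; exact (isAlgebraic_algebraMap f).mul (hq.pow n)
  obtain ⟨G, hG, hG'⟩ := hall F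
  exact ⟨G, hG, hG'⟩

theorem sub2_swap {H : Type*} [CommRing H] [Algebra κ H] (a b : H) (G : κ[X][X]) :
    sub2 a b (Bivariate.swap G) = sub2 b a G := by
  have : (sub2 (R := κ) a b).comp (Bivariate.swap : κ[X][X] ≃ₐ[κ] κ[X][X]).toRingEquiv.toRingHom =
      sub2 (R := κ) b a := by
    apply Polynomial.ringHom_ext
    · intro q
      show sub2 a b (Bivariate.swap (C q)) = _
      rw [Bivariate.swap_C, sub2_mapC, sub2_C]
    · show sub2 a b (Bivariate.swap X) = _
      rw [Bivariate.swap_Y, sub2_C, sub2_X, aeval_X]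
  exact congrArg (fun φ => φ G) this

theorem mem_of_alg [IsAlgClosed κ] (c : H) (n : ℕ) : ∀ g : κ[X], g ≠ 0 → g.natDegree ≤ n →
    aeval c g = 0 → ∃ a : κ, c = algebraMap κ H a := by
  induction n with
  | zero =>
    intro g hg hn h
    exfalso
    obtain ⟨q, rfl⟩ := natDegree_eq_zero.1 (Nat.le_zero.1 hn)
    rw [aeval_C] at h
    have : q ≠ 0 := by rintro rfl; exact hg C_0
    exact this ((map_eq_zero_iff _ (algebraMap κ H).injective).1 h)
  | succ n ih =>
    intro g hg hn h
    rcases Nat.eq_zero_or_pos g.natDegree with h0 | h0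
    · exact ih g hg (by omega) h
    · obtain ⟨a, ha⟩ := IsAlgClosed.exists_root g (by
        rw [degree_eq_natDegree hg]; exact_mod_cast h0.ne')
      obtain ⟨g', rfl⟩ := dvd_iff_isRoot.2 ha
      rw [map_mul, mul_eq_zero] at h
      rcases h with h | h
      · refine ⟨a, ?_⟩
        rw [map_sub, aeval_X, aeval_C, sub_eq_zero] at h
        exact h
      · have hg' : g' ≠ 0 := right_ne_zero_of_mul hg
        refine ih g' hg' ?_ h
        rw [natDegree_mul (X_sub_C_ne_zero a) hg', natDegree_X_sub_C] at hn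
        omega

end all

end Pool.Agent.H78.Rk
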