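import Pool.Agent.H78.Rk.RA

set_option autoImplicit false

open Polynomial Pool.Agent.H78.Tri

namespace Pool.Agent.H78.Rk

theorem exists_quot.{u, v} {κ : Type v} {S : Type u} [Field κ] [CommRing S] [Algebra κ S]
    (f : S) (hf : Prime f) :
    ∃ (Q : Type u) (_ : CommRing Q) (_ : IsDomain Q) (_ : Algebra κ Q) (σ : S →ₐ[κ] Q),
      Function.Surjective σ ∧ ∀ F, σ F = 0 ↔ f ∣ F := by
  have hprime : (Ideal.span {f}).IsPrime := (Ideal.span_singleton_prime hf.ne_zero).2 hf
  refine ⟨S ⧸ Ideal.span {f}, inferInstance, Ideal.Quotient.isDomain _, inferInstance,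
    Ideal.Quotient.mkₐ κ (Ideal.span {f}), Ideal.Quotient.mkₐ_surjective κ _, ?_⟩
  intro F
  show Ideal.Quotient.mk _ F = 0 ↔ _
  rw [Ideal.Quotient.eq_zero_iff_mem, Ideal.mem_span_singleton]

section curve
variable {L : Type*} [Field L] [CharZero L] [IsAlgClosed L]

theorem sub2_CX_X (F : L[X][X]) : sub2 (R := L) (C X : L[X][X]) X F = F := by
  have : sub2 (R := L) (C X : L[X][X]) X = RingHom.id _ := by
    apply Polynomial.ringHom_ext
    · intro q
      rw [sub2_C, ← C_eq_aeval]; rfl
    · rw [sub2_X]; rfl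
  rw [this]; rfl

theorem curve_abs {Q : Type*} [CommRing Q] [IsDomain Q] [Algebra L Q]
    (f : L[X][X]) (hf : Prime f) (hfd : 1 ≤ f.natDegree)
    (σ : L[X][X] →ₐ[L] Q) (hσs : Function.Surjective σ) (hσ0 : ∀ F, σ F = 0 ↔ f ∣ F)
    (D : Derivation L L[X][X] L[X][X]) (hDf : D f = 0)
    (hne : ∃ g, ¬ f ∣ D g) (c : L[X][X]) (hc : f ∣ D c) : ∃ a : L, f ∣ c - C (C a) := by
  have hstep : ∀ s, σ s = 0 → σ (D s) = 0 := by
    intro s hs
    rw [hσ0] at hs ⊢
    obtain ⟨t, rfl⟩ := hs
    rw [D.leibniz, hDf, smul_zero, add_zero, smul_eq_mul]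
    exact dvd_mul_right _ _
  obtain ⟨δ, hδ⟩ := k_induced σ hσs D hstep
  set τ : Q := σ (C X) with hτ
  set z : Q := σ X with hz
  have hσF : ∀ F : L[X][X], σ F = sub2 τ z F := by
    intro F
    conv_lhs => rw [← sub2_CX_X F]
    rw [map_sub2']
  have htr : ∀ g : L[X], aeval τ g = 0 → g = 0 := by
    intro g hg
    have h1 : σ (C g) = 0 := by rw [hσF, sub2_C, hg]
    rw [hσ0] at h1
    by_contra hg0
    have h2 := natDegree_le_of_dvd h1 (by simpa using hg0)
    rw [natDegree_C] at h2
    omega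
  have hf0 : sub2 τ z f = 0 := by rw [← hσF, hσ0]
  have hδc : δ (σ c) = 0 := by rw [hδ, hσ0]; exact hc
  obtain ⟨G, hG, hG'⟩ := alg_all τ z htr f hf.ne_zero hf0 c
  rw [← hσF] at hG'
  by_cases hctr : ∀ g : L[X], aeval (σ c) g = 0 → g = 0
  · exfalso
    have h1 : δ τ = 0 := by
      have hsw : Bivariate.swap G ≠ 0 := by
        intro h; apply hG
        have := congrArg Bivariate.swap h
        rwa [Bivariate.swap_swap_apply, map_zero] at this
      apply alg_ker δ (σ c) τ hδc _ (Bivariate.swap G) le_rfl (by rw [sub2_swap, hG'])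
      obtain ⟨i, hi⟩ : ∃ i, (Bivariate.swap G).coeff i ≠ 0 := by
        by_contra hcon
        push Not at hcon
        exact hsw (by ext i : 1; rw [hcon i, coeff_zero])
      exact ⟨i, fun h => hi (hctr _ h)⟩
    have h2 : δ z = 0 := by
      apply alg_ker δ τ z h1 _ f le_rfl hf0
      obtain ⟨i, hi⟩ : ∃ i, f.coeff i ≠ 0 := by
        by_contra hcon
        push Not at hcon
        exact hf.ne_zero (by ext i : 1; rw [hcon i, coeff_zero])
      exact ⟨i, fun h => hi (htr _ h)⟩
    obtain ⟨g, hg⟩ := hne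
    apply hg
    rw [← hσ0, ← hδ, hσF, k_der_sub2 δ τ z h1, h2, mul_zero]
  · push Not at hctr
    obtain ⟨g, hg1, hg2⟩ := hctr
    obtain ⟨a, ha⟩ := mem_of_alg (σ c) _ g hg2 le_rfl hg1
    refine ⟨a, ?_⟩
    rw [← hσ0, map_sub, ha, sub_eq_zero]
    exact (σ.commutes a).symm

theorem curve_aux (f : L[X][X]) (hf : Prime f) (hfd : 1 ≤ f.natDegree)
    (D : Derivation L L[X][X] L[X][X]) (hDf : D f = 0)
    (hne : ∃ g, ¬ f ∣ D g) (c : L[X][X]) (hc : f ∣ D c) : ∃ a : L, f ∣ c - C (C a) := by
  obtain ⟨Q, h1, h2, h3, σ, h4, h5⟩ := exists_quot (κ := L) f hf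
  exact curve_abs f hf hfd σ h4 h5 D hDf hne c hc

/-- conjugation by the swap -/
noncomputable def swapD (D : Derivation L L[X][X] L[X][X]) : Derivation L L[X][X] L[X][X] :=
  Derivation.mk'
    { toFun := fun b => Bivariate.swap (D (Bivariate.swap b))
      map_add' := by intro a b; simp only [map_add]
      map_smul' := by intro r b; simp only [map_smul, RingHom.id_apply, D.map_smul] }
    (by
      intro a b
      show Bivariate.swap (D (Bivariate.swap (a * b))) = _
      rw [map_mul, D.leibniz, map_add, smul_eq_mul, smul_eq_mul, map_mul, map_mul,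
        Bivariate.swap_swap_apply, Bivariate.swap_swap_apply]
      rfl)

theorem swapD_apply (D : Derivation L L[X][X] L[X][X]) (b : L[X][X]) :
    swapD D b = Bivariate.swap (D (Bivariate.swap b)) := rfl

theorem curve (f : L[X][X]) (hf : Prime f) (D : Derivation L L[X][X] L[X][X]) (hDf : D f = 0)
    (hne : ∃ g, ¬ f ∣ D g) (c : L[X][X]) (hc : f ∣ D c) : ∃ a : L, f ∣ c - C (C a) := by
  rcases Nat.eq_zero_or_pos f.natDegree with h0 | h0
  · have hsw : ∀ a b : L[X][X], a ∣ b → Bivariate.swap a ∣ Bivariate.swap b := by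
      rintro a _ ⟨t, rfl⟩
      exact ⟨Bivariate.swap t, map_mul _ _ _⟩
    have hf' : Prime (Bivariate.swap f) := by
      exact (MulEquiv.prime_iff (Bivariate.swap : L[X][X] ≃ₐ[L] L[X][X]).toMulEquiv).2 hf
    have hd : 1 ≤ (Bivariate.swap f).natDegree := by
      obtain ⟨q, rfl⟩ := natDegree_eq_zero.1 h0
      rw [Bivariate.swap_C, natDegree_map_eq_of_injective C_injective]
      by_contra hlt
      have : q.natDegree = 0 := by omega
      obtain ⟨a, rfl⟩ := natDegree_eq_zero.1 this
      apply hf.not_isUnit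
      have ha : a ≠ 0 := by rintro rfl; exact hf.ne_zero (by simp)
      exact ((isUnit_iff_ne_zero.2 ha).map C).map C
    obtain ⟨a, ha⟩ := curve_aux (Bivariate.swap f) hf' hd (swapD D)
      (by rw [swapD_apply, Bivariate.swap_swap_apply, hDf, map_zero])
      (by
        obtain ⟨g, hg⟩ := hne
        refine ⟨Bivariate.swap g, fun h => hg ?_⟩
        rw [swapD_apply, Bivariate.swap_swap_apply] at h
        have := hsw _ _ h
        rwa [Bivariate.swap_swap_apply, Bivariate.swap_swap_apply] at this)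
      (Bivariate.swap c)
      (by rw [swapD_apply, Bivariate.swap_swap_apply]; exact hsw _ _ hc)
    refine ⟨a, ?_⟩
    have := hsw _ _ ha
    rwa [Bivariate.swap_swap_apply, map_sub, Bivariate.swap_swap_apply, Bivariate.swap_C_C] at this
  · exact curve_aux f hf h0 D hDf hne c hc

end curve

section rent
variable {L : Type*} [Field L] [CharZero L] [IsAlgClosed L]

/-- a size function -/
noncomputable def sz (b : L[X][X]) : ℕ := b.natDegree + b.leadingCoeff.natDegree

omit [CharZero L] [IsAlgClosed L] in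
theorem sz_mul (a b : L[X][X]) (ha : a ≠ 0) (hb : b ≠ 0) : sz (a * b) = sz a + sz b := by
  rw [sz, sz, sz, natDegree_mul ha hb, leadingCoeff_mul,
    natDegree_mul (leadingCoeff_ne_zero.2 ha) (leadingCoeff_ne_zero.2 hb)]
  ring

omit [CharZero L] [IsAlgClosed L] in
theorem sz_pos (b : L[X][X]) (hb : ∀ c, b ≠ C (C c)) : 0 < sz b := by
  rcases Nat.eq_zero_or_pos b.natDegree with h0 | h0
  · obtain ⟨q, rfl⟩ := natDegree_eq_zero.1 h0
    rcases Nat.eq_zero_or_pos q.natDegree with h1 | h1
    · obtain ⟨c, rfl⟩ := natDegree_eq_zero.1 h1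
      exact absurd rfl (hb c)
    · rw [sz, leadingCoeff_C]; omega
  · rw [sz]; omega

/-- The kernel is generated by a prime element. -/
theorem ker_gen (D : Derivation L L[X][X] L[X][X]) (hD : LN ⇑D) (hne : ∃ s, D s ≠ 0)
    (f : L[X][X]) (hf : Prime f) (hDf : D f = 0) (g : L[X][X]) (hg : D g = 0) :
    ∃ q : L[X], g = aeval f q := by
  obtain ⟨s0, hs0⟩ := hne
  obtain ⟨N, hN⟩ := FiniteMultiplicity.of_prime_left hf hs0
  obtain ⟨D1, j, h1, hne1⟩ := k_div_max f hf.ne_zero s0 (N + 1) D hN
  have hfj : f ^ j ≠ 0 := pow_ne_zero _ hf.ne_zero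
  have hk : ∀ b, D b = 0 → D1 b = 0 := by
    intro b hb
    have := h1 b
    rw [hb] at this
    exact (mul_eq_zero.1 this.symm).resolve_left hfj
  have hnc : ∀ c, f ≠ C (C c) := by
    intro c hc
    apply hf.not_isUnit
    have ha : c ≠ 0 := by rintro rfl; exact hf.ne_zero (by rw [hc]; simp)
    rw [hc]
    exact ((isUnit_iff_ne_zero.2 ha).map C).map C
  have hfs := sz_pos f hnc
  induction hn : sz g using Nat.strong_induction_on generalizing g with
  | _ n ih =>
    by_cases hgc : ∃ c, g = C (C c)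
    · obtain ⟨c, rfl⟩ := hgc
      exact ⟨C c, by rw [aeval_C]; rfl⟩
    · push Not at hgc
      obtain ⟨a, g1, hg1⟩ := curve f hf D1 (hk f hDf) hne1 g (by rw [hk g hg]; exact dvd_zero _)
      have hg1' : D g1 = 0 := by
        have h2 : D (f * g1) = 0 := by rw [← hg1, map_sub, hg, D_CC, sub_zero]
        rw [D.leibniz, hDf, smul_zero, add_zero, smul_eq_mul] at h2
        exact (mul_eq_zero.1 h2).resolve_left hf.ne_zero
      have hg10 : g1 ≠ 0 := by
        rintro rfl
        rw [mul_zero, sub_eq_zero] at hg1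
        exact hgc a hg1
      have hsz : sz g1 < n := by
        have h3 : sz g = sz f + sz g1 := by
          rw [← sz_mul f g1 hf.ne_zero hg10, ← hg1]
          have h4 : g = (g - C (C a)) + C (C a) := by ring
          rcases Nat.eq_zero_or_pos g.natDegree with h0 | h0
          · obtain ⟨q, rfl⟩ := natDegree_eq_zero.1 h0
            rw [← C_sub]
            simp only [sz, natDegree_C, leadingCoeff_C, zero_add, natDegree_sub_C]
          · have h5 : (g - C (C a)).natDegree = g.natDegree := natDegree_sub_C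
            have h6 : (g - C (C a)).leadingCoeff = g.leadingCoeff := by
              rw [leadingCoeff, h5, coeff_sub, coeff_C_of_ne_zero h0.ne', sub_zero]
              rfl
            rw [sz, sz, h5, h6]
        omega
      obtain ⟨q, hq⟩ := ih _ hsz g1 hg1' rfl
      refine ⟨C a + X * q, ?_⟩
      rw [map_add, map_mul, aeval_C, aeval_X, ← hq, ← hg1]
      show g = C (C a) + (g - C (C a))
      ring

end rent

end Pool.Agent.H78.Rk
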