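import Pool.Agent.H78.Rk.RB

set_option autoImplicit false

open Polynomial Pool.Agent.H78.Tri

namespace Pool.Agent.H78.Rk

section rent
variable {L : Type*} [Field L] [CharZero L]

/-- a derivation with a slice: generation -/
theorem slice_gen (D : Derivation L L[X][X] L[X][X]) (hD : LN ⇑D) (f s : L[X][X]) (c : L)
    (hc : c ≠ 0) (hs : D s = C (C c)) (hDf : D f = 0)
    (hker : ∀ a, D a = 0 → ∃ q : L[X], a = aeval f q) (b : L[X][X]) :
    ∃ F : L[X][X], b = sub2 f s F := by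
  have hs1 : DegC D 1 s := ⟨c, hc, by
    show D s = _
    rw [hs, smul_eq_CC, mul_one]⟩
  have key : ∀ n, ∀ b, (⇑D)^[n] b = 0 → ∃ F : L[X][X], b = sub2 f s F := by
    intro n
    induction n with
    | zero => intro b hb; exact ⟨0, by simpa using hb⟩
    | succ n ih =>
      intro b hb
      have hb' : D ((⇑D)^[n] b) = 0 := by rw [← Function.iterate_succ_apply' (⇑D)]; exact hb
      obtain ⟨q, hq⟩ := hker _ hb'
      have h1 := hs1.pow n
      rw [one_mul] at h1
      obtain ⟨r, hr, hr'⟩ := h1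
      obtain ⟨F, hF⟩ := ih (b - aeval f (C r⁻¹ * q) * s ^ n) (by
        rw [iterate_map_sub, iter_ker_mul D _ _ _ (D_aeval D f hDf _), hr', map_mul, aeval_C, hq,
          Algebra.smul_def]
        have : (algebraMap L L[X][X] r⁻¹) * algebraMap L L[X][X] r = 1 := by
          rw [← map_mul, inv_mul_cancel₀ hr, map_one]
        linear_combination (-aeval f q) * this)
      refine ⟨F + C (C r⁻¹ * q) * X ^ n, ?_⟩
      have e1 : sub2 f s (C (C r⁻¹ * q) * X ^ n) = aeval f (C r⁻¹ * q) * s ^ n := by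
        rw [RingHom.map_mul, RingHom.map_pow, sub2_X, sub2_C]
      rw [map_add, ← hF, e1]
      ring
  obtain ⟨n, hn⟩ := hD b
  exact key n b hn

omit [CharZero L] in
theorem nonunit_of_nonconst (f : L[X][X]) (hf : ∀ c, f ≠ C (C c)) : ¬ IsUnit f := by
  intro hu
  obtain ⟨r, hr, hr'⟩ := Polynomial.isUnit_iff.1 hu
  obtain ⟨c, hc, hc'⟩ := Polynomial.isUnit_iff.1 hr
  exact hf c (by rw [← hr', ← hc'])

theorem exists_prime_ker (D : Derivation L L[X][X] L[X][X]) (hD : LN ⇑D) (hne : ∃ s, D s ≠ 0) :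
    ∃ f, Prime f ∧ D f = 0 := by
  have h1 : ∃ f1, D f1 = 0 ∧ ∀ c, f1 ≠ C (C c) := by
    by_contra hcon
    push Not at hcon
    obtain ⟨s, hs, hs'⟩ := exists_slice D hD hne
    obtain ⟨c, hc⟩ := hcon _ hs'
    have hc0 : c ≠ 0 := by rintro rfl; exact hs (by rw [hc]; simp)
    have hgen := slice_gen D hD 0 s c hc0 hc (map_zero D) (fun a ha => by
      obtain ⟨c, hc⟩ := hcon a ha
      exact ⟨C c, by rw [aeval_C, hc]; rfl⟩)
    have hsurj : Function.Surjective (sub2 (R := L) (0 : L[X][X]) s) := by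
      intro b
      obtain ⟨F, hF⟩ := hgen b
      exact ⟨F, hF.symm⟩
    have h2 : (C X : L[X][X]) = 0 := by
      apply hopf _ hsurj
      rw [sub2_C, aeval_X, map_zero]
    exact X_ne_zero (C_eq_zero.1 h2)
  obtain ⟨f1, hf1, hf1c⟩ := h1
  have hf10 : f1 ≠ 0 := by rintro rfl; exact hf1c 0 (by simp)
  obtain ⟨f, hf, hdvd⟩ := WfDvdMonoid.exists_irreducible_factor (nonunit_of_nonconst f1 hf1c) hf10
  exact ⟨f, UniqueFactorizationMonoid.irreducible_iff_prime.1 hf, dvd_closed D hD f f1 hf10 hdvd hf1⟩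

omit [CharZero L] in
theorem prime_nonconst (f : L[X][X]) (hf : Prime f) (c : L) : f ≠ C (C c) := by
  intro hc
  apply hf.not_isUnit
  have ha : c ≠ 0 := by rintro rfl; exact hf.ne_zero (by rw [hc]; simp)
  rw [hc]
  exact ((isUnit_iff_ne_zero.2 ha).map C).map C

theorem nonconst_transc (f : L[X][X]) (hf : ∀ c, f ≠ C (C c)) (g : L[X]) (hg : aeval f g = 0) :
    g = 0 := by
  obtain ⟨ρ, hρ⟩ := exists_rho f hf
  exact transc_of_rho ρ _ hρ g hg

variable [IsAlgClosed L]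

theorem prime_shift (D : Derivation L L[X][X] L[X][X]) (hD : LN ⇑D) (hne : ∃ s, D s ≠ 0)
    (f : L[X][X]) (hf : Prime f) (hDf : D f = 0) (a : L) : Prime (f - C (C a)) := by
  have hfc := prime_nonconst f hf
  have h1 : ∀ c, f - C (C a) ≠ C (C c) := by
    intro c hc
    apply hfc (c + a)
    rw [C_add, C_add, ← hc]; ring
  have h0 : f - C (C a) ≠ 0 := by
    intro h; exact h1 0 (by rw [h]; simp)
  have hDa : D (f - C (C a)) = 0 := by rw [map_sub, hDf, D_CC, sub_zero]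
  obtain ⟨h, hh, h', hh'⟩ := WfDvdMonoid.exists_irreducible_factor
    (nonunit_of_nonconst _ h1) h0
  have hhp : Prime h := UniqueFactorizationMonoid.irreducible_iff_prime.1 hh
  have hDh : D h = 0 := dvd_closed D hD h _ h0 ⟨h', hh'⟩ hDa
  have hDh' : D h' = 0 := dvd_closed D hD h' _ h0 ⟨h, by rw [hh', mul_comm]⟩ hDa
  obtain ⟨q, hq⟩ := ker_gen D hD hne f hf hDf h hDh
  obtain ⟨q', hq'⟩ := ker_gen D hD hne f hf hDf h' hDh'
  have h2 : (X - C a : L[X]) = q * q' := by
    rw [← sub_eq_zero]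
    apply nonconst_transc f hfc
    rw [map_sub, map_sub, map_mul, aeval_X, aeval_C, ← hq, ← hq', ← hh']
    show f - C (C a) - (f - C (C a)) = 0
    ring
  have h3 : IsUnit q ∨ IsUnit q' := (irreducible_X_sub_C a).isUnit_or_isUnit h2
  have h4 : ¬ IsUnit q := by
    intro hu
    apply hh.not_isUnit
    rw [hq]; exact hu.map (aeval f : L[X] →ₐ[L] L[X][X])
  have h5 : IsUnit h' := by
    rw [hq']; exact (h3.resolve_left h4).map (aeval f : L[X] →ₐ[L] L[X][X])
  rw [hh']
  exact ((associated_mul_unit_right h h' h5).prime_iff).1 hhp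

theorem min_slice (f : L[X][X]) (hf : Prime f) (m : ℕ) : ∀ (D : Derivation L L[X][X] L[X][X])
    (s : L[X][X]) (g : L[X]), LN ⇑D → D f = 0 → D s = aeval f g → g ≠ 0 → g.natDegree ≤ m →
    ∃ (D' : Derivation L L[X][X] L[X][X]) (s' : L[X][X]) (c : L) (a : L[X]), c ≠ 0 ∧ a ≠ 0 ∧
      LN ⇑D' ∧ D' f = 0 ∧ (∀ b, D b = aeval f a * D' b) ∧ D' s' = C (C c) := by
  have htr := nonconst_transc f (prime_nonconst f hf)
  have hconst : ∀ (D : Derivation L L[X][X] L[X][X])
    (s : L[X][X]) (g : L[X]), LN ⇑D → D f = 0 → D s = aeval f g → g ≠ 0 → g.natDegree = 0 →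
    ∃ (D' : Derivation L L[X][X] L[X][X]) (s' : L[X][X]) (c : L) (a : L[X]), c ≠ 0 ∧ a ≠ 0 ∧
      LN ⇑D' ∧ D' f = 0 ∧ (∀ b, D b = aeval f a * D' b) ∧ D' s' = C (C c) := by
    intro D s g hD hDf hDs hg hd
    obtain ⟨c, rfl⟩ := natDegree_eq_zero.1 hd
    refine ⟨D, s, c, 1, ?_, one_ne_zero, hD, hDf, ?_, ?_⟩
    · rintro rfl; exact hg C_0
    · intro b; rw [map_one, one_mul]
    · rw [hDs, aeval_C]; rfl
  induction m with
  | zero =>
    intro D s g hD hDf hDs hg hd
    exact hconst D s g hD hDf hDs hg (by omega)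
  | succ m ih =>
    intro D s g hD hDf hDs hg hd
    rcases Nat.eq_zero_or_pos g.natDegree with h0 | h0
    · exact hconst D s g hD hDf hDs hg h0
    obtain ⟨a, ha⟩ := IsAlgClosed.exists_root g (by
      rw [degree_eq_natDegree hg]; exact_mod_cast h0.ne')
    obtain ⟨g1, rfl⟩ := dvd_iff_isRoot.2 ha
    have hg1 : g1 ≠ 0 := right_ne_zero_of_mul hg
    have hd1 : g1.natDegree ≤ m := by
      rw [natDegree_mul (X_sub_C_ne_zero a) hg1, natDegree_X_sub_C] at hd
      omega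
    have hfa : aeval f (X - C a) = f - C (C a) := by
      rw [map_sub, aeval_X, aeval_C]; rfl
    have hDs0 : D s ≠ 0 := by
      rw [hDs]; intro h; exact hg (htr _ h)
    have hne : ∃ s, D s ≠ 0 := ⟨s, hDs0⟩
    have hfp := prime_shift D hD hne f hf hDf a
    have hDfa : D (f - C (C a)) = 0 := by rw [map_sub, hDf, D_CC, sub_zero]
    by_cases hall : ∀ b, f - C (C a) ∣ D b
    · obtain ⟨D1, hD1⟩ := k_div D _ hfp.ne_zero hall
      have hD1f : D1 f = 0 := by
        have := hD1 f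
        rw [hDf] at this
        exact (mul_eq_zero.1 this.symm).resolve_left hfp.ne_zero
      have hD1fa : D1 (f - C (C a)) = 0 := by rw [map_sub, hD1f, D_CC, sub_zero]
      have hLN1 : LN ⇑D1 := k_LN_div D D1 _ hfp.ne_zero hD1fa hD1 hD
      have hD1s : D1 s = aeval f g1 := by
        apply mul_left_cancel₀ hfp.ne_zero
        rw [← hD1, hDs, map_mul, hfa]
      obtain ⟨D', s', c, a', h1, h2, h3, h4, h5, h6⟩ := ih D1 s g1 hLN1 hD1f hD1s hg1 hd1
      refine ⟨D', s', c, (X - C a) * a', h1, mul_ne_zero (X_sub_C_ne_zero a) h2, h3, h4, ?_, h6⟩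
      intro b
      rw [hD1, h5, map_mul, hfa]; ring
    · push Not at hall
      obtain ⟨c, s1, hs1⟩ := curve (f - C (C a)) hfp D hDfa hall s
        ⟨aeval f g1, by rw [hDs, map_mul, hfa]⟩
      have hDs1 : D s1 = aeval f g1 := by
        apply mul_left_cancel₀ hfp.ne_zero
        have h1 : D ((f - C (C a)) * s1) = D s := by rw [← hs1, map_sub, D_CC, sub_zero]
        rw [D.leibniz, hDfa, smul_zero, add_zero, smul_eq_mul, hDs, map_mul, hfa] at h1
        exact h1
      exact ih D s1 g1 hD hDf hDs1 hg1 hd1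

/-- Rentschler's theorem over an algebraically closed field. -/
theorem rent_closed (D : Derivation L L[X][X] L[X][X]) (hD : LN ⇑D) (hne : ∃ s, D s ≠ 0) :
    ∃ (f s : L[X][X]) (φ : L[X]), (∀ c, f ≠ C (C c)) ∧ D f = 0 ∧ φ ≠ 0 ∧ D s = aeval f φ ∧
      (∀ a, D a = 0 → ∃ q : L[X], a = aeval f q) ∧ ∀ b, ∃ F : L[X][X], b = sub2 f s F := by
  obtain ⟨f, hf, hDf⟩ := exists_prime_ker D hD hne
  have hker := ker_gen D hD hne f hf hDf
  obtain ⟨s, hs, hs'⟩ := exists_slice D hD hne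
  obtain ⟨g, hg⟩ := hker _ hs'
  have hg0 : g ≠ 0 := by rintro rfl; exact hs (by rw [hg, map_zero])
  obtain ⟨D', s', c, a, hc, ha, hD', hD'f, hDD', hD's'⟩ := min_slice f hf _ D s g hD hDf hg hg0 le_rfl
  refine ⟨f, s', C c * a, prime_nonconst f hf, hDf, mul_ne_zero (by simpa using hc) ha, ?_, hker, ?_⟩
  · rw [hDD', hD's', map_mul, aeval_C, mul_comm]; rfl
  · apply slice_gen D' hD' f s' c hc hD's' hD'f
    intro x hx
    apply hker
    rw [hDD', hx, mul_zero]

end rent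

end Pool.Agent.H78.Rk
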