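import Pool.Agent.H78.Rk.RC

set_option autoImplicit false

open Polynomial Pool.Agent.H78.Tri

namespace Pool.Agent.H78.Rk

section bc
variable {R R' : Type*} [CommRing R] [CommRing R'] (j : R →+* R')

/-- base change of coefficients -/
noncomputable def J : R[X][X] →+* R'[X][X] := mapRingHom (mapRingHom j)

theorem J_CC (r : R) : J j (C (C r)) = C (C (j r)) := by simp [J]
theorem J_C (f : R[X]) : J j (C f) = C (f.map j) := by simp [J]
theorem J_X : J j X = X := by simp [J]
theorem J_CX : J j (C X) = C X := by simp [J]

theorem J_inj (hj : Function.Injective j) : Function.Injective (J j) :=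
  map_injective _ (map_injective _ hj)

omit [CommRing R'] in
theorem ind3 {P : R[X][X] → Prop} (hC : ∀ r, P (C (C r))) (hY : P (C X)) (hX : P X)
    (hadd : ∀ a b, P a → P b → P (a + b)) (hmul : ∀ a b, P a → P b → P (a * b)) (b : R[X][X]) :
    P b := by
  have h1 : P 1 := by have := hC 1; rwa [C_1, C_1] at this
  have hpow : ∀ a, P a → ∀ n : ℕ, P (a ^ n) := by
    intro a ha n
    induction n with
    | zero => rw [pow_zero]; exact h1
    | succ n ih => rw [pow_succ]; exact hmul _ _ ih ha
  have hCf : ∀ f : R[X], P (C f) := by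
    intro f
    induction f using Polynomial.induction_on' with
    | add p q hp hq => rw [C_add]; exact hadd _ _ hp hq
    | monomial n r =>
      rw [← C_mul_X_pow_eq_monomial, C_mul, C_pow]
      exact hmul _ _ (hC r) (hpow _ hY n)
  induction b using Polynomial.induction_on' with
  | add p q hp hq => exact hadd _ _ hp hq
  | monomial n f =>
    rw [← C_mul_X_pow_eq_monomial]
    exact hmul _ _ (hCf f) (hpow _ hX n)

theorem span_ind {P : R'[X][X] → Prop} (hadd : ∀ a b, P a → P b → P (a + b))
    (hspan : ∀ (c : R') (b : R[X][X]), P (C (C c) * J j b)) (y : R'[X][X]) : P y := by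
  induction y using Polynomial.induction_on' with
  | add p q hp hq => exact hadd _ _ hp hq
  | monomial n f =>
    induction f using Polynomial.induction_on' with
    | add p q hp hq => rw [map_add]; exact hadd _ _ hp hq
    | monomial m c =>
      have : monomial n (monomial m c) = C (C c) * J j ((C X) ^ m * X ^ n) := by
        rw [map_mul, map_pow, map_pow, J_X, J_CX, ← C_mul_X_pow_eq_monomial,
          ← C_mul_X_pow_eq_monomial, C_mul, C_pow]
        ring
      rw [this]
      exact hspan _ _

theorem bc (D : Derivation R R[X][X] R[X][X]) (hD : LN ⇑D) :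
    ∃ D' : Derivation R' R'[X][X] R'[X][X], (∀ b, D' (J j b) = J j (D b)) ∧ LN ⇑D' := by
  let D' : Derivation R' R'[X][X] R'[X][X] := J j (D (C X)) • E2 R' + J j (D X) • E1 R'
  have hD'a : ∀ b, D' b = J j (D (C X)) * E2 R' b + J j (D X) * E1 R' b := by
    intro b; rfl
  have h1 : ∀ b, D' (J j b) = J j (D b) := by
    intro b
    induction b using ind3 with
    | hC r => rw [J_CC, D_CC, D_CC, map_zero]
    | hY => rw [J_CX, hD'a, E2_V1, E1_V1]; ring
    | hX => rw [J_X, hD'a, E2_V2, E1_V2]; ring
    | hadd a b ha hb => rw [map_add, map_add, map_add, map_add, ha, hb]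
    | hmul a b ha hb =>
      rw [map_mul, D'.leibniz, D.leibniz, ha, hb]
      simp only [smul_eq_mul, map_add, map_mul]
  refine ⟨D', h1, ?_⟩
  have hit : ∀ n (c : R') (b : R[X][X]), (⇑D')^[n] (C (C c) * J j b) =
      C (C c) * J j ((⇑D)^[n] b) := by
    intro n c b
    induction n generalizing b with
    | zero => rfl
    | succ n ih =>
      rw [Function.iterate_succ_apply, D'.leibniz, D_CC, h1, smul_zero, add_zero, smul_eq_mul, ih,
        Function.iterate_succ_apply]
  intro y
  induction y using span_ind j with
  | hadd a b ha hb =>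
    obtain ⟨m, hm⟩ := ha
    obtain ⟨n, hn⟩ := hb
    refine ⟨m + n, ?_⟩
    rw [iterate_map_add, iter_zero_of_le D' (by omega) hm, iter_zero_of_le D' (by omega) hn,
      add_zero]
  | hspan c b =>
    obtain ⟨n, hn⟩ := hD b
    exact ⟨n, by rw [hit, hn, map_zero, mul_zero]⟩

theorem J_sub2 (P w F : R[X][X]) : J j (sub2 P w F) = sub2 (J j P) (J j w) (J j F) := by
  have haev : ∀ q : R[X], J j (aeval P q) = aeval (J j P) (q.map j) := by
    intro q
    induction q using Polynomial.induction_on' with
    | add p q hp hq => rw [map_add, map_add, Polynomial.map_add, map_add, hp, hq]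
    | monomial n r =>
      rw [aeval_monomial, map_mul, map_pow, Polynomial.map_monomial, aeval_monomial]
      congr 1
      exact J_CC j r
  have : (J j).comp (sub2 (R := R) P w) = (sub2 (R := R') (J j P) (J j w)).comp (J j) := by
    apply Polynomial.ringHom_ext
    · intro q
      simp only [RingHom.comp_apply, sub2_C]
      rw [haev, J_C, sub2_C]
    · simp only [RingHom.comp_apply, sub2_X, J_X]
  exact congrArg (fun φ => φ F) this

theorem J_aeval (P : R[X][X]) (q : R[X]) : J j (aeval P q) = aeval (J j P) (q.map j) := by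
  have := J_sub2 j P 0 (C q)
  rwa [sub2_C, J_C, sub2_C] at this

theorem sub2_comp {S : Type*} [CommRing S] [Algebra R S] {P w P1 w1 : S} {FP Fw : R[X][X]}
    (hFP : sub2 P1 w1 FP = P) (hFw : sub2 P1 w1 Fw = w) (F : R[X][X]) :
    sub2 P w F = sub2 P1 w1 (sub2 FP Fw F) := by
  have : (sub2 (R := R) P w) = (sub2 (R := R) P1 w1).comp (sub2 (R := R) FP Fw) := by
    apply Polynomial.ringHom_ext
    · intro q
      simp only [RingHom.comp_apply, sub2_C]
      induction q using Polynomial.induction_on' with
      | add p q hp hq => rw [map_add, map_add, map_add, hp, hq]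
      | monomial n r =>
        rw [aeval_monomial, aeval_monomial, map_mul, map_pow, hFP]
        congr 1
        have : (algebraMap R R[X][X] r) = C (C r) := rfl
        rw [this, sub2_CC]
    · simp only [RingHom.comp_apply, sub2_X, hFw]
  exact congrArg (fun φ => φ F) this

end bc

section coeffmap
variable {A A' : Type*} [CommRing A] [CommRing A']

/-- coefficientwise additive map -/
noncomputable def coeffMap (f : A →+ A') : A[X] →+ A'[X] where
  toFun p := ∑ n ∈ Finset.range (p.natDegree + 1), monomial n (f (p.coeff n))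
  map_zero' := by simp
  map_add' p q := by
    have key : ∀ p : A[X], ∀ m, (∑ n ∈ Finset.range (p.natDegree + 1),
        monomial n (f (p.coeff n))).coeff m = f (p.coeff m) := by
      intro p m
      rw [finsetSum_coeff]
      simp only [coeff_monomial]
      rw [Finset.sum_ite_eq']
      split_ifs with h
      · rfl
      · rw [coeff_eq_zero_of_natDegree_lt (by
          have : ¬ m < p.natDegree + 1 := fun h' => h (Finset.mem_range.2 h')
          omega), map_zero]
    ext m
    rw [coeff_add, key, key, key, coeff_add, map_add]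

theorem coeffMap_coeff (f : A →+ A') (p : A[X]) (m : ℕ) :
    (coeffMap f p).coeff m = f (p.coeff m) := by
  show (∑ n ∈ Finset.range (p.natDegree + 1), monomial n (f (p.coeff n))).coeff m = _
  rw [finsetSum_coeff]
  simp only [coeff_monomial]
  rw [Finset.sum_ite_eq']
  split_ifs with h
  · rfl
  · rw [coeff_eq_zero_of_natDegree_lt (by
      have : ¬ m < p.natDegree + 1 := fun h' => h (Finset.mem_range.2 h')
      omega), map_zero]

theorem coeffMap_natDegree (f : A →+ A') (p : A[X]) : (coeffMap f p).natDegree ≤ p.natDegree := by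
  rw [natDegree_le_iff_coeff_eq_zero]
  intro N hN
  rw [coeffMap_coeff, coeff_eq_zero_of_natDegree_lt hN, map_zero]

theorem coeffMap_C (f : A →+ A') (a : A) : coeffMap f (C a) = C (f a) := by
  ext m
  rw [coeffMap_coeff]
  rcases eq_or_ne m 0 with rfl | h
  · rw [coeff_C_zero, coeff_C_zero]
  · rw [coeff_C_of_ne_zero h, coeff_C_of_ne_zero h, map_zero]

end coeffmap

section lam
variable {K L : Type*} [Field K] [Field L] [Algebra K L] (lam : L →ₗ[K] K)

/-- the coefficientwise functional on two-variable polynomials -/
noncomputable def Lam : L[X][X] →+ K[X][X] := coeffMap (coeffMap lam.toAddMonoidHom)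

theorem Lam_coeff (y : L[X][X]) (n m : ℕ) :
    ((Lam lam y).coeff n).coeff m = lam ((y.coeff n).coeff m) := by
  rw [Lam, coeffMap_coeff, coeffMap_coeff]; rfl

theorem Lam_span (c : L) (b : K[X][X]) :
    Lam lam (C (C c) * J (algebraMap K L) b) = C (C (lam c)) * b := by
  ext n m
  rw [Lam_coeff, coeff_C_mul, coeff_C_mul, coeff_C_mul, coeff_C_mul]
  have : ((J (algebraMap K L) b).coeff n).coeff m = algebraMap K L ((b.coeff n).coeff m) := by
    simp [J]
  rw [this, mul_comm, ← Algebra.smul_def, map_smul, smul_eq_mul, mul_comm]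

theorem Lam_D (D : Derivation K K[X][X] K[X][X]) (D' : Derivation L L[X][X] L[X][X])
    (h : ∀ b, D' (J (algebraMap K L) b) = J (algebraMap K L) (D b)) (y : L[X][X]) :
    Lam lam (D' y) = D (Lam lam y) := by
  induction y using span_ind (algebraMap K L) with
  | hadd a b ha hb => rw [map_add, map_add, map_add, map_add, ha, hb]
  | hspan c b =>
    rw [D'.leibniz, D_CC, h, smul_zero, add_zero, smul_eq_mul, Lam_span, Lam_span, D.leibniz, D_CC,
      smul_zero, add_zero, smul_eq_mul]

theorem Lam_sub2 (f q : K[X][X]) (F : L[X][X]) :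
    Lam lam (sub2 (J (algebraMap K L) f) (J (algebraMap K L) q) F) = sub2 f q (Lam lam F) := by
  induction F using span_ind (algebraMap K L) with
  | hadd a b ha hb => rw [map_add, map_add, map_add, map_add, ha, hb]
  | hspan c b =>
    have h1 : sub2 (J (algebraMap K L) f) (J (algebraMap K L) q)
        (C (C c) * J (algebraMap K L) b) = C (C c) * J (algebraMap K L) (sub2 f q b) := by
      rw [map_mul, J_sub2]
      congr 1
      exact sub2_CC (R := L) (J (algebraMap K L) f) (J (algebraMap K L) q) c
    rw [h1, Lam_span, Lam_span, map_mul]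
    congr 1
    exact (sub2_CC (R := K) f q (lam c)).symm

end lam

end Pool.Agent.H78.Rk
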