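import Pool.Agent.H78.Rk.RD

set_option autoImplicit false

open Polynomial Pool.Agent.H78.Tri

namespace Pool.Agent.H78.Rk

section
variable {K L : Type*} [Field K] [Field L] [Algebra K L]

theorem exists_functional (c : L) (hc : c ≠ 0) : ∃ lam : L →ₗ[K] K, lam c ≠ 0 := by
  by_contra hcon
  push Not at hcon
  exact hc ((Module.forall_dual_apply_eq_zero_iff K c).1 hcon)

theorem exists_functional_one : ∃ lam : L →ₗ[K] K, lam 1 = 1 := by
  obtain ⟨lam, hlam⟩ := exists_functional (K := K) (1 : L) one_ne_zero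
  exact ⟨(lam 1)⁻¹ • lam, by
    rw [LinearMap.smul_apply, smul_eq_mul, inv_mul_cancel₀ hlam]⟩

theorem Lam_C (lam : L →ₗ[K] K) (f : L[X]) :
    Lam lam (C f) = C (coeffMap lam.toAddMonoidHom f) := by
  rw [Lam, coeffMap_C]

theorem aeval_natDegree (P : L[X][X]) (h : L[X]) :
    (aeval P h).natDegree = h.natDegree * P.natDegree := by
  rw [Pool.Agent.H78.Tri.aeval_comp, natDegree_comp, natDegree_map_eq_of_injective C_injective]

theorem aeval_CC' (p h : L[X]) : aeval (C p : L[X][X]) h = C (aeval p h) := by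
  induction h using Polynomial.induction_on' with
  | add a b ha hb => rw [map_add, map_add, ha, hb, C_add]
  | monomial n r =>
    rw [aeval_monomial, aeval_monomial, C_mul, C_pow]; rfl

/-- comparison of a generator over `L` with its image -/
theorem linear_of (lam : L →ₗ[K] K) (P : L[X][X]) (hP : ∀ c, P ≠ C (C c)) (f : K[X][X])
    (hf : f = Lam lam P) (h : L[X]) (hh : J (algebraMap K L) f = aeval P h) :
    h.natDegree ≤ 1 := by
  have hinj : Function.Injective (algebraMap K L) := (algebraMap K L).injective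
  have hJd : ∀ b : K[X][X], (J (algebraMap K L) b).natDegree = b.natDegree := by
    intro b
    exact natDegree_map_eq_of_injective (map_injective _ hinj) b
  rcases Nat.eq_zero_or_pos P.natDegree with h0 | h0
  · obtain ⟨p, rfl⟩ := natDegree_eq_zero.1 h0
    have hp : 0 < p.natDegree := by
      rcases Nat.eq_zero_or_pos p.natDegree with h1 | h1
      · obtain ⟨c, rfl⟩ := natDegree_eq_zero.1 h1
        exact absurd rfl (hP c)
      · exact h1
    rw [hf, Lam_C, J_C, aeval_CC'] at hh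
    have h2 := C_injective hh
    have h3 := congrArg natDegree h2
    rw [natDegree_map_eq_of_injective hinj, natDegree_aeval] at h3
    have h4 := coeffMap_natDegree lam.toAddMonoidHom p
    rw [h3] at h4
    by_contra hlt
    have : 2 * p.natDegree ≤ h.natDegree * p.natDegree := Nat.mul_le_mul_right _ (by omega)
    omega
  · have h3 := congrArg natDegree hh
    rw [hJd, aeval_natDegree, hf] at h3
    have h4 : (Lam lam P).natDegree ≤ P.natDegree := coeffMap_natDegree _ P
    rw [h3] at h4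
    by_contra hlt
    have : 2 * P.natDegree ≤ h.natDegree * P.natDegree := Nat.mul_le_mul_right _ (by omega)
    omega

end

section
variable {K : Type*} [Field K] [CharZero K]

theorem rent_field (D : Derivation K K[X][X] K[X][X]) (hD : LN ⇑D) (hne : ∃ s, D s ≠ 0) :
    ∃ (f Q : K[X][X]) (φ : K[X]), D f = 0 ∧ φ ≠ 0 ∧ D Q = aeval f φ ∧
      ∀ b, ∃ F : K[X][X], b = sub2 f Q F := by
  let L := AlgebraicClosure K
  have hcharL : CharZero L := charZero_of_injective_algebraMap (algebraMap K L).injective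
  obtain ⟨D', hD', hLN'⟩ := bc (algebraMap K L) D hD
  have hJ := J_inj (algebraMap K L) (algebraMap K L).injective
  have hne' : ∃ s, D' s ≠ 0 := by
    obtain ⟨s, hs⟩ := hne
    refine ⟨J (algebraMap K L) s, fun h => hs (hJ ?_)⟩
    rw [← hD', h, map_zero]
  obtain ⟨P, s, φ, hPc, hDP, hφ, hDs, hker, hgen⟩ := rent_closed D' hLN' hne'
  have htrP := nonconst_transc P hPc
  -- a nonconstant coefficient
  obtain ⟨i, k, hik, hx⟩ : ∃ i k, (i ≠ 0 ∨ k ≠ 0) ∧ (P.coeff i).coeff k ≠ 0 := by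
    by_contra hcon
    push Not at hcon
    apply hPc ((P.coeff 0).coeff 0)
    ext i j
    rcases eq_or_ne i 0 with rfl | hi
    · rw [coeff_C_zero]
      rcases eq_or_ne j 0 with rfl | hj
      · rw [coeff_C_zero]
      · rw [hcon 0 j (Or.inr hj), coeff_C_of_ne_zero hj]
    · rw [hcon i j (Or.inl hi), coeff_C_of_ne_zero hi, coeff_zero]
  obtain ⟨lam, hlam⟩ := exists_functional (K := K) _ hx
  set f := Lam lam P with hf
  have hDf : D f = 0 := by rw [hf, ← Lam_D lam D D' hD', hDP, map_zero]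
  have hfc : ∀ c, f ≠ C (C c) := by
    intro c hc
    have h1 := Lam_coeff lam P i k
    rw [← hf, hc] at h1
    apply hlam
    rw [← h1]
    rcases hik with hi | hk
    · rw [coeff_C_of_ne_zero hi, coeff_zero]
    · rcases eq_or_ne i 0 with rfl | hi
      · rw [coeff_C_zero, coeff_C_of_ne_zero hk]
      · rw [coeff_C_of_ne_zero hi, coeff_zero]
  have htrf := nonconst_transc f hfc
  obtain ⟨h, hh⟩ := hker (J (algebraMap K L) f) (by rw [hD', hDf, map_zero])
  have hh1 := linear_of lam P hPc f hf h hh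
  obtain ⟨a, b, ha, hab⟩ : ∃ a b : L, a ≠ 0 ∧ h = C a * X + C b := by
    refine ⟨h.coeff 1, h.coeff 0, ?_, eq_X_add_C_of_natDegree_le_one hh1⟩
    intro h0
    have h1 : h = C (h.coeff 0) := by
      have := eq_X_add_C_of_natDegree_le_one hh1
      rwa [h0, C_0, zero_mul, zero_add] at this
    rw [h1, aeval_C] at hh
    apply hfc ((f.coeff 0).coeff 0)
    apply hJ
    rw [J_CC]
    have h2 : (((J (algebraMap K L) f).coeff 0).coeff 0) = h.coeff 0 := by
      rw [hh]
      show ((C (C (h.coeff 0)) : L[X][X]).coeff 0).coeff 0 = _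
      rw [coeff_C_zero, coeff_C_zero]
    have h3 : (((J (algebraMap K L) f).coeff 0).coeff 0) = algebraMap K L ((f.coeff 0).coeff 0) := by
      simp [J]
    rw [← h3, h2, hh]; rfl
  set Jf := J (algebraMap K L) f with hJf
  have hPJ : P = aeval Jf (C a⁻¹ * (X - C b)) := by
    rw [map_mul, map_sub, aeval_X, aeval_C, aeval_C, hh, hab, map_add, map_mul, aeval_X, aeval_C,
      aeval_C, add_sub_cancel_right, ← mul_assoc, ← map_mul, inv_mul_cancel₀ ha, map_one, one_mul]
  have hJfc : ∀ c, Jf ≠ C (C c) := by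
    intro c hc
    apply hPc (a⁻¹ * (c - b))
    rw [hPJ, hc, map_mul, map_sub, aeval_X, aeval_C, aeval_C, C_mul, C_mul, C_sub, C_sub]
    rfl
  have htrJ := nonconst_transc Jf hJfc
  have hkerJ : ∀ y, D' y = 0 → ∃ q : L[X], y = aeval Jf q := by
    intro y hy
    obtain ⟨q, hq⟩ := hker y hy
    exact ⟨q.comp (C a⁻¹ * (X - C b)), by rw [hq, Polynomial.aeval_comp, ← hPJ]⟩
  obtain ⟨ψ, hψ⟩ := hkerJ (aeval P φ) (D_aeval D' P hDP φ)
  have hψ0 : ψ ≠ 0 := by
    rintro rfl
    rw [map_zero] at hψ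
    exact hφ (htrP _ hψ)
  obtain ⟨lam2, hlam2⟩ := exists_functional (K := K) ψ.leadingCoeff (leadingCoeff_ne_zero.2 hψ0)
  set Q := Lam lam2 s with hQ
  set ψ1 := coeffMap lam2.toAddMonoidHom ψ with hψ1
  have hψ10 : ψ1 ≠ 0 := by
    intro h0
    apply hlam2
    have := coeffMap_coeff lam2.toAddMonoidHom ψ ψ.natDegree
    rw [← hψ1, h0, coeff_zero] at this
    exact this.symm
  have hDQ : D Q = aeval f ψ1 := by
    rw [hQ, ← Lam_D lam2 D D' hD', hDs, hψ]
    have h1 : aeval Jf ψ = sub2 Jf (J (algebraMap K L) 0) (C ψ) := by rw [sub2_C]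
    rw [h1, hJf, Lam_sub2, Lam_C, sub2_C]
  refine ⟨f, Q, ψ1, hDf, hψ10, hDQ, ?_⟩
  set JQ := J (algebraMap K L) Q with hJQ
  -- compare `JQ` with `s`
  obtain ⟨F, hF⟩ := hgen JQ
  have h1 : sub2 P s (derivative F) * aeval Jf ψ = aeval Jf (ψ1.map (algebraMap K L)) := by
    rw [← hψ, ← hDs, ← k_der_sub2 D' P s hDP, ← hF, hJQ, hD', hDQ, J_aeval]
  have hψ1m : ψ1.map (algebraMap K L) ≠ 0 := by
    intro h0
    exact hψ10 ((Polynomial.map_eq_zero_iff (algebraMap K L).injective).1 h0)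
  have h2 : aeval Jf (ψ1.map (algebraMap K L)) ≠ 0 := fun h0 => hψ1m (htrJ _ h0)
  have hDu : D' (sub2 P s (derivative F)) = 0 := by
    apply fact_closed D' hLN' _ (aeval Jf ψ)
    · rw [h1]; exact h2
    · rw [h1]; exact D_aeval D' Jf (by rw [hJf, hD', hDf, map_zero]) _
  obtain ⟨q, hq⟩ := hkerJ _ hDu
  have h3 : q * ψ = ψ1.map (algebraMap K L) := by
    rw [← sub_eq_zero]
    apply htrJ
    rw [map_sub, map_mul, ← hq, h1, sub_self]
  have hq0 : q ≠ 0 := by rintro rfl; rw [zero_mul] at h3; exact hψ1m h3.symm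
  have hqd : q.natDegree = 0 := by
    have h4 := congrArg natDegree h3
    rw [natDegree_mul hq0 hψ0, natDegree_map_eq_of_injective (algebraMap K L).injective] at h4
    have h5 := coeffMap_natDegree lam2.toAddMonoidHom ψ
    rw [← hψ1] at h5
    omega
  obtain ⟨β, rfl⟩ := natDegree_eq_zero.1 hqd
  have hβ : β ≠ 0 := by rintro rfl; exact hq0 C_0
  have h4 : D' (JQ - C (C β) * s) = 0 := by
    rw [map_sub, hF, k_der_sub2 D' P s hDP, D'.leibniz, D_CC, smul_zero, add_zero, smul_eq_mul, hq,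
      aeval_C]
    exact sub_self _
  obtain ⟨γ, hγ⟩ := hkerJ _ h4
  have hs : s = sub2 Jf JQ (C (C β⁻¹) * (X - C γ)) := by
    have e0 : sub2 Jf JQ (C (C β⁻¹) * (X - C γ)) = C (C β⁻¹) * (JQ - aeval Jf γ) := by
      rw [map_mul, map_sub, sub2_X, sub2_C, sub2_C, aeval_C]; rfl
    rw [e0, ← hγ, sub_sub_cancel, ← mul_assoc, ← C_mul, ← C_mul, inv_mul_cancel₀ hβ, C_1, C_1,
      one_mul]
  intro y
  obtain ⟨lam0, hlam0⟩ := exists_functional_one (K := K) (L := L)
  obtain ⟨G, hG⟩ := hgen (J (algebraMap K L) y)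
  have hPJ' : sub2 Jf JQ (C (C a⁻¹ * (X - C b))) = P := by rw [sub2_C, ← hPJ]
  have h5 := sub2_comp hPJ' hs.symm G
  refine ⟨Lam lam0 (sub2 (C (C a⁻¹ * (X - C b))) (C (C β⁻¹) * (X - C γ)) G), ?_⟩
  rw [← Lam_sub2, ← hJf, ← hJQ, ← h5, ← hG]
  have h6 := Lam_span lam0 1 y
  rw [hlam0] at h6
  simp only [C_1, one_mul] at h6
  exact h6.symm

end

end Pool.Agent.H78.Rk
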