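import Pool.Agent.H78.Rk.RE

set_option autoImplicit false

open Polynomial Pool.Agent.H78.Tri

namespace Pool.Agent.H78.Rk

section
variable {R K : Type*} [CommRing R] [IsDomain R] [Field K] [Algebra R K] [IsFractionRing R K]

theorem clear_denoms (y : K[X][X]) : ∃ (r : R) (b : R[X][X]), r ≠ 0 ∧
    C (C (algebraMap R K r)) * y = J (algebraMap R K) b := by
  induction y using Polynomial.induction_on' with
  | add p q hp hq =>
    obtain ⟨r1, b1, h1, h1'⟩ := hp
    obtain ⟨r2, b2, h2, h2'⟩ := hq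
    refine ⟨r1 * r2, C (C r2) * b1 + C (C r1) * b2, mul_ne_zero h1 h2, ?_⟩
    have e : J (algebraMap R K) (C (C r2) * b1 + C (C r1) * b2) =
        C (C (algebraMap R K r2)) * J (algebraMap R K) b1 +
        C (C (algebraMap R K r1)) * J (algebraMap R K) b2 := by
      rw [RingHom.map_add, RingHom.map_mul, RingHom.map_mul, J_CC, J_CC]
    rw [e, ← h1', ← h2', RingHom.map_mul (algebraMap R K), C_mul, C_mul]
    ring
  | monomial n f =>
    induction f using Polynomial.induction_on' with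
    | add p q hp hq =>
      obtain ⟨r1, b1, h1, h1'⟩ := hp
      obtain ⟨r2, b2, h2, h2'⟩ := hq
      refine ⟨r1 * r2, C (C r2) * b1 + C (C r1) * b2, mul_ne_zero h1 h2, ?_⟩
      have e : J (algebraMap R K) (C (C r2) * b1 + C (C r1) * b2) =
          C (C (algebraMap R K r2)) * J (algebraMap R K) b1 +
          C (C (algebraMap R K r1)) * J (algebraMap R K) b2 := by
        rw [RingHom.map_add, RingHom.map_mul, RingHom.map_mul, J_CC, J_CC]
      rw [map_add (monomial n), e, ← h1', ← h2', RingHom.map_mul (algebraMap R K), C_mul, C_mul]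
      ring
    | monomial m c =>
      obtain ⟨x, r, hr, hc⟩ := IsFractionRing.div_surjective (A := R) c
      have hr0 : r ≠ 0 := nonZeroDivisors.ne_zero hr
      have hr1 : algebraMap R K r ≠ 0 := by
        intro h
        exact hr0 ((IsFractionRing.injective R K) (by rw [h, map_zero]))
      refine ⟨r, monomial n (monomial m x), hr0, ?_⟩
      have : J (algebraMap R K) (monomial n (monomial m x)) =
          monomial n (monomial m (algebraMap R K x)) := by simp [J]
      rw [this, C_mul_monomial, C_mul_monomial, ← hc, mul_div_cancel₀ _ hr1]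

theorem clear_one (g : K[X]) : ∃ (r : R) (g0 : R[X]), r ≠ 0 ∧
    C (algebraMap R K r) * g = g0.map (algebraMap R K) := by
  obtain ⟨r, b, hr, hb⟩ := clear_denoms (R := R) (C g : K[X][X])
  refine ⟨r, b.coeff 0, hr, ?_⟩
  have := congrArg (fun t => t.coeff 0) hb
  simp only [coeff_C_mul, coeff_C_zero] at this
  rw [this]
  simp [J]

theorem rent_domain_aux (K : Type*) [Field K] [Algebra R K] [IsFractionRing R K] [CharZero K]
    (D : Derivation R R[X][X] R[X][X]) (hD : LN ⇑D) (hne : ∃ s, D s ≠ 0) :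
    ∃ (P Q : R[X][X]) (φ : R[X]), D P = 0 ∧ φ ≠ 0 ∧ D Q = aeval P φ ∧ Gen P Q := by
  have hji : Function.Injective (algebraMap R K) := IsFractionRing.injective R K
  obtain ⟨j, hj⟩ : ∃ j : R →+* K, j = algebraMap R K := ⟨_, rfl⟩
  rw [← hj] at hji
  have hJ := J_inj j hji
  have hj0 : ∀ r : R, r ≠ 0 → j r ≠ 0 := by
    intro r hr h
    exact hr (hji (by rw [h, RingHom.map_zero]))
  have hcl : ∀ y : K[X][X], ∃ (r : R) (b : R[X][X]), r ≠ 0 ∧ C (C (j r)) * y = J j b := by
    rw [hj]; exact clear_denoms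
  have hcl1 : ∀ g : K[X], ∃ (r : R) (g0 : R[X]), r ≠ 0 ∧ C (j r) * g = g0.map j := by
    rw [hj]; exact clear_one
  clear hj
  obtain ⟨D', hD', hLN'⟩ := bc j D hD
  have hne' : ∃ s, D' s ≠ 0 := by
    obtain ⟨s, hs⟩ := hne
    refine ⟨J j s, fun h => hs (hJ ?_)⟩
    rw [← hD', h, RingHom.map_zero]
  obtain ⟨f, q, φ, hDf, hφ, hDq, hgen⟩ := rent_field D' hLN' hne'
  obtain ⟨rP, P, hrP, hP⟩ := hcl f
  obtain ⟨rQ, Q0, hrQ, hQ0⟩ := hcl q
  have hDP : D P = 0 := by
    apply hJ
    rw [← hD', ← hP, D'.leibniz, D_CC, hDf, smul_zero, smul_zero, add_zero, RingHom.map_zero]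
  have hfP : f = aeval (J j P) (C (j rP)⁻¹ * X) := by
    have e : aeval (J j P) (C (j rP)⁻¹ * X) = C (C (j rP)⁻¹) * J j P := by
      rw [map_mul, aeval_X, aeval_C]; rfl
    rw [e, ← hP, ← mul_assoc, ← C_mul, ← C_mul, inv_mul_cancel₀ (hj0 rP hrP), C_1, C_1, one_mul]
  obtain ⟨φ', hφ'⟩ : ∃ φ', φ' = C (j rQ) * φ.comp (C (j rP)⁻¹ * X) := ⟨_, rfl⟩
  have hφ'0 : φ' ≠ 0 := by
    rw [hφ']
    apply mul_ne_zero
    · exact C_ne_zero.2 (hj0 rQ hrQ)
    · intro h0
      rcases comp_eq_zero_iff.1 h0 with h1 | ⟨-, h1⟩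
      · exact hφ h1
      · have h2 := congrArg (fun t => t.coeff 1) h1
        simp only [coeff_C_mul, coeff_X_one, mul_one, coeff_C_succ] at h2
        exact inv_ne_zero (hj0 rP hrP) h2
  have hDQ0 : D' (J j Q0) = aeval (J j P) φ' := by
    rw [← hQ0, D'.leibniz, D_CC, smul_zero, add_zero, smul_eq_mul, hDq, hφ', map_mul, aeval_C,
      Polynomial.aeval_comp, ← hfP]
    rfl
  clear hφ'
  obtain ⟨t, φ'', ht, hφ''⟩ := hcl1 φ'
  obtain ⟨Q, hQ⟩ : ∃ Q, Q = C (C t) * Q0 := ⟨_, rfl⟩
  have hJQ : J j Q = C (C (j t)) * (C (C (j rQ)) * q) := by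
    rw [hQ, RingHom.map_mul, J_CC, ← hQ0]
  have hDQ : D' (J j Q) = aeval (J j P) (φ''.map j) := by
    rw [hQ, RingHom.map_mul, J_CC, D'.leibniz, D_CC, smul_zero, add_zero, smul_eq_mul, hDQ0,
      ← hφ'', map_mul, aeval_C]
    rfl
  refine ⟨P, Q, φ'', hDP, ?_, ?_, ?_⟩
  · rintro rfl
    rw [Polynomial.map_zero] at hφ''
    exact (mul_ne_zero (C_ne_zero.2 (hj0 t ht)) hφ'0) hφ''
  · apply hJ
    rw [← hD', hDQ, J_aeval]
  · intro b
    obtain ⟨F, hF⟩ := hgen (J j b)
    have h1 : sub2 (J j P) (J j Q) (C (C (j rP)⁻¹ * X)) = f := by rw [sub2_C, ← hfP]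
    have h2 : sub2 (J j P) (J j Q) (C (C (j (t * rQ))⁻¹) * X) = q := by
      have e1 : sub2 (J j P) (J j Q) (C (C (j (t * rQ))⁻¹)) = C (C (j (t * rQ))⁻¹) :=
        sub2_CC (R := K) (J j P) (J j Q) _
      rw [RingHom.map_mul, sub2_X, e1, hJQ]
      have h3 : (j (t * rQ))⁻¹ * (j t * j rQ) = 1 := by
        rw [← RingHom.map_mul, inv_mul_cancel₀ (hj0 _ (mul_ne_zero ht hrQ))]
      calc C (C (j (t * rQ))⁻¹) * (C (C (j t)) * (C (C (j rQ)) * q))
          = C (C ((j (t * rQ))⁻¹ * (j t * j rQ))) * q := by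
            simp only [C_mul]; ring
        _ = q := by rw [h3, C_1, C_1, one_mul]
    have h3 := sub2_comp h1 h2 F
    obtain ⟨r, G, hr, hG⟩ := hcl (sub2 (C (C (j rP)⁻¹ * X)) (C (C (j (t * rQ))⁻¹) * X) F)
    refine ⟨r, G, hr, ?_⟩
    apply hJ
    have e1 : sub2 (J j P) (J j Q) (C (C (j r))) = C (C (j r)) :=
      sub2_CC (R := K) (J j P) (J j Q) _
    rw [smul_eq_CC, RingHom.map_mul, J_CC, J_sub2, hF, h3, ← hG,
      RingHom.map_mul (sub2 (R := K) (J j P) (J j Q)), e1]

theorem rent_domain [CharZero R] (D : Derivation R R[X][X] R[X][X]) (hD : LN ⇑D)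
    (hne : ∃ s, D s ≠ 0) :
    ∃ (P Q : R[X][X]) (φ : R[X]), D P = 0 ∧ φ ≠ 0 ∧ D Q = aeval P φ ∧ Gen P Q := by
  have hcharK : CharZero (FractionRing R) :=
    charZero_of_injective_algebraMap (IsFractionRing.injective R (FractionRing R))
  exact rent_domain_aux (FractionRing R) D hD hne

end

universe u

/-- Over a principal ideal domain containing the rationals, every locally nilpotent derivation of
the polynomial ring in two variables has principal image ideals. -/
theorem principal_lnd {R : Type u} [CommRing R] [IsDomain R] [IsPrincipalIdealRing R] [Algebra ℚ R]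
    (D : Derivation R R[X][X] R[X][X]) (hD : LN ⇑D) (n : ℕ) : Principal (⇑D) n := by
  have hchar : CharZero R := algebraRat.charZero R
  by_cases hne : ∃ s, D s ≠ 0
  · obtain ⟨P, Q, φ, h1, h2, h3, h4⟩ := rent_domain D hD hne
    exact principal_gen D P Q φ h1 h2 h3 h4 n
  · push Not at hne
    rcases Nat.eq_zero_or_pos n with rfl | hn
    · exact principal_zero _ D.map_one_eq_zero
    · refine ⟨0, map_zero D, ?_⟩
      intro g
      have hz : ∀ b, (⇑D)^[n] b = 0 := by
        intro b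
        obtain ⟨m, rfl⟩ : ∃ m, n = m + 1 := ⟨n - 1, by omega⟩
        rw [Function.iterate_succ_apply', hne]
      constructor
      · rintro ⟨b, hb, rfl⟩
        exact ⟨0, map_zero D, by rw [hz, mul_zero]⟩
      · rintro ⟨c, hc, rfl⟩
        exact ⟨0, by rw [iterate_map_zero], by rw [iterate_map_zero, zero_mul]⟩

section final
variable {k A : Type*} [Field k] [CommRing A] [Algebra k A]

/-- Locally nilpotent derivations of the polynomial ring in three variables killing a variable. -/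
theorem principal_rank_two [CharZero k] (D : Derivation k A A)
    (hD : ∀ f : A, ∃ m : ℕ, (⇑D)^[m] f = 0) (u : Fin 3 → A)
    (hu : Function.Bijective (MvPolynomial.aeval u : MvPolynomial (Fin 3) k →ₐ[k] A))
    (h0 : D (u 0) = 0) (n : ℕ) : Principal (⇑D) n := by
  obtain ⟨D', hD'⟩ := exists_pull u hu D h0
  refine principal_transport (evEquiv u hu) (⇑D') (⇑D) hD' n ?_
  apply principal_lnd
  intro s
  obtain ⟨m, hm⟩ := hD (evEquiv u hu s)
  refine ⟨m, ?_⟩
  have hit : ∀ j b, evEquiv u hu ((⇑D')^[j] b) = (⇑D)^[j] (evEquiv u hu b) := by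
    intro j b
    induction j generalizing b with
    | zero => rfl
    | succ j ih => rw [Function.iterate_succ_apply, ih, hD', Function.iterate_succ_apply]
  apply (evEquiv u hu).injective
  rw [hit, hm, map_zero]

end final

end Pool.Agent.H78.Rk
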