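import Pool.Agent.H78.Rk.Z

set_option autoImplicit false

open Polynomial Pool.Agent.H78.Tri

namespace Pool.Agent.H78.Rk

section
variable {R κ : Type*} [CommRing R] [IsDomain R] [WfDvdMonoid R] [CharZero R] [Field κ]
  [CharZero κ]

omit [CharZero κ] in
theorem natDegree_aeval (a f : κ[X]) : (aeval a f).natDegree = f.natDegree * a.natDegree := by
  have : aeval a f = f.comp a := by rw [comp, aeval_def]; rfl
  rw [this, natDegree_comp]

omit [CharZero κ] in
theorem sub2_aeval {H : Type*} [CommRing H] [Algebra κ H] (τ q : H) (F : κ[X][X]) (g : κ[X]) :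
    sub2 τ q (aeval F g) = aeval (sub2 τ q F) g := by
  induction g using Polynomial.induction_on' with
  | add p q hp hq => rw [map_add, map_add, map_add, hp, hq]
  | monomial n r =>
    rw [aeval_monomial, aeval_monomial, map_mul, map_pow]
    congr 1
    have : (algebraMap κ κ[X][X] r) = C (C r) := rfl
    rw [this, sub2_CC]

/-- The goal of the recursion. -/
def Goal (π : R →+* κ) (D : Derivation R R[X][X] R[X][X]) (P0 : R[X][X]) : Prop :=
  ∃ E : ℕ → R[X][X], (∀ n, DegC D n (E n)) ∧ ∀ (N : ℕ) (a : ℕ → R[X]),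
    red π (∑ i ∈ Finset.range N, aeval P0 (a i) * E i) = 0 → ∀ i < N, (a i).map π = 0

theorem coe_comb {S : Subalgebra R R[X][X]} (P w : S) (e : ℕ → S) (M : ℕ) (a : ℕ → R[X]) (d : ℕ) :
    ((comb P w e M a d : S) : R[X][X]) = ∑ i ∈ Finset.range (M * d),
      aeval (P : R[X][X]) (a i) * ((e (i % M) * w ^ (i / M) : S) : R[X][X]) := by
  rw [comb]
  push_cast
  rfl

theorem final_case {π : R →+* κ} {p : R} {D : Derivation R R[X][X] R[X][X]}
    {S : Subalgebra R R[X][X]} {θ : S →+* κ[X][X]} {w P : S} {τ : κ[X][X]} {e : ℕ → S} {M : ℕ}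
    (h : Stage π p (red π) S θ w τ) (hF : Fam π θ P e M) (hM : 0 < M)
    (hw : DegC D M (w : R[X][X])) (he : ∀ j < M, DegC D j (e j : R[X][X]))
    (hinj : ∀ F : κ[X][X], sub2 τ (red π w) F = 0 → F = 0) : Goal π D (P : R[X][X]) := by
  refine ⟨fun i => ((e (i % M) * w ^ (i / M) : S) : R[X][X]), fun n => DegC_fam hM hw he n, ?_⟩
  intro N a ha i hi
  set a' : ℕ → R[X] := fun i => if i < N then a i else 0 with ha'
  have h1 : ((comb P w e M a' N : S) : R[X][X]) = ∑ i ∈ Finset.range N,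
      aeval (P : R[X][X]) (a i) * ((e (i % M) * w ^ (i / M) : S) : R[X][X]) := by
    rw [coe_comb]
    have hNM : N ≤ M * N := Nat.le_mul_of_pos_left N hM
    rw [← Finset.sum_subset (Finset.range_mono hNM)]
    · apply Finset.sum_congr rfl
      intro j hj
      rw [ha']
      simp only [Finset.mem_range.1 hj, if_true]
    · intro j _ hj
      have : ¬ j < N := fun h => hj (Finset.mem_range.2 h)
      rw [ha']
      simp only [this, if_false, map_zero, zero_mul]
  rw [← h1, h.red_eq] at ha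
  have h2 := hF.indep_comb h.hw a' N (hinj _ ha) i (lt_of_lt_of_le hi (Nat.le_mul_of_pos_left N hM))
  rw [ha'] at h2
  simpa [hi] using h2

/-- A complete stage whose polynomial for `P` has degree `m`. -/
def HasStage (π : R →+* κ) (p : R) (D : Derivation R R[X][X] R[X][X]) (P0 : R[X][X]) (m : ℕ) :
    Prop :=
  ∃ (S : Subalgebra R R[X][X]) (θ : S →+* κ[X][X]) (w P : S) (τ : κ[X][X]) (e : ℕ → S) (M : ℕ)
      (hpoly : κ[X]),
      Stage π p (red π) S θ w τ ∧ Fam π θ P e M ∧ 0 < M ∧ (P : R[X][X]) = P0 ∧ θ P = C hpoly ∧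
      DegC D M (w : R[X][X]) ∧ (∀ j < M, DegC D j (e j : R[X][X])) ∧
      (∀ b : R[X][X], ∃ r : R, r ≠ 0 ∧ r • b ∈ S) ∧
      (∀ E : Derivation R R[X][X] R[X][X], ∃ r : R, r ≠ 0 ∧ ∀ s ∈ S, r • E s ∈ S) ∧
      (∀ g : κ[X], red π w ≠ aeval τ g) ∧ hpoly.natDegree = m

theorem rec_step {π : R →+* κ} {p : R} (hpp : Prime p) (hp : ∀ r, π r = 0 ↔ p ∣ r)
    {D : Derivation R R[X][X] R[X][X]} {P0 : R[X][X]} (hP0 : D P0 = 0)
    (ρ : κ[X][X] →ₐ[κ] κ[X]) (hρ0 : 0 < (ρ (red π P0)).natDegree) (m : ℕ)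
    (hm : HasStage π p D P0 m) : Goal π D P0 ∨
    ∃ m', m < m' ∧ m' ≤ (ρ (red π P0)).natDegree ∧ HasStage π p D P0 m' := by
  obtain ⟨S, θ, w, P, τ, e, M, hpoly, h, hF, hM, hP, hθP, hw, he, hgen, hint, hwn, hhm⟩ := hm
  have hp0 : algebraMap R R[X][X] p ≠ 0 := by
    have h1 : algebraMap R R[X][X] p = C (C p) := rfl
    rw [h1]; simpa using hpp.ne_zero
  have hπp : π p = 0 := (hp p).2 dvd_rfl
  by_cases hinj : ∀ F : κ[X][X], sub2 τ (red π w) F = 0 → F = 0
  · left
    rw [← hP]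
    exact final_case h hF hM hw he hinj
  right
  push Not at hinj
  obtain ⟨F0, hF0', hF0⟩ := hinj
  have hredP : red π P0 = aeval τ hpoly := by
    rw [← hP, h.red_eq, hθP, sub2_C]
  have hρP : ρ (red π P0) = aeval (ρ τ) hpoly := by rw [hredP, aeval_algHom_apply]
  have hdeg1 : (ρ (red π P0)).natDegree = hpoly.natDegree * (ρ τ).natDegree := by
    rw [hρP, natDegree_aeval]
  have hρτ : 0 < (ρ τ).natDegree := Nat.pos_of_ne_zero (fun h0 => by
    rw [hdeg1, h0, mul_zero] at hρ0; omega)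
  have hhp : 0 < hpoly.natDegree := Nat.pos_of_ne_zero (fun h0 => by
    rw [hdeg1, h0, zero_mul] at hρ0; omega)
  obtain ⟨hρ', ψ', hψ'm, hψ'p, hker⟩ := alg_case τ (red π w) ρ hρτ F0 hF0 hF0'
  obtain ⟨τ', ⟨F1, hF1⟩, hτ'2⟩ := exists_line hpp hp h hgen hint ψ' hψ'p hker ρ hρ'
  obtain ⟨ψ, j, w', hj, hψ, hψw, hw'not, hDw'⟩ :=
    exists_w' hpp hp h hF hM (by rw [hP]; exact hP0) hw he ψ' hψ'm hker
  obtain ⟨g0, hg0⟩ := hτ'2 (C X)
  rw [sub2_C, aeval_X] at hg0
  have hdeg2 : (ρ τ).natDegree = g0.natDegree * (ρ τ').natDegree := by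
    rw [hg0, ← aeval_algHom_apply, natDegree_aeval]
  have hρτ' : 0 < (ρ τ').natDegree := Nat.pos_of_ne_zero (fun h0 => by
    rw [hdeg2, h0, mul_zero] at hρτ; omega)
  have hg0d : 0 < g0.natDegree := Nat.pos_of_ne_zero (fun h0 => by
    rw [hdeg2, h0, zero_mul] at hρτ; omega)
  have hτ' : ∀ g : κ[X], aeval τ' g = 0 → g = 0 := by
    intro g hg
    apply nonconst_inj (ρ τ') hρτ'
    rw [aeval_algHom_apply, hg, map_zero]
  have hinj' : ∀ f g : κ[X], aeval τ' f = aeval τ' g → f = g := by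
    intro f g hfg
    rw [← sub_eq_zero]
    apply hτ'
    rw [map_sub, hfg, sub_self]
  obtain ⟨S', θ', w'', hw'', hst', hSS', hconst, hform⟩ := h.step hπp hp0 (red_alg π) ψ'
    hψ'm.ne_zero hker ψ hψ j hj w' hψw τ' hτ' ⟨F1, hF1⟩ hτ'2
  set d := ψ'.natDegree with hd
  have hdpos : 0 < d := by
    rcases Nat.eq_zero_or_pos d with h0 | h0
    · exfalso
      apply hψ'p.not_isUnit
      have : ψ' = 1 := (hψ'm.natDegree_eq_zero).1 h0
      rw [this]; exact isUnit_one
    · exact h0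
  let P' : S' := ⟨P0, hSS' (by rw [← hP]; exact P.2)⟩
  have hP'S : ((P' : S') : R[X][X]) ∈ S := by show P0 ∈ S; rw [← hP]; exact P.2
  let e' : ℕ → S' := fun i => ⟨((e (i % M) * w ^ (i / M) : S) : R[X][X]), hSS' (Subtype.property _)⟩
  have he'S : ∀ i, ((e' i : S') : R[X][X]) ∈ S := fun i => (e (i % M) * w ^ (i / M) : S).2
  obtain ⟨h', hh'⟩ := hconst P' hP'S
  have hredP' : red π P0 = aeval τ' h' := by
    have := hst'.red_eq P'
    rw [hh', sub2_C] at this
    exact this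
  -- combinations
  have hcoe : ∀ a : ℕ → R[X], ((∑ i ∈ Finset.range (M * d), aeval P' (a i) * e' i : S') : R[X][X])
      = ((comb P w e M a d : S) : R[X][X]) := by
    intro a
    rw [coe_comb, hP]
    push_cast
    rfl
  have hred' : ∀ a : ℕ → R[X], sub2 τ' (red π w'') (θ' (∑ i ∈ Finset.range (M * d),
      aeval P' (a i) * e' i)) = sub2 τ (red π w) (θ (comb P w e M a d)) := by
    intro a
    rw [← hst'.red_eq, ← h.red_eq, hcoe]
  have hcomp : h' = hpoly.comp g0 := by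
    apply hinj'
    rw [← hredP', hredP, Polynomial.aeval_comp, ← hg0]
  have hdeg3 : h'.natDegree = hpoly.natDegree * g0.natDegree := by rw [hcomp, natDegree_comp]
  have hg02 : 2 ≤ g0.natDegree := by
    by_contra hlt
    have h1 : g0.natDegree = 1 := by omega
    obtain ⟨g1, hg1⟩ := hτ'2 X
    rw [sub2_X] at hg1
    have hc1 : g0.coeff 1 ≠ 0 := by
      have : g0.leadingCoeff ≠ 0 := leadingCoeff_ne_zero.2 (by rintro rfl; simp at h1)
      rwa [leadingCoeff, h1] at this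
    have h2 : g0 = C (g0.coeff 1) * X + C (g0.coeff 0) := eq_X_add_C_of_natDegree_le_one (by omega)
    have h3 : τ' = aeval τ (C (g0.coeff 1)⁻¹ * (X - C (g0.coeff 0))) := by
      rw [map_mul, map_sub, aeval_X, aeval_C, aeval_C]
      conv_rhs => rw [hg0, h2]
      rw [map_add, map_mul, aeval_X, aeval_C, aeval_C]
      simp only [coeff_add, coeff_C_mul, coeff_X_one, coeff_C_succ, mul_one, add_zero, coeff_X_zero,
        mul_zero, coeff_C_zero, zero_add]
      rw [add_sub_cancel_right, ← mul_assoc, ← map_mul, inv_mul_cancel₀ hc1, map_one, one_mul]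
    apply hwn (g1.comp (C (g0.coeff 1)⁻¹ * (X - C (g0.coeff 0))))
    rw [Polynomial.aeval_comp, ← h3, hg1]
  have hFam : Fam π θ' P' e' (M * d) := by
    refine ⟨fun j _ => hconst _ (he'S j), ⟨h', hh'⟩, hst'.scal, ?_, ?_⟩
    · intro f
      have hf : sub2 τ (red π w) (aeval F1 f %ₘ ψ') = aeval τ' f := by
        rw [← hF1, ← sub2_aeval]
        conv_rhs => rw [← modByMonic_add_div (aeval F1 f) ψ']
        rw [map_add, map_mul, (hker ψ').2 dvd_rfl, zero_mul, add_zero]
      obtain ⟨a, ha⟩ := hF.span_comb h.hw d (aeval F1 f %ₘ ψ') (by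
        rw [hd, ← degree_eq_natDegree hψ'm.ne_zero]
        exact degree_modByMonic_lt _ hψ'm)
      refine ⟨a, ?_⟩
      obtain ⟨g, hg⟩ := hconst (∑ i ∈ Finset.range (M * d), aeval P' (a i) * e' i) (by
        rw [hcoe]; exact Subtype.property _)
      have h1 := hred' a
      rw [ha, hf, hg, sub2_C] at h1
      rw [hg, hinj' _ _ h1]
    · intro a ha
      have h1 := hred' a
      rw [ha, map_zero] at h1
      have h2 := (hker _).1 h1.symm
      have h3 : θ (comb P w e M a d) = 0 := by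
        apply eq_zero_of_dvd_of_degree_lt h2
        rw [degree_eq_natDegree hψ'm.ne_zero, ← hd]
        exact hF.deg_comb h.hw a d
      exact hF.indep_comb h.hw a d h3
  refine ⟨h'.natDegree, ?_, ?_, S', θ', w'', P', τ', e', M * d, h', hst', hFam,
    Nat.mul_pos hM hdpos, rfl, hh', ?_, ?_, ?_, ?_, ?_, rfl⟩
  · rw [← hhm, hdeg3]
    nlinarith
  · have : ρ (red π P0) = aeval (ρ τ') h' := by rw [hredP', aeval_algHom_apply]
    rw [this, natDegree_aeval]
    exact Nat.le_mul_of_pos_right _ hρτ'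
  · rw [hw'']; exact hDw'
  · intro j _
    exact DegC_fam hM hw he j
  · intro b
    obtain ⟨r, hr, hr'⟩ := hgen b
    exact ⟨r, hr, hSS' hr'⟩
  · exact int_step hSS' w' (by rw [← hw'']; exact w''.2) hgen hint
      (fun s hs => hform ⟨s, hs⟩)
  · intro g hg
    rw [hw''] at hg
    apply hw'not (aeval F1 g)
    rw [sub2_aeval, hF1, hg]

theorem main_rec {π : R →+* κ} {p : R} (hpp : Prime p) (hp : ∀ r, π r = 0 ↔ p ∣ r)
    {D : Derivation R R[X][X] R[X][X]} {P0 : R[X][X]} (hP0 : D P0 = 0)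
    (ρ : κ[X][X] →ₐ[κ] κ[X]) (hρ0 : 0 < (ρ (red π P0)).natDegree) (k : ℕ) :
    ∀ m, (ρ (red π P0)).natDegree - m ≤ k → HasStage π p D P0 m → Goal π D P0 := by
  induction k with
  | zero =>
    intro m hm hs
    rcases rec_step hpp hp hP0 ρ hρ0 m hs with h | ⟨m', h1, h2, -⟩
    · exact h
    · omega
  | succ k ih =>
    intro m hm hs
    rcases rec_step hpp hp hP0 ρ hρ0 m hs with h | ⟨m', h1, h2, h3⟩
    · exact h
    · exact ih m' (by omega) h3

end

end Pool.Agent.H78.Rk
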