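import Pool.Agent.H78.Rk.F

set_option autoImplicit false

open Polynomial Pool.Agent.H78.Tri

namespace Pool.Agent.H78.Rk

section
variable {R κ : Type*} [CommRing R] [IsDomain R] [WfDvdMonoid R] [CharZero R] [Field κ]
  [CharZero κ]

theorem coe_aeval_S {B : Type*} [CommRing B] [Algebra R B] (S : Subalgebra R B) (P : S)
    (f : R[X]) : ((aeval P f : S) : B) = aeval (P : B) f :=
  (aeval_algHom_apply S.val P f).symm

theorem DegC_fam {D : Derivation R R[X][X] R[X][X]} {S : Subalgebra R R[X][X]} {w : S}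
    {e : ℕ → S} {M : ℕ} (hM : 0 < M) (hw : DegC D M (w : R[X][X]))
    (he : ∀ j < M, DegC D j (e j : R[X][X])) (i : ℕ) :
    DegC D i ((e (i % M) * w ^ (i / M) : S) : R[X][X]) := by
  have h1 := (he (i % M) (Nat.mod_lt _ hM)).mul (hw.pow (i / M))
  rw [Nat.mod_add_div] at h1
  exact_mod_cast h1

theorem D_comb {D : Derivation R R[X][X] R[X][X]} {S : Subalgebra R R[X][X]} {w P : S}
    {e : ℕ → S} {M : ℕ} (hM : 0 < M) (hP : D P = 0) (hw : DegC D M (w : R[X][X]))
    (he : ∀ j < M, DegC D j (e j : R[X][X])) (a : ℕ → R[X]) (d : ℕ) :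
    (⇑D)^[M * d] ((comb P w e M a d : S) : R[X][X]) = 0 := by
  have h1 : ((comb P w e M a d : S) : R[X][X]) = ∑ i ∈ Finset.range (M * d),
      aeval (P : R[X][X]) (a i) * ((e (i % M) * w ^ (i / M) : S) : R[X][X]) := by
    rw [comb]
    push_cast
    rfl
  have hadd : ∀ (n : ℕ) (s : Finset ℕ) (g : ℕ → R[X][X]),
      (⇑D)^[n] (∑ i ∈ s, g i) = ∑ i ∈ s, (⇑D)^[n] (g i) := by
    intro n s g
    induction n generalizing g with
    | zero => rfl
    | succ n ih =>
      rw [Function.iterate_succ_apply, map_sum, ih]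
      rfl
  rw [h1, hadd]
  apply Finset.sum_eq_zero
  intro i hi
  rw [iter_ker_mul D _ _ _ (D_aeval D _ hP _),
    iter_zero_of_le D (by have := Finset.mem_range.1 hi; omega) (DegC_fam hM hw he i).succ, mul_zero]

omit [WfDvdMonoid R] [CharZero R] [CharZero κ] in
theorem red_zero {π : R →+* κ} {p : R} (hp : ∀ r, π r = 0 ↔ p ∣ r) (b : R[X][X])
    (h : red π b = 0) : ∃ b', b = algebraMap R R[X][X] p * b' := by
  obtain ⟨b', hb'⟩ := dvd_of_map_zero2 π p hp b h
  exact ⟨b', hb'⟩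

theorem exists_w' {π : R →+* κ} {p : R} (hpp : Prime p) (hp : ∀ r, π r = 0 ↔ p ∣ r)
    {D : Derivation R R[X][X] R[X][X]}
    {S : Subalgebra R R[X][X]} {θ : S →+* κ[X][X]} {w P : S} {τ : κ[X][X]} {e : ℕ → S} {M : ℕ}
    (h : Stage π p (red π) S θ w τ) (hF : Fam π θ P e M) (hM : 0 < M) (hP : D P = 0)
    (hw : DegC D M (w : R[X][X])) (he : ∀ j < M, DegC D j (e j : R[X][X]))
    (ψ' : κ[X][X]) (hψ' : ψ'.Monic)
    (hker : ∀ F : κ[X][X], sub2 τ (red π w) F = 0 ↔ ψ' ∣ F) :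
    ∃ (ψ : S) (j : ℕ) (w' : R[X][X]), 0 < j ∧ θ ψ = ψ' ∧
      (ψ : R[X][X]) = (algebraMap R R[X][X] p) ^ j * w' ∧
      (∀ F : κ[X][X], sub2 τ (red π w) F ≠ red π w') ∧ DegC D (M * ψ'.natDegree) w' := by
  set d := ψ'.natDegree with hd
  have hπp : π p = 0 := (hp p).2 dvd_rfl
  have hp0 : algebraMap R R[X][X] p ≠ 0 := by
    have h1 : algebraMap R R[X][X] p = C (C p) := rfl
    rw [h1]; simpa using hpp.ne_zero
  have hθp : θ (algebraMap R S p) = 0 := by rw [h.scal, hπp, C_0, C_0]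
  obtain ⟨r, hr, hr'⟩ := hw.pow d
  -- starting polynomial
  obtain ⟨a0, ha0⟩ := hF.span_comb h.hw d (ψ' - X ^ d) (by
    have h1 : (X ^ d : κ[X][X]).degree = d := degree_X_pow d
    rw [← h1]
    apply degree_sub_lt_right
    · rw [h1, degree_eq_natDegree hψ'.ne_zero]
    · exact pow_ne_zero _ X_ne_zero
    · rw [hψ'.leadingCoeff, leadingCoeff_X_pow])
  have hred1 : ∀ s : S, θ s = ψ' → red π s = 0 := by
    intro s hs
    rw [h.red_eq, hs, hker]
  obtain ⟨N, hN⟩ := FiniteMultiplicity.of_prime_left hpp hr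
  have key : ∀ k j : ℕ, 0 < j → j + k = N + 1 → ∀ (ψ : S) (w' : R[X][X]), θ ψ = ψ' →
      (⇑D)^[M * d] (ψ : R[X][X]) = r • (1 : R[X][X]) →
      (ψ : R[X][X]) = (algebraMap R R[X][X] p) ^ j * w' →
      ∃ (ψ : S) (j : ℕ) (w' : R[X][X]), 0 < j ∧ θ ψ = ψ' ∧
      (ψ : R[X][X]) = (algebraMap R R[X][X] p) ^ j * w' ∧
      (∀ F : κ[X][X], sub2 τ (red π w) F ≠ red π w') ∧ DegC D (M * d) w' := by
    intro k
    induction k with
    | zero =>
      intro j hj hjk ψ w' h1 h2 h3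
      exfalso
      apply hN
      apply pow_dvd_smul_one
      obtain rfl : j = N + 1 := by omega
      rw [← h2, h3, iter_ker_mul]
      · exact dvd_mul_right _ _
      · rw [← map_pow, D.map_algebraMap]
    | succ k ih =>
      intro j hj hjk ψ w' h1 h2 h3
      have hDp : D ((algebraMap R R[X][X] p) ^ j) = 0 := by rw [← map_pow, D.map_algebraMap]
      by_cases hex : ∃ F : κ[X][X], sub2 τ (red π w) F = red π w'
      · obtain ⟨F, hF'⟩ := hex
        -- reduce F modulo ψ'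
        have hF2 : sub2 τ (red π w) (F %ₘ ψ') = red π w' := by
          rw [← hF']
          conv_rhs => rw [← modByMonic_add_div F ψ']
          rw [map_add, map_mul, (hker ψ').2 dvd_rfl, zero_mul, add_zero]
        obtain ⟨b, hb⟩ := hF.span_comb h.hw d (F %ₘ ψ') (by
          rw [hd, ← degree_eq_natDegree hψ'.ne_zero]
          exact degree_modByMonic_lt F hψ')
        set cb : S := comb P w e M b d with hcb
        have h4 : red π (w' - cb) = 0 := by
          rw [map_sub, h.red_eq cb, hb, hF2, sub_self]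
        obtain ⟨w2, hw2⟩ := red_zero hp _ h4
        have hDcb : (⇑D)^[M * d] (cb : R[X][X]) = 0 := D_comb hM hP hw he b d
        refine ih (j + 1) (by omega) (by omega) (ψ - (algebraMap R S p) ^ j * cb) w2 ?_ ?_ ?_
        · have e1 : θ (ψ - (algebraMap R S p) ^ j * cb) = θ ψ - θ ((algebraMap R S p) ^ j * cb) :=
            map_sub θ _ _
          rw [e1, map_mul, map_pow, hθp, zero_pow hj.ne', zero_mul, sub_zero, h1]
        · push_cast
          rw [iterate_map_sub, h2, iter_ker_mul D _ _ _ hDp, hDcb, mul_zero, sub_zero]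
        · push_cast
          rw [h3, ← mul_sub, hw2, pow_succ]
          ring
      · push Not at hex
        refine ⟨ψ, j, w', hj, h1, h3, hex, ?_⟩
        have h5 : (algebraMap R R[X][X] p) ^ j * (⇑D)^[M * d] w' = r • (1 : R[X][X]) := by
          rw [← h2, h3, iter_ker_mul D _ _ _ hDp]
        obtain ⟨r', hr'1⟩ := pow_dvd_smul_one p r j ⟨_, h5.symm⟩
        refine ⟨r', ?_, ?_⟩
        · rintro rfl; rw [mul_zero] at hr'1; exact hr hr'1
        · apply mul_left_cancel₀ (pow_ne_zero j hp0)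
          rw [h5, hr'1, Algebra.smul_def, Algebra.smul_def, map_mul, map_pow]
          ring
  obtain ⟨w1, hw1⟩ := red_zero hp (((w ^ d + comb P w e M a0 d : S)) : R[X][X])
    (hred1 _ (by rw [map_add, map_pow, h.hw, ha0]; ring))
  refine key N 1 one_pos (by omega) (w ^ d + comb P w e M a0 d) w1 ?_ ?_ ?_
  · rw [map_add, map_pow, h.hw, ha0]; ring
  · push_cast
    rw [iterate_map_add, hr', D_comb hM hP hw he a0 d, add_zero]
  · rw [hw1, pow_one]

theorem int_step {S S' : Subalgebra R R[X][X]} (hSS : S ≤ S') (w' : R[X][X]) (hw' : w' ∈ S')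
    (hgen : ∀ b : R[X][X], ∃ r : R, r ≠ 0 ∧ r • b ∈ S)
    (hint : ∀ E : Derivation R R[X][X] R[X][X], ∃ r : R, r ≠ 0 ∧ ∀ s ∈ S, r • E s ∈ S)
    (hS' : ∀ s ∈ S', ∃ G : S[X], s = aeval w' G) (E : Derivation R R[X][X] R[X][X]) :
    ∃ r : R, r ≠ 0 ∧ ∀ s ∈ S', r • E s ∈ S' := by
  obtain ⟨r1, hr1, hr1'⟩ := hint E
  obtain ⟨r2, hr2, hr2'⟩ := hgen (E w')
  refine ⟨r1 * r2, mul_ne_zero hr1 hr2, ?_⟩
  intro s hs
  obtain ⟨G, rfl⟩ := hS' s hs
  clear hs
  induction G using Polynomial.induction_on' with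
  | add p q hp hq => rw [map_add, map_add, smul_add]; exact S'.add_mem hp hq
  | monomial n s =>
    have e0 : (algebraMap S R[X][X]) s = (s : R[X][X]) := rfl
    rw [aeval_monomial, e0, E.leibniz, Derivation.leibniz_pow]
    have e1 : (r1 * r2) • ((s : R[X][X]) • n • w' ^ (n - 1) • E w' + w' ^ n • E s) =
        (n : R[X][X]) * (algebraMap R R[X][X] r1 * ((s : R[X][X]) * (w' ^ (n - 1) * (r2 • E w')))) +
        algebraMap R R[X][X] r2 * (w' ^ n * (r1 • E (s : R[X][X]))) := by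
      simp only [smul_eq_mul, nsmul_eq_mul]
      simp only [Algebra.smul_def, map_mul]
      ring
    rw [e1]
    refine S'.add_mem (S'.mul_mem (natCast_mem _ _) (S'.mul_mem (S'.algebraMap_mem _) (S'.mul_mem
      (hSS s.2) (S'.mul_mem (S'.pow_mem hw' _) (hSS hr2'))))) (S'.mul_mem (S'.algebraMap_mem _)
      (S'.mul_mem (S'.pow_mem hw' _) (hSS (hr1' s s.2))))

end

end Pool.Agent.H78.Rk
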